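import Pool.Agent.Helper86.CO.Defs

/-! Block B2: basic facts on paths, systems and balanced sets. -/

namespace Helper86.CO

open Set Function

universe u

variable {α : Type u}

theorem Path.trans {M : Matroid α} {r : ℕ} {ρ ρ' ρ'' : Fin r → α} {X Y : Set α}
    (h1 : Path M ρ X ρ') (h2 : Path M ρ' Y ρ'') (hd : Disjoint X Y) : Path M ρ (X ∪ Y) ρ'' := by
  induction h2 with
  | nil => rwa [union_empty]
  | snoc h hs hdis ih =>
    rw [disjoint_union_right] at hd
    rw [← union_assoc]
    exact Path.snoc (ih hd.1) hs (disjoint_union_left.2 ⟨hd.2, hdis⟩)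

theorem Path.single {M : Matroid α} {r : ℕ} {ρ ρ' : Fin r → α} (h : Step M ρ ρ') :
    Path M ρ (range ρ') ρ' := by
  have := Path.snoc (Path.nil (M := M) (ρ := ρ)) h (disjoint_bot_left)
  rwa [empty_union] at this

theorem Path.mono {M L : Matroid α} (hLM : ∀ W, L.IsBase W → M.IsBase W) {r : ℕ}
    {ρ ρ' : Fin r → α} {X : Set α} (h : Path L ρ X ρ') : Path M ρ X ρ' := by
  induction h with
  | nil => exact Path.nil
  | snoc h hs hdis ih => exact Path.snoc ih (fun p hp => hLM _ (hs p hp)) hdis

theorem coe_rk [Finite α] (L : Matroid α) (X : Set α) : (rk L X : ℕ∞) = L.eRk X := by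
  unfold rk
  apply ENat.natCast_toNat
  intro h
  have := L.eRk_le_encard X
  rw [h, top_le_iff, encard_eq_top_iff] at this
  exact this (toFinite X)

theorem rk_of_indep [Finite α] {L : Matroid α} {I : Set α} (hI : L.Indep I) :
    rk L I = I.ncard := by
  have h : (rk L I : ℕ∞) = I.ncard := by
    rw [coe_rk, hI.eRk_eq_encard, (toFinite I).cast_ncard_eq]
  exact_mod_cast h

theorem indep_ncard_le [Finite α] {L : Matroid α} {I X : Set α} (hI : L.Indep I) (h : I ⊆ X) :
    I.ncard ≤ rk L X := by
  have := hI.encard_le_eRk_of_subset h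
  rw [← coe_rk, ← (toFinite I).cast_ncard_eq] at this
  exact_mod_cast this

theorem exists_indep_rk [Finite α] (L : Matroid α) (X : Set α) :
    ∃ I ⊆ X, L.Indep I ∧ I.ncard = rk L X := by
  obtain ⟨I, hIX, hI, hc⟩ := Matroid.le_eRk_iff.1 (le_refl (L.eRk X))
  refine ⟨I, hIX, hI, ?_⟩
  rw [← coe_rk, ← (toFinite I).cast_ncard_eq] at hc
  exact_mod_cast hc

theorem range_mix_self {β : Type*} {r : ℕ} (ρ ρ' : Fin r → β) {p : ℕ} (hp : r ≤ p) :
    mix ρ ρ' p = ρ' := by
  funext q
  have : (q : ℕ) < p := lt_of_lt_of_le q.2 hp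
  simp [mix, this]

section Sys

variable {M L : Matroid α} {q : ℕ} {blk : α → Fin q} {r k D D' : ℕ}

/-- An element set is the disjoint union of its parts in the blocks. -/
theorem ncard_eq_sum_blocks [Finite α] (blk : α → Fin q) (A : Set α) :
    A.ncard = ∑ i, (A ∩ blk ⁻¹' {i}).ncard := by
  have h1 : A = ⋃ i, (A ∩ blk ⁻¹' {i}) := by
    ext a
    simp
  conv_lhs => rw [h1]
  rw [← finsum_eq_sum_of_fintype, Set.ncard_iUnion_of_finite (fun _ => toFinite _)]
  intro i j hij
  simp only [onFun]
  rw [Set.disjoint_left]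
  rintro a ⟨_, ha⟩ ⟨_, ha'⟩
  simp only [mem_preimage, mem_singleton_iff] at ha ha'
  exact hij (ha.symm.trans ha')

theorem Sys.base_ncard (S : Sys M L blk r k D D') {W : Set α} (hW : M.IsBase W) :
    W.ncard = r := by
  have := S.fin
  have h := hW.encard_eq_eRank
  rw [S.rankM, ← (toFinite W).cast_ncard_eq] at h
  exact_mod_cast h

theorem Sys.inj (S : Sys M L blk r k D D') {x : Fin r → α} (hx : M.IsBase (range x)) :
    Injective x := by
  classical
  have := S.fin
  have h := S.base_ncard hx
  have h2 : (Finset.univ.image x).card = (Finset.univ : Finset (Fin r)).card := by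
    rw [← ncard_coe_finset, Finset.coe_image, Finset.coe_univ, image_univ, h]
    simp
  have h3 := Finset.card_image_iff.1 h2
  intro a b hab
  exact h3 (Finset.mem_coe.2 (Finset.mem_univ a)) (Finset.mem_coe.2 (Finset.mem_univ b)) hab

theorem Sys.base_block (S : Sys M L blk r k D D') {W : Set α} (hW : L.IsBase W) (i : Fin q) :
    (W ∩ blk ⁻¹' {i}).ncard = rk L (blk ⁻¹' {i}) := by
  classical
  have := S.fin
  refine le_antisymm (indep_ncard_le (hW.indep.subset inter_subset_left) inter_subset_right) ?_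
  by_contra hcon
  push Not at hcon
  obtain ⟨I, hIE, hI, hIc⟩ := exists_indep_rk L (blk ⁻¹' {i})
  -- replace the part of `W` in block `i`
  have hJ : L.Indep ((W \ blk ⁻¹' {i}) ∪ I) := by
    refine S.sum _ fun j => ?_
    by_cases hj : j = i
    · subst hj
      refine hI.subset ?_
      rintro a ⟨h1 | h1, h2⟩
      · exact absurd h2 h1.2
      · exact h1
    · refine hW.indep.subset ?_
      rintro a ⟨h1 | h1, h2⟩
      · exact h1.1
      · have h3 := hIE h1
        simp only [mem_preimage, mem_singleton_iff] at h2 h3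
        exact absurd (h2.symm.trans h3) hj
  have hle := indep_ncard_le hJ (subset_univ _)
  have hWr : W.ncard = rk L univ := by
    have h := hW.encard_eq_eRank
    rw [← L.eRk_univ_eq, ← coe_rk, ← (toFinite W).cast_ncard_eq] at h
    exact_mod_cast h
  have hdis : Disjoint (W \ blk ⁻¹' {i}) I := by
    rw [Set.disjoint_left]
    intro a ha ha'
    exact ha.2 (hIE ha')
  rw [ncard_union_eq hdis, ← hWr] at hle
  have h4 : (W ∩ blk ⁻¹' {i}).ncard + (W \ blk ⁻¹' {i}).ncard = W.ncard :=
    ncard_inter_add_ncard_sdiff_eq_ncard W _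
  omega

theorem Sys.rk_add (S : Sys M L blk r k D D') (A : Set α) :
    ∑ i, rk L (A ∩ blk ⁻¹' {i}) = rk L A := by
  classical
  have := S.fin
  refine le_antisymm ?_ ?_
  · choose I hIA hI hIc using fun i : Fin q => exists_indep_rk L (A ∩ blk ⁻¹' {i})
    have hJ : L.Indep (⋃ i, I i) := by
      refine S.sum _ fun j => (hI j).subset ?_
      rintro a ⟨h1, h2⟩
      obtain ⟨i, hi⟩ := mem_iUnion.1 h1
      have h3 := (hIA i hi).2
      simp only [mem_preimage, mem_singleton_iff] at h2 h3
      rw [h3] at h2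
      exact h2 ▸ hi
    have hd : Pairwise (Disjoint on I) := by
      intro i j hij
      simp only [onFun]
      rw [Set.disjoint_left]
      intro a ha ha'
      have h2 := (hIA i ha).2
      have h3 := (hIA j ha').2
      simp only [mem_preimage, mem_singleton_iff] at h2 h3
      exact hij (h2.symm.trans h3)
    have h1 := indep_ncard_le hJ (iUnion_subset fun i => (hIA i).trans inter_subset_left)
    rw [Set.ncard_iUnion_of_finite (fun _ => toFinite _) hd, finsum_eq_sum_of_fintype] at h1
    calc ∑ i, rk L (A ∩ blk ⁻¹' {i}) = ∑ i, (I i).ncard := by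
          exact Finset.sum_congr rfl fun i _ => (hIc i).symm
      _ ≤ rk L A := h1
  · obtain ⟨I, hIA, hI, hIc⟩ := exists_indep_rk L A
    rw [← hIc, ncard_eq_sum_blocks blk]
    refine Finset.sum_le_sum fun i _ => indep_ncard_le (hI.subset inter_subset_left) ?_
    exact inter_subset_inter_left _ hIA

/-- Exchanges in `L` happen inside a block. -/
theorem Sys.exch_blk (S : Sys M L blk r k D D') {x : Fin r → α} (hx : L.IsBase (range x))
    {p : Fin r} {c : α} (hc : L.IsBase (range (update x p c))) : blk c = blk (x p) := by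
  classical
  have := S.fin
  by_contra hne
  have hxi := S.inj (S.weak _ hx)
  have hci := S.inj (S.weak _ hc)
  have h1 := S.base_block hx (blk c)
  have h2 := S.base_block hc (blk c)
  have h3 : range x ∩ blk ⁻¹' {blk c} ⊂ range (update x p c) ∩ blk ⁻¹' {blk c} := by
    constructor
    · rintro a ⟨⟨p', rfl⟩, ha⟩
      refine ⟨⟨p', ?_⟩, ha⟩
      rw [update_of_ne]
      rintro rfl
      exact hne ha.symm
    · intro hsub
      have hcm : c ∈ range (update x p c) ∩ blk ⁻¹' {blk c} := ⟨⟨p, by simp⟩, rfl⟩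
      obtain ⟨⟨p', hp'⟩, -⟩ := hsub hcm
      have hpp : p' ≠ p := by
        rintro rfl
        exact hne (by rw [hp'])
      have : update x p c p' = update x p c p := by
        rw [update_of_ne hpp, update_self, hp']
      exact hpp (hci this)
  have := ncard_lt_ncard h3
  omega

theorem Sys.bal_base (S : Sys M L blk r k D D') {W : Set α} (hW : L.IsBase W) :
    Bal L blk 1 W := by
  intro i
  rw [one_mul]
  exact S.base_block hW i

theorem Sys.bal_union (S : Sys M L blk r k D D') {X Y : Set α} {m n : ℕ} (hX : Bal L blk m X)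
    (hY : Bal L blk n Y) (hd : Disjoint X Y) : Bal L blk (m + n) (X ∪ Y) := by
  have := S.fin
  intro i
  rw [union_inter_distrib_right, ncard_union_eq (hd.mono inter_subset_left inter_subset_left),
    hX i, hY i, add_mul]

theorem Sys.bal_diff (S : Sys M L blk r k D D') {X Y : Set α} {m n : ℕ} (hX : Bal L blk (m + n) X)
    (hY : Bal L blk n Y) (hd : Y ⊆ X) : Bal L blk m (X \ Y) := by
  have := S.fin
  intro i
  have h1 := hX i
  have h2 := hY i
  have h3 : X ∩ blk ⁻¹' {i} = ((X \ Y) ∩ blk ⁻¹' {i}) ∪ (Y ∩ blk ⁻¹' {i}) := by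
    rw [← union_inter_distrib_right, sdiff_union_of_subset hd]
  have h4 : Disjoint ((X \ Y) ∩ blk ⁻¹' {i}) (Y ∩ blk ⁻¹' {i}) :=
    disjoint_sdiff_left.mono inter_subset_left inter_subset_left
  rw [h3, ncard_union_eq h4, h2, add_mul] at h1
  omega

theorem Sys.bal_BU (S : Sys M L blk r k D D') {X : Set α} {n : ℕ} (hX : BU L n X) :
    Bal L blk n X := by
  have := S.fin
  obtain ⟨B, hB, hd, rfl⟩ := hX
  intro i
  rw [iUnion_inter, Set.ncard_iUnion_of_finite (fun _ => toFinite _), finsum_eq_sum_of_fintype,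
    Finset.sum_congr rfl fun j _ => S.base_block (hB j) i]
  · simp
  · intro j j' hj
    exact (hd hj).mono inter_subset_left inter_subset_left

theorem Sys.bal_path (S : Sys M L blk r k D D') {ρ ρ' : Fin r → α} {X : Set α}
    (h : Path L ρ X ρ') : ∃ n, Bal L blk n X ∧ X.ncard = n * r := by
  have := S.fin
  induction h with
  | nil => exact ⟨0, fun i => by simp, by simp⟩
  | snoc h hs hdis ih =>
    obtain ⟨n, hn, hc⟩ := ih
    have hb := hs r le_rfl
    rw [range_mix_self _ _ le_rfl] at hb
    refine ⟨n + 1, S.bal_union hn (S.bal_base hb) hdis, ?_⟩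
    rw [ncard_union_eq hdis, hc, S.base_ncard (S.weak _ hb)]
    ring

end Sys

end Helper86.CO
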