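import Mathlib

/-! Block B8: the box theorem (Erdős): dense sets of tuples contain boxes. -/

namespace Helper86.CO

open Set Function

universe u

/-- The box theorem for `Fin d`-tuples over a finite type, with finsets. -/
theorem box_fin (d : ℕ) : ∀ (S b : ℕ),
    ∃ n₀ : ℕ, ∀ (α : Type u) [Fintype α] [DecidableEq α], n₀ ≤ Fintype.card α →
      ∀ H : Finset (Fin d → α), Fintype.card α ^ d ≤ b * H.card →
      ∃ A : Fin d → Finset α, (∀ i, (A i).card = S) ∧
        ∀ f : Fin d → α, (∀ i, f i ∈ A i) → f ∈ H := by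
  classical
  induction d with
  | zero =>
    intro S b
    refine ⟨0, fun α _ _ _ H hH => ⟨fun i => i.elim0, fun i => i.elim0, fun f _ => ?_⟩⟩
    have hpos : 0 < H.card := by
      rcases Nat.eq_zero_or_pos H.card with h | h
      · rw [h] at hH; simp at hH
      · exact h
    obtain ⟨g, hg⟩ := Finset.card_pos.1 hpos
    rwa [Subsingleton.elim f g]
  | succ d ih =>
    intro S b
    obtain ⟨K, hK⟩ : ∃ K, K = 4 * b * (S + 1) := ⟨_, rfl⟩
    obtain ⟨n₁, hn₁⟩ := ih S (4 * b * K.choose S)
    refine ⟨max n₁ (2 * b * K + 1), fun α _ _ hN H hH => ?_⟩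
    obtain ⟨N, hNdef⟩ : ∃ N, N = Fintype.card α := ⟨_, rfl⟩
    rw [← hNdef] at hN hH
    have hN1 : n₁ ≤ N := le_trans (le_max_left _ _) hN
    have hN2 : 2 * b * K + 1 ≤ N := le_trans (le_max_right _ _) hN
    have hNpos : 0 < N := by omega
    have hb : 0 < b := by
      rcases Nat.eq_zero_or_pos b with h | h
      · exfalso
        rw [h, Nat.zero_mul] at hH
        have : 0 < N ^ (d + 1) := pow_pos hNpos _
        omega
      · exact h
    have hKpos : 0 < K := by rw [hK]; positivity
    have hcardY : Fintype.card (Fin d → α) = N ^ d := by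
      rw [Fintype.card_fun, Fintype.card_fin, ← hNdef]
    -- the indicator
    let χ : α → (Fin d → α) → ℕ := fun a y =>
      if (Fin.cons a y : Fin (d + 1) → α) ∈ H then 1 else 0
    have hχ : ∀ a y, χ a y ≤ 1 := by
      intro a y; by_cases h : (Fin.cons a y : Fin (d + 1) → α) ∈ H <;> simp [χ, h]
    have hsum : H.card = ∑ a : α, ∑ y : Fin d → α, χ a y := by
      have h1 : H.card = ∑ x : Fin (d + 1) → α, if x ∈ H then 1 else 0 := by
        rw [Finset.sum_ite_mem, Finset.univ_inter, Finset.sum_const, smul_eq_mul, mul_one]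
      rw [h1, ← Fintype.sum_prod_type' (f := χ)]
      exact ((Fin.consEquiv (fun _ : Fin (d + 1) => α)).sum_comp
        (fun x : Fin (d + 1) → α => if x ∈ H then 1 else 0)).symm
    -- the good first coordinates
    let deg : α → ℕ := fun a => ∑ y : Fin d → α, χ a y
    have hdeg : ∀ a, deg a ≤ N ^ d := by
      intro a
      calc deg a ≤ ∑ _y : Fin d → α, 1 := Finset.sum_le_sum fun y _ => hχ a y
        _ = N ^ d := by rw [Finset.sum_const, smul_eq_mul, mul_one, Finset.card_univ, hcardY]
    let G : Finset α := Finset.univ.filter fun a => N ^ d ≤ 2 * b * deg a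
    have hG : K ≤ G.card := by
      by_contra hlt
      push Not at hlt
      have hle : 2 * b * H.card ≤ 2 * b * (K * N ^ d) + N * N ^ d := by
        rw [hsum]
        have h2 : ∀ a : α, 2 * b * deg a ≤ (if a ∈ G then 2 * b * N ^ d else 0) + N ^ d := by
          intro a
          by_cases ha : a ∈ G
          · rw [if_pos ha]
            exact le_trans (Nat.mul_le_mul_left _ (hdeg a)) (Nat.le_add_right _ _)
          · rw [if_neg ha]
            have : ¬ (N ^ d ≤ 2 * b * deg a) := fun h => ha (by simp [G, h])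
            omega
        calc 2 * b * ∑ a : α, ∑ y : Fin d → α, χ a y = ∑ a : α, 2 * b * deg a := by
              rw [Finset.mul_sum]
          _ ≤ ∑ a : α, ((if a ∈ G then 2 * b * N ^ d else 0) + N ^ d) :=
              Finset.sum_le_sum fun a _ => h2 a
          _ = G.card * (2 * b * N ^ d) + N * N ^ d := by
              rw [Finset.sum_add_distrib, Finset.sum_ite_mem, Finset.univ_inter, Finset.sum_const,
                Finset.sum_const, smul_eq_mul, smul_eq_mul, Finset.card_univ, ← hNdef]
          _ ≤ K * (2 * b * N ^ d) + N * N ^ d :=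
              Nat.add_le_add_right (Nat.mul_le_mul_right _ hlt.le) _
          _ = 2 * b * (K * N ^ d) + N * N ^ d := by ring
      have h3 : 2 * (N ^ (d + 1)) ≤ 2 * b * (K * N ^ d) + N * N ^ d := by
        calc 2 * (N ^ (d + 1)) ≤ 2 * (b * H.card) := Nat.mul_le_mul_left _ hH
          _ = 2 * b * H.card := by ring
          _ ≤ _ := hle
      have h4 : N * N ^ d ≤ (2 * b * K) * N ^ d := by
        have : 2 * (N ^ (d + 1)) = N * N ^ d + N * N ^ d := by ring
        have h5 : 2 * b * (K * N ^ d) = (2 * b * K) * N ^ d := by ring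
        omega
      have h6 : N ≤ 2 * b * K := Nat.le_of_mul_le_mul_right h4 (pow_pos hNpos _)
      omega
    obtain ⟨W, hWG, hWK⟩ := Finset.exists_subset_card_eq hG
    -- degrees of the tails in `W`
    let D : (Fin d → α) → Finset α := fun y =>
      W.filter fun a => (Fin.cons a y : Fin (d + 1) → α) ∈ H
    have hD : ∀ y, (D y).card = ∑ a ∈ W, χ a y := by
      intro y
      rw [Finset.card_filter]
    have hDK : ∀ y, (D y).card ≤ K := fun y => by
      rw [← hWK]; exact Finset.card_filter_le _ _
    have hDsum : K * N ^ d ≤ 2 * b * ∑ y : Fin d → α, (D y).card := by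
      have h1 : ∑ y : Fin d → α, (D y).card = ∑ a ∈ W, deg a := by
        simp only [hD]
        exact Finset.sum_comm
      rw [h1, Finset.mul_sum]
      calc K * N ^ d = ∑ _a ∈ W, N ^ d := by rw [Finset.sum_const, smul_eq_mul, hWK]
        _ ≤ ∑ a ∈ W, 2 * b * deg a := Finset.sum_le_sum fun a ha =>
            (Finset.mem_filter.1 (hWG ha)).2
    let Y : Finset (Fin d → α) := Finset.univ.filter fun y => S ≤ (D y).card
    have hY : N ^ d ≤ 4 * b * Y.card := by
      have h1 : ∑ y : Fin d → α, (D y).card ≤ K * Y.card + S * N ^ d := by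
        calc ∑ y : Fin d → α, (D y).card ≤ ∑ y : Fin d → α, ((if y ∈ Y then K else 0) + S) := by
              refine Finset.sum_le_sum fun y _ => ?_
              by_cases hy : y ∈ Y
              · rw [if_pos hy]; exact le_trans (hDK y) (Nat.le_add_right _ _)
              · rw [if_neg hy]
                have : ¬ (S ≤ (D y).card) := fun h => hy (by simp [Y, h])
                omega
          _ = K * Y.card + S * N ^ d := by
              rw [Finset.sum_add_distrib, Finset.sum_ite_mem, Finset.univ_inter, Finset.sum_const,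
                Finset.sum_const, smul_eq_mul, smul_eq_mul, Finset.card_univ, hcardY]
              ring
      have h2 : K * N ^ d ≤ 2 * b * (K * Y.card + S * N ^ d) :=
        le_trans hDsum (Nat.mul_le_mul_left _ h1)
      have h3 : 2 * (2 * b * (S * N ^ d)) ≤ K * N ^ d := by
        rw [hK]
        have : 2 * (2 * b * (S * N ^ d)) = (4 * b * S) * N ^ d := by ring
        rw [this]
        exact Nat.mul_le_mul_right _ (Nat.mul_le_mul_left _ (Nat.le_succ S))
      have h4 : K * N ^ d ≤ K * (4 * b * Y.card) := by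
        have e1 : 2 * b * (K * Y.card + S * N ^ d)
            = 2 * b * (K * Y.card) + 2 * b * (S * N ^ d) := by ring
        have e2 : K * (4 * b * Y.card) = 2 * (2 * b * (K * Y.card)) := by ring
        omega
      exact Nat.le_of_mul_le_mul_left h4 hKpos
    -- choose an `S`-subset for each good tail, and use the pigeonhole principle
    have hT : ∀ y ∈ Y, ∃ T ∈ W.powersetCard S, T ⊆ D y := by
      intro y hy
      obtain ⟨T, hTD, hTS⟩ := Finset.exists_subset_card_eq (Finset.mem_filter.1 hy).2
      exact ⟨T, Finset.mem_powersetCard.2 ⟨hTD.trans (Finset.filter_subset _ _), hTS⟩, hTD⟩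
    choose! T hTW hTD using hT
    have hYpos : 0 < Y.card := by
      rcases Nat.eq_zero_or_pos Y.card with h | h
      · rw [h] at hY
        have : 0 < N ^ d := pow_pos hNpos _
        omega
      · exact h
    obtain ⟨T₀, hT₀, hT₀c⟩ : ∃ T₀ ∈ W.powersetCard S,
        Y.card ≤ K.choose S * (Y.filter fun y => T y = T₀).card := by
      by_contra hcon
      push Not at hcon
      have hne : (W.powersetCard S).Nonempty := by
        obtain ⟨y, hy⟩ := Finset.card_pos.1 hYpos
        exact ⟨T y, hTW y hy⟩
      have h1 : Y.card = ∑ T₀ ∈ W.powersetCard S, (Y.filter fun y => T y = T₀).card :=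
        Finset.card_eq_sum_card_fiberwise fun y hy => hTW y hy
      have h2 : (W.powersetCard S).card = K.choose S := by
        rw [Finset.card_powersetCard, hWK]
      have h3 : ∑ T₀ ∈ W.powersetCard S, K.choose S * (Y.filter fun y => T y = T₀).card
          < ∑ T₀ ∈ W.powersetCard S, Y.card :=
        Finset.sum_lt_sum_of_nonempty hne fun T₀ hT₀ => hcon T₀ hT₀
      rw [← Finset.mul_sum, ← h1, Finset.sum_const, smul_eq_mul, h2] at h3
      exact lt_irrefl _ h3
    let H' : Finset (Fin d → α) := Y.filter fun y => T y = T₀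
    have hH' : Fintype.card α ^ d ≤ (4 * b * K.choose S) * H'.card := by
      rw [← hNdef]
      calc N ^ d ≤ 4 * b * Y.card := hY
        _ ≤ 4 * b * (K.choose S * H'.card) := Nat.mul_le_mul_left _ hT₀c
        _ = _ := by ring
    obtain ⟨A, hA, hAf⟩ := hn₁ α (by rw [← hNdef]; exact hN1) H' hH'
    refine ⟨Fin.cons T₀ A, ?_, ?_⟩
    · intro i
      refine Fin.cases ?_ (fun j => ?_) i
      · simpa using (Finset.mem_powersetCard.1 hT₀).2
      · simpa using hA j
    · intro f hf
      have h0 : f 0 ∈ T₀ := by simpa using hf 0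
      have hs : ∀ j : Fin d, f j.succ ∈ A j := fun j => by simpa using hf j.succ
      have hm : Fin.tail f ∈ H' := hAf (Fin.tail f) hs
      obtain ⟨hmY, hmT⟩ := Finset.mem_filter.1 hm
      have h5 : f 0 ∈ D (Fin.tail f) := hTD _ hmY (by rw [hmT]; exact h0)
      have h6 := (Finset.mem_filter.1 h5).2
      rwa [Fin.cons_self_tail] at h6

/-- Erdős' box theorem: a set of functions `ι → α` of positive density contains a box with sides of
size `S`. -/
theorem box (ι : Type) [Fintype ι] (S b : ℕ) :
    ∃ n₀ : ℕ, ∀ (α : Type u) [Finite α], n₀ ≤ Nat.card α → ∀ H : Set (ι → α),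
      Nat.card α ^ Fintype.card ι ≤ b * H.ncard →
      ∃ A : ι → Finset α, (∀ i, (A i).card = S) ∧ ∀ f : ι → α, (∀ i, f i ∈ A i) → f ∈ H := by
  classical
  obtain ⟨n₀, hn₀⟩ := box_fin.{u} (Fintype.card ι) S b
  refine ⟨n₀, fun α _ hN H hH => ?_⟩
  have := Fintype.ofFinite α
  rw [Nat.card_eq_fintype_card] at hN hH
  let e := Fintype.equivFin ι
  let E : (ι → α) ≃ (Fin (Fintype.card ι) → α) := Equiv.arrowCongr e (Equiv.refl α)
  obtain ⟨A, hA, hAf⟩ := hn₀ α hN ((E '' H).toFinset) (by
    have : (E '' H).toFinset.card = H.ncard := by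
      rw [← Set.ncard_eq_toFinset_card', Set.ncard_image_of_injective _ E.injective]
    rw [this]
    exact hH)
  refine ⟨fun i => A (e i), fun i => hA _, fun f hf => ?_⟩
  have h1 := hAf (E f) (fun j => by
    have := hf (e.symm j)
    simpa [E] using this)
  rw [Set.mem_toFinset] at h1
  obtain ⟨g, hg, hgE⟩ := h1
  rwa [← E.injective hgE]

end Helper86.CO
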