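import Pool.Agent.Helper86.CO.Basic

/-! Block B15a: the chain of flats with a gap in the defects. -/

namespace Helper86.CO

open Set Function

universe u

variable {α : Type u}

/-- Strict chains of flats have length at most the rank. -/
private theorem le_eRk_of_chain {M : Matroid α} (hE : M.E = univ) {q : ℕ} {F : ℕ → Set α}
    (hmono : ∀ i < q, F i ⊂ F (i + 1)) (hflat : ∀ i ≤ q, M.IsFlat (F i)) :
    ∀ i ≤ q, (i : ℕ∞) ≤ M.eRk (F i) := by
  intro i
  induction i with
  | zero => intro _; simp
  | succ i ih =>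
    intro hi
    have h1 := ih (by omega)
    obtain ⟨hsub, hne⟩ := hmono i (by omega)
    obtain ⟨e, he, heF⟩ := Set.not_subset.1 hne
    have hcl : M.closure (F i) = F i := (hflat i (by omega)).closure
    have h2 : M.eRk (insert e (F i)) = M.eRk (F i) + 1 :=
      M.eRk_insert_eq_add_one ⟨by rw [hE]; trivial, by rw [hcl]; exact heF⟩
    have h3 : M.eRk (insert e (F i)) ≤ M.eRk (F (i + 1)) :=
      M.eRk_mono (Set.insert_subset he hsub)
    calc ((i + 1 : ℕ) : ℕ∞) = (i : ℕ∞) + 1 := by push_cast; rfl
      _ ≤ M.eRk (F i) + 1 := by gcongr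
      _ = M.eRk (insert e (F i)) := h2.symm
      _ ≤ _ := h3

/-- There is a chain of `q` steps with defects at most `D`. -/
private def PP (M : Matroid α) (k D q : ℕ) : Prop :=
  ∃ F : ℕ → Set α, F 0 = ∅ ∧ F q = univ ∧ (∀ i < q, F i ⊂ F (i + 1)) ∧
    (∀ i ≤ q, M.IsFlat (F i)) ∧ (∀ i ≤ q, k * rk M (F i) ≤ (F i).ncard + D)

private theorem PP.mono {M : Matroid α} {k D D' q : ℕ} (h : PP M k D q) (hD : D ≤ D') :
    PP M k D' q := by
  obtain ⟨F, h0, hq, h1, h2, h3⟩ := h
  exact ⟨F, h0, hq, h1, h2, fun i hi => (h3 i hi).trans (by omega)⟩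

/-- There is a chain of flats with small defects such that no flat strictly between two consecutive
members has a defect below the next level. -/
theorem chain_flats [Finite α] {M : Matroid α} (hE : M.E = univ) {r k : ℕ} (hr : 0 < r)
    (hk : 0 < k) (hM : M.eRank = r) {B : Fin k → Set α} (hB : ∀ i, M.IsBase (B i))
    (hdisj : Pairwise (Disjoint on B)) (hcov : ⋃ i, B i = univ) (Dm : ℕ → ℕ)
    (hmono : Monotone Dm) :
    ∃ j < r, ∃ q ≤ r, ∃ F : ℕ → Set α, F 0 = ∅ ∧ F q = univ ∧ (∀ i < q, F i ⊂ F (i + 1)) ∧
      (∀ i ≤ q, M.IsFlat (F i)) ∧ (∀ i ≤ q, k * rk M (F i) ≤ (F i).ncard + Dm j) ∧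
      ∀ i < q, ∀ G, M.IsFlat G → F i ⊂ G → G ⊂ F (i + 1) →
        G.ncard + Dm (j + 1) < k * rk M G := by
  classical
  have huniv : M.eRk univ = r := by rw [M.eRk_univ_eq, hM]
  have hrkuniv : rk M univ = r := by rw [rk, huniv]; rfl
  have hcardB : ∀ i, (B i).ncard = r := by
    intro i
    have h := (hB i).encard_eq_eRank
    rw [hM] at h
    rw [Set.ncard, h]
    rfl
  have hcard : (univ : Set α).ncard = k * r := by
    rw [← hcov, Set.ncard_iUnion_of_finite (fun i => Set.toFinite _) hdisj,
      finsum_eq_sum_of_fintype]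
    simp [hcardB]
  have hBne : ∀ i, (B i).Nonempty := by
    intro i
    rw [← Set.ncard_pos (Set.toFinite _), hcardB i]
    exact hr
  have huniv_ne : (univ : Set α).Nonempty := by
    obtain ⟨x, hx⟩ := hBne ⟨0, hk⟩
    exact ⟨x, trivial⟩
  have hloops : M.loops = ∅ := by
    rw [Set.eq_empty_iff_forall_notMem]
    intro e he
    have h1 : e ∈ ⋃ i, B i := by rw [hcov]; trivial
    obtain ⟨i, hi⟩ := Set.mem_iUnion.1 h1
    exact (Matroid.IsLoop.notMem_of_indep (M.isLoop_iff.2 he) (hB i).indep) hi
  have hempty : M.IsFlat ∅ := by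
    rw [Matroid.isFlat_iff_closure_eq, Matroid.closure_empty, hloops]
  have hflat_univ : M.IsFlat univ := by
    have := M.ground_isFlat
    rwa [hE] at this
  -- chains have at most `r` steps
  have hle : ∀ D q, PP M k D q → q ≤ r := by
    rintro D q ⟨F, h0, hq, h1, h2, h3⟩
    have h4 := le_eRk_of_chain hE h1 h2 q le_rfl
    rw [hq, huniv] at h4
    exact_mod_cast h4
  have hone : ∀ D, PP M k D 1 := by
    intro D
    refine ⟨fun i => if i = 0 then ∅ else univ, by simp, by simp, ?_, ?_, ?_⟩
    · intro i hi
      have : i = 0 := by omega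
      subst this
      simp only [if_true, zero_add, one_ne_zero, if_false]
      exact Set.empty_ssubset.2 huniv_ne
    · intro i _
      dsimp only
      split_ifs
      · exact hempty
      · exact hflat_univ
    · intro i _
      dsimp only
      split_ifs
      · simp [rk]
      · rw [hrkuniv, hcard]
        omega
  let l : ℕ → ℕ := fun D => Nat.findGreatest (PP M k D) r
  have hl_spec : ∀ D, PP M k D (l D) := fun D =>
    Nat.findGreatest_spec (P := PP M k D) (hle D 1 (hone D)) (hone D)
  have hl_le : ∀ D, l D ≤ r := fun D => Nat.findGreatest_le r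
  have hl_ge : ∀ D q, PP M k D q → q ≤ l D := fun D q h =>
    Nat.le_findGreatest (hle D q h) h
  have hl_mono : ∀ D D', D ≤ D' → l D ≤ l D' := fun D D' h =>
    hl_ge D' (l D) ((hl_spec D).mono h)
  have hj : ∃ j < r, l (Dm j) = l (Dm (j + 1)) := by
    by_contra hcon
    push Not at hcon
    have h1 : ∀ j ≤ r, j + 1 ≤ l (Dm j) := by
      intro j
      induction j with
      | zero => intro _; exact hl_ge _ _ (hone _)
      | succ j ih =>
        intro hj
        have h2 := ih (by omega)
        have h3 := hcon j (by omega)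
        have h4 := hl_mono (Dm j) (Dm (j + 1)) (hmono (Nat.le_succ j))
        omega
    have h5 := h1 r le_rfl
    have h6 := hl_le (Dm r)
    omega
  obtain ⟨j, hjr, hj⟩ := hj
  obtain ⟨F, h0, hq, h1, h2, h3⟩ := hl_spec (Dm j)
  refine ⟨j, hjr, l (Dm j), hl_le _, F, h0, hq, h1, h2, h3, ?_⟩
  intro i hi G hG hG1 hG2
  by_contra hcon
  push Not at hcon
  have hDD : Dm j ≤ Dm (j + 1) := hmono (Nat.le_succ j)
  have hnew : PP M k (Dm (j + 1)) (l (Dm j) + 1) := by
    refine ⟨fun n => if n ≤ i then F n else if n = i + 1 then G else F (n - 1), ?_, ?_, ?_, ?_, ?_⟩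
    · simp [h0]
    · dsimp only
      rw [if_neg (by omega), if_neg (by omega), Nat.add_sub_cancel]
      exact hq
    · intro n hn
      dsimp only
      rcases lt_trichotomy n i with h | h | h
      · rw [if_pos (by omega), if_pos (by omega)]
        exact h1 n (by omega)
      · subst h
        rw [if_pos le_rfl, if_neg (by omega), if_pos rfl]
        exact hG1
      · rcases Nat.eq_or_lt_of_le (Nat.succ_le_of_lt h) with h' | h'
        · have : n = i + 1 := h'.symm
          subst this
          rw [if_neg (by omega), if_pos rfl, if_neg (by omega), if_neg (by omega)]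
          exact hG2
        · rw [if_neg (by omega), if_neg (by omega), if_neg (by omega), if_neg (by omega)]
          have := h1 (n - 1) (by omega)
          rwa [show n - 1 + 1 = n by omega] at this
    · intro n hn
      dsimp only
      split_ifs with h h'
      · exact h2 n (by omega)
      · exact hG
      · exact h2 (n - 1) (by omega)
    · intro n hn
      dsimp only
      split_ifs with h h'
      · exact (h3 n (by omega)).trans (by omega)
      · exact hcon
      · exact (h3 (n - 1) (by omega)).trans (by omega)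
  have := hl_ge _ _ hnew
  omega

end Helper86.CO
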