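import Pool.Agent.Helper86.CO.Basic

/-! Block B15b: the direct sum matroid of a chain of flats. -/

namespace Helper86.CO

open Set Function

universe u

variable {α : Type u}

private theorem cm_mono {q : ℕ} {F : ℕ → Set α} (hmono : ∀ i < q, F i ⊂ F (i + 1)) :
    ∀ j ≤ q, ∀ i ≤ j, F i ⊆ F j := by
  intro j
  induction j with
  | zero =>
    intro _ i hi
    obtain rfl : i = 0 := Nat.le_zero.1 hi
    exact Subset.rfl
  | succ j ih =>
    intro hj i hi
    rcases Nat.lt_or_ge i (j + 1) with h | h
    · exact (ih (by omega) i (by omega)).trans (hmono j (by omega)).subset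
    · obtain rfl : i = j + 1 := by omega
      exact Subset.rfl

private theorem cm_isBasis_union {M : Matroid α} {A C I J : Set α}
    (hJ : (M.contract C).IsBasis J A) (hI : M.IsBasis I C) : M.IsBasis (J ∪ I) (A ∪ C) := by
  have hind := (hI.contract_indep_iff.1 hJ.indep).1
  refine hind.isBasis_of_subset_of_subset_closure
    (union_subset_union hJ.subset hI.subset) (union_subset ?_ ?_)
  · have h1 : A ⊆ (M.contract C).closure J := hJ.subset_closure
    rw [Matroid.contract_closure_eq] at h1
    have h2 : M.closure (J ∪ C) = M.closure (J ∪ I) :=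
      M.closure_union_congr_right hI.closure_eq_closure.symm
    rw [← h2]
    exact h1.trans sdiff_subset
  · exact hI.subset_closure.trans (M.closure_subset_closure subset_union_right)

private theorem cm_rk [Finite α] {M : Matroid α} {I X : Set α} (h : M.IsBasis I X) :
    rk M X = I.ncard := by
  unfold rk
  rw [h.eRk_eq_encard]
  rfl

/-- The matroid associated to a chain of flats: the direct sum of the minors
`(M ↾ F (i + 1)) ／ F i`. -/
theorem chain_matroid [Finite α] {M : Matroid α} (hE : M.E = univ) {q : ℕ} {F : ℕ → Set α}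
    (hF0 : F 0 = ∅) (hFq : F q = univ) (hmono : ∀ i < q, F i ⊂ F (i + 1))
    (hflat : ∀ i ≤ q, M.IsFlat (F i)) :
    ∃ (L : Matroid α) (blk : α → Fin q), L.E = univ ∧
      (∀ i : Fin q, blk ⁻¹' {i} = F (i + 1) \ F i) ∧
      (∀ W, L.IsBase W → M.IsBase W) ∧
      (∀ I, (∀ i, L.Indep (I ∩ blk ⁻¹' {i})) → L.Indep I) ∧
      (∀ i : Fin q, ∀ A ⊆ blk ⁻¹' {i}, rk L A + rk M (F i) = rk M (A ∪ F i)) ∧
      (∀ W, M.IsBase W → (∀ i ≤ q, (W ∩ F i).ncard = rk M (F i)) → L.IsBase W) := by
  classical
  have hm := cm_mono hmono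
  have hex : ∀ a : α, ∃ n, a ∈ F n := fun a => ⟨q, hFq ▸ mem_univ a⟩
  have hle : ∀ a : α, Nat.find (hex a) ≤ q := fun a => Nat.find_min' (hex a) (hFq ▸ mem_univ a)
  have hpos : ∀ a : α, 0 < Nat.find (hex a) := by
    intro a
    rw [Nat.find_pos, hF0]
    exact notMem_empty a
  let blk : α → Fin q := fun a => ⟨Nat.find (hex a) - 1, by
    have h1 := hle a
    have h2 := hpos a
    omega⟩
  have hblk : ∀ i : Fin q, blk ⁻¹' {i} = F (i + 1) \ F i := by
    intro i
    ext a
    simp only [mem_preimage, mem_singleton_iff, mem_sdiff]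
    constructor
    · intro h
      have h1 : Nat.find (hex a) - 1 = i := congrArg Fin.val h
      have h2 := hpos a
      have h3 : Nat.find (hex a) = i + 1 := by omega
      refine ⟨?_, ?_⟩
      · have := Nat.find_spec (hex a)
        rwa [h3] at this
      · exact Nat.find_min (hex a) (by omega)
    · rintro ⟨h1, h2⟩
      have h3 : Nat.find (hex a) ≤ i + 1 := Nat.find_min' (hex a) h1
      have h4 : ¬ Nat.find (hex a) ≤ i := by
        intro h
        exact h2 (hm i i.2.le _ h (Nat.find_spec (hex a)))
      apply Fin.ext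
      show Nat.find (hex a) - 1 = i
      omega
  have hdisj : Pairwise (Disjoint on fun i : Fin q =>
      ((M.contract (F i)).restrict (F (i + 1) \ F i)).E) := by
    intro i j hij
    show Disjoint (F (i + 1) \ F i) (F (j + 1) \ F j)
    rw [← hblk i, ← hblk j, Set.disjoint_left]
    intro a ha hb
    exact hij (ha.symm.trans hb)
  have hNE : ∀ i : Fin q, ((M.contract (F i)).restrict (F (i + 1) \ F i)).E
      = F (i + 1) \ F i := fun i => rfl
  have hU : ⋃ i : Fin q, (F (i + 1) \ F i) = univ := by
    rw [eq_univ_iff_forall]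
    intro a
    rw [mem_iUnion]
    refine ⟨blk a, ?_⟩
    rw [← hblk]
    rfl
  have hgr : ∀ i : Fin q, F (i + 1) \ F i ⊆ (M.contract (F i)).E := by
    intro i
    rw [Matroid.contract_ground, hE]
    exact sdiff_subset_sdiff_left (subset_univ _)
  have hFi : ∀ i ≤ q, F i ⊆ M.E := fun i hi => hE ▸ subset_univ _
  refine ⟨Matroid.disjointSigma _ hdisj, blk, ?_, hblk, ?_, ?_, ?_, ?_⟩
  · rw [Matroid.disjointSigma_ground_eq]
    exact hU
  · intro W hW
    rw [Matroid.disjointSigma_isBase_iff] at hW
    obtain ⟨hW, -⟩ := hW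
    have key : ∀ i, i ≤ q → M.IsBasis (W ∩ F i) (F i) := by
      intro i
      induction i with
      | zero =>
        intro _
        rw [hF0, inter_empty]
        exact M.empty_indep.isBasis_self
      | succ i ih =>
        intro hi
        have h1 := ih (by omega)
        have h2 := hW ⟨i, by omega⟩
        rw [Matroid.isBase_restrict_iff (hgr ⟨i, by omega⟩)] at h2
        have h3 := cm_isBasis_union h2 h1
        have h4 : F i ⊆ F (i + 1) := (hmono i (by omega)).subset
        have e1 : W ∩ (F (i + 1) \ F i) ∪ W ∩ F i = W ∩ F (i + 1) := by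
          rw [← inter_union_distrib_left, sdiff_union_of_subset h4]
        have e2 : F (i + 1) \ F i ∪ F i = F (i + 1) := sdiff_union_of_subset h4
        have h5 : M.IsBasis (W ∩ (F (i + 1) \ F i) ∪ W ∩ F i) (F (i + 1) \ F i ∪ F i) := h3
        rwa [e1, e2] at h5
    have h := key q le_rfl
    rw [hFq, inter_univ, ← hE] at h
    exact Matroid.isBasis_ground_iff.1 h
  · intro I hI
    rw [Matroid.disjointSigma_indep_iff]
    constructor
    · intro i
      have h1 := hI i
      rw [Matroid.disjointSigma_indep_iff] at h1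
      have h2 := h1.1 i
      rw [hblk i, hNE i, inter_assoc, inter_self] at h2
      exact h2
    · have : I ⊆ ⋃ i : Fin q, (F (i + 1) \ F i) := hU ▸ subset_univ I
      exact this
  · intro i A hA
    rw [hblk i] at hA
    have hAg : A ⊆ (M.contract (F i)).E := hA.trans (hgr i)
    obtain ⟨J, hJ⟩ := (M.contract (F i)).exists_isBasis A hAg
    obtain ⟨I, hI⟩ := M.exists_isBasis (F i) (hFi i i.2.le)
    have hJL : (Matroid.disjointSigma _ hdisj).IsBasis J A := by
      rw [Matroid.disjointSigma_isBasis_iff]
      refine ⟨?_, hJ.subset, ?_⟩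
      · intro j
        by_cases hij : j = i
        · subst hij
          rw [hNE j, inter_eq_self_of_subset_left hA,
            inter_eq_self_of_subset_left (hJ.subset.trans hA)]
          rw [Matroid.isBasis_restrict_iff (hgr j)]
          exact ⟨hJ, hA⟩
        · have hd : Disjoint (F (i + 1) \ F i) (F (j + 1) \ F j) := hdisj (Ne.symm hij)
          have hA0 : A ∩ (F (j + 1) \ F j) = ∅ :=
            (hd.mono_left hA).inter_eq
          have hJ0 : J ∩ (F (j + 1) \ F j) = ∅ :=
            (hd.mono_left (hJ.subset.trans hA)).inter_eq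
          rw [hNE j, hA0, hJ0]
          exact (Matroid.empty_indep _).isBasis_self
      · have : A ⊆ ⋃ i : Fin q, (F (i + 1) \ F i) := hU ▸ subset_univ A
        exact this
    have hdJI : Disjoint J I := by
      have h1 : Disjoint J (F i) := by
        refine Disjoint.mono_left (hJ.subset.trans hA) ?_
        exact disjoint_sdiff_left
      exact h1.mono_right hI.subset
    rw [cm_rk hJL, cm_rk hI, cm_rk (cm_isBasis_union hJ hI)]
    exact (ncard_union_eq hdJI (toFinite _) (toFinite _)).symm
  · intro W hW hc
    have hb : ∀ i ≤ q, M.IsBasis (W ∩ F i) (F i) := by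
      intro i hi
      have hind : M.Indep (W ∩ F i) := hW.indep.subset inter_subset_left
      refine hind.isBasis_of_eRk_ge (toFinite _) inter_subset_right ?_ (hFi i hi)
      rw [hind.eRk_eq_encard, ← coe_rk, ← hc i hi]
      exact le_of_eq (Set.Finite.cast_ncard_eq (toFinite _))
    rw [Matroid.disjointSigma_isBase_iff]
    constructor
    · intro i
      rw [Matroid.isBase_restrict_iff (hgr i)]
      have h1 := (hb (i + 1) i.2).contract_isBasis (hb i i.2.le) (hW.indep.subset (by
        intro x hx
        rcases hx with hx | hx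
        · exact hx.1.1
        · exact hx.1))
      have e1 : (W ∩ F (i + 1)) \ F i = W ∩ (F (i + 1) \ F i) := inter_sdiff_assoc ..
      rw [e1] at h1
      exact h1
    · have : W ⊆ ⋃ i : Fin q, (F (i + 1) \ F i) := hU ▸ subset_univ W
      exact this

end Helper86.CO
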