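import Pool.Agent.Helper86.CO.Defs

/-! Block B10: fundamental circuits and the exchange bijection between two bases. -/

namespace Helper86.CO

open Set Function

universe u

variable {α : Type u}

theorem supp_range_update {r : ℕ} {x : Fin r → α} (hinj : Injective x) (p : Fin r)
    (c : α) : range (update x p c) = insert c (range x \ {x p}) := by
  ext z
  simp only [mem_range, mem_insert_iff, mem_sdiff, mem_singleton_iff]
  constructor
  · rintro ⟨q, rfl⟩
    by_cases hq : q = p
    · subst hq
      left
      rw [update_self]
    · right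
      rw [update_of_ne hq]
      exact ⟨⟨q, rfl⟩, fun h => hq (hinj h)⟩
  · rintro (rfl | ⟨⟨q, rfl⟩, hq⟩)
    · exact ⟨p, update_self _ _ _⟩
    · refine ⟨q, update_of_ne ?_ _ _⟩
      rintro rfl
      exact hq rfl

/-- An element lies in the closure of those elements of a base which it can replace. -/
theorem mem_closure_supp {L : Matroid α} {r : ℕ} {x : Fin r → α} (hinj : Injective x)
    (hb : L.IsBase (range x)) {c : α} (hc : c ∈ L.E) :
    c ∈ L.closure (x '' {p | L.IsBase (range (update x p c))}) := by
  have hsub : x '' {p | L.IsBase (range (update x p c))} ⊆ L.E :=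
    (image_subset_range _ _).trans hb.subset_ground
  by_cases hcx : c ∈ range x
  · obtain ⟨p, rfl⟩ := hcx
    apply L.subset_closure _ hsub
    refine ⟨p, ?_, rfl⟩
    simp only [mem_ofPred_eq]
    rw [update_eq_self]
    exact hb
  · have hC := hb.fundCircuit_isCircuit hc hcx
    have hmem := L.mem_fundCircuit c (range x)
    have hcl : c ∈ L.closure (L.fundCircuit c (range x) \ {c}) :=
      hC.mem_closure_sdiff_singleton_of_mem hmem
    refine L.closure_subset_closure ?_ hcl
    rintro y ⟨hy, hyc⟩
    rw [mem_singleton_iff] at hyc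
    have hyr : y ∈ range x := by
      rcases L.fundCircuit_subset_insert c (range x) hy with h | h
      · exact absurd h hyc
      · exact h
    obtain ⟨p, rfl⟩ := hyr
    refine ⟨p, ?_, rfl⟩
    simp only [mem_ofPred_eq]
    rw [supp_range_update hinj]
    rw [hb.indep.mem_fundCircuit_iff (by rwa [hb.closure_eq]) hcx] at hy
    apply hb.exchange_isBase_of_indep hcx
    rwa [insert_sdiff_singleton_comm (Ne.symm hyc)]

/-- Brualdi's exchange bijection. -/
theorem exists_hall [Finite α] {M : Matroid α} {r : ℕ} {x : Fin r → α} (hinj : Injective x)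
    (hb : M.IsBase (range x)) {B : Set α} (hB : M.IsBase B) :
    ∃ y : Fin r → α, Injective y ∧ range y = B ∧ ∀ p, M.IsBase (range (update x p (y p))) := by
  classical
  let t : ↥B → Finset (Fin r) := fun z =>
    Finset.univ.filter (fun p => M.IsBase (range (update x p (z : α))))
  have ht : ∀ (z : ↥B) p, p ∈ t z ↔ M.IsBase (range (update x p (z : α))) := fun z p => by
    simp [t]
  have hall : ∀ s : Finset ↥B, s.card ≤ (s.biUnion t).card := by
    intro s
    set N : Set (Fin r) := (↑(s.biUnion t) : Set (Fin r)) with hN
    set Y : Set α := (fun z : ↥B => (z : α)) '' (s : Set ↥B) with hY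
    have hYB : Y ⊆ B := by
      rintro _ ⟨z, _, rfl⟩
      exact z.2
    have hYcl : Y ⊆ M.closure (x '' N) := by
      rintro _ ⟨z, hz, rfl⟩
      refine M.closure_subset_closure ?_ (mem_closure_supp hinj hb (hB.subset_ground z.2))
      apply image_mono
      intro p hp
      rw [hN, Finset.mem_coe, Finset.mem_biUnion]
      exact ⟨z, hz, (ht z p).2 hp⟩
    have h1 : Y.encard ≤ (x '' N).encard := by
      calc Y.encard ≤ M.eRk (M.closure (x '' N)) :=
            (hB.indep.subset hYB).encard_le_eRk_of_subset hYcl
        _ = M.eRk (x '' N) := M.eRk_closure_eq _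
        _ ≤ (x '' N).encard := M.eRk_le_encard _
    rw [hY, Subtype.val_injective.encard_image, hinj.encard_image, hN, Set.encard_coe_eq_coe_finsetCard,
      Set.encard_coe_eq_coe_finsetCard] at h1
    exact_mod_cast h1
  obtain ⟨f, hf, hft⟩ := (Finset.all_card_le_biUnion_card_iff_exists_injective t).1 hall
  have : Fintype ↥B := Fintype.ofFinite _
  have hcard : Fintype.card ↥B = Fintype.card (Fin r) := by
    have h1 : B.ncard = (range x).ncard := hB.ncard_eq_ncard_of_isBase hb
    rw [← Nat.card_coe_set_eq, ← Nat.card_coe_set_eq, Nat.card_range_of_injective hinj,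
      Nat.card_eq_fintype_card, Nat.card_eq_fintype_card] at h1
    exact h1
  have hbij : Bijective f := (Fintype.bijective_iff_injective_and_card f).2 ⟨hf, hcard⟩
  let e := Equiv.ofBijective f hbij
  refine ⟨fun p => ((e.symm p : ↥B) : α), Subtype.val_injective.comp e.symm.injective, ?_, ?_⟩
  · ext z
    constructor
    · rintro ⟨p, rfl⟩
      exact (e.symm p).2
    · intro hz
      exact ⟨e ⟨z, hz⟩, by simp⟩
  · intro p
    have h := (ht (e.symm p) (f (e.symm p))).1 (hft (e.symm p))
    have hp : f (e.symm p) = p := e.apply_symm_apply p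
    rwa [hp] at h

end Helper86.CO
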