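import Pool.Agent.Helper86.CO.Basic
import Pool.Agent.Helper86.CO.Supp

/-! Block B12: the sharing graph is connected inside the blocks. -/

namespace Helper86.CO

open Set Function

universe u

variable {α : Type u} {M L : Matroid α} {q : ℕ} {blk : α → Fin q} {r k D D' : ℕ}

/-- The rank of `cl (x '' P) ∩ E` when `x '' P ⊆ E`. -/
private theorem rk_cl_inter [Finite α] {x : Fin r → α} (hinj : Injective x)
    (hb : L.IsBase (range x)) (hE : L.E = univ) {P : Set (Fin r)} {E : Set α}
    (hPE : x '' P ⊆ E) : rk L (L.closure (x '' P) ∩ E) = P.ncard := by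
  have hind : L.Indep (x '' P) := hb.indep.subset (image_subset_range _ _)
  have hsub : x '' P ⊆ L.closure (x '' P) := L.subset_closure (x '' P) (by rw [hE]; exact subset_univ _)
  have h1 : L.eRk (x '' P) ≤ L.eRk (L.closure (x '' P) ∩ E) :=
    L.eRk_mono (subset_inter hsub hPE)
  have h2 : L.eRk (L.closure (x '' P) ∩ E) ≤ L.eRk (x '' P) := by
    calc L.eRk (L.closure (x '' P) ∩ E) ≤ L.eRk (L.closure (x '' P)) :=
          L.eRk_mono inter_subset_left
      _ = L.eRk (x '' P) := L.eRk_closure_eq _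
  have h3 : L.eRk (L.closure (x '' P) ∩ E) = (P.ncard : ℕ∞) := by
    rw [le_antisymm h2 h1, hind.eRk_eq_encard, hinj.encard_image, ← (toFinite P).cast_ncard_eq]
  unfold rk
  rw [h3]
  rfl

theorem linked_conn (S : Sys M L blk r k D D') {t : ℕ} (ht : r * r * t + 3 * D < 2 * D')
    {x : Fin r → α} (hb : L.IsBase (range x)) {p p' : Fin r} (hpp : blk (x p) = blk (x p')) :
    Relation.ReflTransGen (Linked L x t) p p' := by
  classical
  haveI := S.fin
  have hinj : Injective x := S.inj (S.weak _ hb)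
  by_contra hcon
  set i : Fin q := blk (x p) with hi
  set E : Set α := blk ⁻¹' {i} with hEdef
  set P : Set (Fin r) := {a | blk (x a) = i ∧ Relation.ReflTransGen (Linked L x t) p a} with hP
  set Q : Set (Fin r) := {a | blk (x a) = i ∧ ¬ Relation.ReflTransGen (Linked L x t) p a} with hQ
  have hpP : p ∈ P := ⟨rfl, Relation.ReflTransGen.refl⟩
  have hpQ : p' ∈ Q := ⟨hpp.symm, hcon⟩
  have hPQ : Disjoint P Q := by
    rw [Set.disjoint_left]
    rintro a ⟨-, ha⟩ ⟨-, ha'⟩
    exact ha' ha
  have hxP : x '' P ⊆ E := by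
    rintro _ ⟨a, ha, rfl⟩
    exact ha.1
  have hxQ : x '' Q ⊆ E := by
    rintro _ ⟨a, ha, rfl⟩
    exact ha.1
  have hrkA : rk L (L.closure (x '' P) ∩ E) = P.ncard := rk_cl_inter hinj hb S.LE hxP
  have hrkB : rk L (L.closure (x '' Q) ∩ E) = Q.ncard := rk_cl_inter hinj hb S.LE hxQ
  have hrkE : rk L E = P.ncard + Q.ncard := by
    rw [← S.base_block hb i]
    have : range x ∩ E = x '' (P ∪ Q) := by
      ext c
      constructor
      · rintro ⟨⟨a, rfl⟩, ha⟩
        refine ⟨a, ?_, rfl⟩
        by_cases h : Relation.ReflTransGen (Linked L x t) p a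
        · exact Or.inl ⟨ha, h⟩
        · exact Or.inr ⟨ha, h⟩
      · rintro ⟨a, ha, rfl⟩
        refine ⟨mem_range_self a, ?_⟩
        rcases ha with ha | ha
        · exact ha.1
        · exact ha.1
    rw [this, ncard_image_of_injective _ hinj, ncard_union_eq hPQ]
  have hPpos : 0 < P.ncard := (ncard_pos (toFinite _)).2 ⟨p, hpP⟩
  have hQpos : 0 < Q.ncard := (ncard_pos (toFinite _)).2 ⟨p', hpQ⟩
  have hxin : ∀ {R : Set (Fin r)} {a : Fin r}, a ∈ R → x a ∈ L.closure (x '' R) := by
    intro R a ha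
    exact L.subset_closure (x '' R) (by rw [S.LE]; exact subset_univ _) (mem_image_of_mem _ ha)
  have hA := S.loose i (L.closure (x '' P) ∩ E) inter_subset_right
    ⟨x p, hxin hpP, hxP (mem_image_of_mem _ hpP)⟩ (by rw [hrkA]; change _ < rk L E; omega)
  have hB := S.loose i (L.closure (x '' Q) ∩ E) inter_subset_right
    ⟨x p', hxin hpQ, hxQ (mem_image_of_mem _ hpQ)⟩ (by rw [hrkB]; change _ < rk L E; omega)
  have hbig := S.big i
  change k * rk L E ≤ E.ncard + D at hbig
  rw [hrkA] at hA
  rw [hrkB] at hB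
  rw [hrkE] at hbig
  -- the elements which can replace an element of `P` and one of `Q`
  let T : Fin r × Fin r → Set α := fun ab =>
    {c | ab.1 ∈ P ∧ ab.2 ∈ Q ∧ L.IsBase (range (update x ab.1 c)) ∧
      L.IsBase (range (update x ab.2 c))}
  have hT : ∀ ab, (T ab).ncard ≤ t := by
    rintro ⟨a, b⟩
    by_cases hab : a ∈ P ∧ b ∈ Q
    · have hne : a ≠ b := by
        rintro rfl
        exact (Set.disjoint_left.1 hPQ) hab.1 hab.2
      have hnl : ¬ Linked L x t a b := by
        intro hl
        exact hab.2.2 (hab.1.2.tail hl)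
      have hlt : {c | L.IsBase (range (update x a c)) ∧
          L.IsBase (range (update x b c))}.ncard < t := by
        by_contra hge
        exact hnl ⟨hne, not_lt.1 hge⟩
      refine le_trans (ncard_le_ncard ?_ (toFinite _)) hlt.le
      rintro c ⟨-, -, h1, h2⟩
      exact ⟨h1, h2⟩
    · have : T (a, b) = ∅ := by
        ext c
        simp only [mem_empty_iff_false, iff_false]
        rintro ⟨h1, h2, -⟩
        exact hab ⟨h1, h2⟩
      rw [this, ncard_empty]
      exact Nat.zero_le _
  have hcover : E ⊆ (L.closure (x '' P) ∩ E) ∪ (L.closure (x '' Q) ∩ E) ∪ ⋃ ab, T ab := by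
    intro c hc
    have hcl : c ∈ L.closure (x '' {a | L.IsBase (range (update x a c))}) :=
      mem_closure_supp hinj hb (by rw [S.LE]; exact mem_univ c)
    have hsupp : ∀ a, L.IsBase (range (update x a c)) → blk (x a) = i := by
      intro a ha
      rw [← S.exch_blk hb ha]
      exact hc
    by_cases h1 : ∃ a ∈ P, L.IsBase (range (update x a c))
    · by_cases h2 : ∃ b ∈ Q, L.IsBase (range (update x b c))
      · obtain ⟨a, ha, ha'⟩ := h1
        obtain ⟨b, hb1, hb'⟩ := h2
        exact Or.inr (mem_iUnion.2 ⟨(a, b), ha, hb1, ha', hb'⟩)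
      · refine Or.inl (Or.inl ⟨L.closure_subset_closure (image_mono ?_) hcl, hc⟩)
        intro a ha
        refine ⟨hsupp a ha, ?_⟩
        by_contra hn
        exact h2 ⟨a, ⟨hsupp a ha, hn⟩, ha⟩
    · refine Or.inl (Or.inr ⟨L.closure_subset_closure (image_mono ?_) hcl, hc⟩)
      intro a ha
      refine ⟨hsupp a ha, ?_⟩
      intro hr
      exact h1 ⟨a, ⟨hsupp a ha, hr⟩, ha⟩
  have hcard : E.ncard ≤ (L.closure (x '' P) ∩ E).ncard + (L.closure (x '' Q) ∩ E).ncard
      + r * r * t := by
    calc E.ncard ≤ ((L.closure (x '' P) ∩ E) ∪ (L.closure (x '' Q) ∩ E) ∪ ⋃ ab, T ab).ncard :=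
          ncard_le_ncard hcover (toFinite _)
      _ ≤ ((L.closure (x '' P) ∩ E) ∪ (L.closure (x '' Q) ∩ E)).ncard + (⋃ ab, T ab).ncard :=
          ncard_union_le _ _
      _ ≤ ((L.closure (x '' P) ∩ E).ncard + (L.closure (x '' Q) ∩ E).ncard)
          + (⋃ ab, T ab).ncard := Nat.add_le_add_right (ncard_union_le _ _) _
      _ ≤ ((L.closure (x '' P) ∩ E).ncard + (L.closure (x '' Q) ∩ E).ncard) + r * r * t := by
          refine Nat.add_le_add_left ?_ _
          calc (⋃ ab, T ab).ncard ≤ ∑ ab : Fin r × Fin r, (T ab).ncard := by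
                have h := Set.ncard_iUnion_le_of_fintype T
                exact h
            _ ≤ ∑ _ab : Fin r × Fin r, t := Finset.sum_le_sum (fun ab _ => hT ab)
            _ = r * r * t := by simp
  have e1 : k * (P.ncard + Q.ncard) = k * P.ncard + k * Q.ncard := by ring
  omega

end Helper86.CO
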