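import Pool.Agent.Helper86.CO.Basic

/-! Block B9: counting tuples chosen element by element; counting regular rows. -/

namespace Helper86.CO

open Set Function

universe u

variable {α : Type u}

theorem count_ext [Finite α] (Q : ∀ j : ℕ, (Fin j → α) → Prop) (n t : ℕ)
    (h0 : ∀ f : Fin 0 → α, Q 0 f)
    (hs : ∀ j < n, ∀ f : Fin j → α, Q j f →
      t ≤ {a : α | Q (j + 1) (Fin.snoc f a : Fin (j + 1) → α)}.ncard) :
    t ^ n ≤ {f : Fin n → α | Q n f}.ncard := by
  classical
  have := Fintype.ofFinite α
  induction n with
  | zero =>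
    have : {f : Fin 0 → α | Q 0 f} = univ := by
      ext f; simp [h0 f]
    rw [this, Set.ncard_univ]
    simp
  | succ n ih =>
    have ih' := ih (fun j hj => hs j (by omega))
    set S : Finset (Fin n → α) := Finset.univ.filter (fun f => Q n f) with hS
    set S' : Finset (Fin (n + 1) → α) := Finset.univ.filter (fun f => Q (n + 1) f) with hS'
    have e1 : {f : Fin n → α | Q n f}.ncard = S.card := by
      rw [← Set.ncard_coe_finset]; congr 1; ext f; simp [hS]
    have e2 : {f : Fin (n + 1) → α | Q (n + 1) f}.ncard = S'.card := by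
      rw [← Set.ncard_coe_finset]; congr 1; ext f; simp [hS']
    rw [e1] at ih'
    rw [e2]
    set T : (Fin n → α) → Finset α := fun f =>
      Finset.univ.filter (fun a => Q (n + 1) (Fin.snoc f a : Fin (n + 1) → α)) with hT
    have e3 : ∀ f ∈ S, t ≤ (T f).card := by
      intro f hf
      have h1 := hs n (by omega) f (by simpa [hS] using hf)
      have h2 : {a : α | Q (n + 1) (Fin.snoc f a : Fin (n + 1) → α)}.ncard = (T f).card := by
        rw [← Set.ncard_coe_finset]; congr 1; ext a; simp [hT]
      rw [h2] at h1
      exact h1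
    have e4 : (S.sigma T).card ≤ S'.card := by
      refine Finset.card_le_card_of_injOn
        (fun p => (Fin.snoc p.1 p.2 : Fin (n + 1) → α)) ?_ ?_
      · rintro ⟨f, a⟩ hp
        have hp' : f ∈ S ∧ a ∈ T f := by simpa using hp
        have : Q (n + 1) (Fin.snoc f a : Fin (n + 1) → α) := by
          simpa [hT] using hp'.2
        simpa [hS'] using this
      · rintro ⟨f, a⟩ _ ⟨f', a'⟩ _ h
        have h' : (Fin.snoc f a : Fin (n + 1) → α) = Fin.snoc f' a' := h
        obtain ⟨h1, h2⟩ := Fin.snoc_injective2 h'
        subst h1; subst h2; rfl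
    rw [Finset.card_sigma] at e4
    calc t ^ (n + 1) = t ^ n * t := pow_succ _ _
      _ ≤ S.card * t := Nat.mul_le_mul_right _ ih'
      _ = ∑ f ∈ S, t := by simp
      _ ≤ ∑ f ∈ S, (T f).card := Finset.sum_le_sum e3
      _ ≤ S'.card := e4

private theorem range_snoc' {n : ℕ} (f : Fin n → α) (a : α) :
    range (Fin.snoc f a : Fin (n + 1) → α) = insert a (range f) := by
  ext b
  constructor
  · rintro ⟨p, rfl⟩
    refine Fin.lastCases ?_ (fun i => ?_) p
    · left; simp
    · right; exact ⟨i, by simp⟩
  · rintro (rfl | ⟨i, rfl⟩)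
    · exact ⟨Fin.last n, by simp⟩
    · exact ⟨i.castSucc, by simp⟩

variable {M L : Matroid α} {q : ℕ} {blk : α → Fin q} {r k D D' : ℕ}

/-- There are many regular rows avoiding a small set. -/
theorem reg_count (S : Sys M L blk r k D D') (U : Set α) (hU : 2 * (D + U.ncard) ≤ k) :
    k ^ r ≤ 2 ^ r * {x : Fin r → α | L.IsBase (range x) ∧ ∀ p, x p ∉ U}.ncard := by
  classical
  have hfin : Finite α := S.fin
  have hLr : L.eRank = r := by
    obtain ⟨W, hW⟩ := L.exists_isBase
    rw [← hW.encard_eq_eRank, (S.weak W hW).encard_eq_eRank, S.rankM]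
  set Q : ∀ j : ℕ, (Fin j → α) → Prop := fun j f =>
    L.Indep (range f) ∧ Injective f ∧ ∀ p, f p ∉ U with hQ
  set t : ℕ := (k + 1) / 2 with ht
  have key : t ^ r ≤ {f : Fin r → α | Q r f}.ncard := by
    refine count_ext Q r t ?_ ?_
    · intro f
      refine ⟨?_, fun a => a.elim0, fun a => a.elim0⟩
      rw [Set.range_eq_empty]
      exact L.empty_indep
    · rintro j hj f ⟨hI, hinj, hav⟩
      have hcard : (range f).encard = j := by
        rw [← Set.image_univ, hinj.encard_image, Set.encard_univ]
        simp
      have hne : ∃ e, e ∉ L.closure (range f) := by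
        by_contra hcon
        push Not at hcon
        have hb : L.IsBase (range f) :=
          hI.isBase_of_ground_subset_closure (fun e _ => hcon e)
        have := hb.encard_eq_eRank
        rw [hcard, hLr] at this
        have : j = r := by exact_mod_cast this
        omega
      obtain ⟨e, he⟩ := hne
      set E : Set α := blk ⁻¹' {blk e} with hE
      set A : Set α := L.closure (range f) ∩ E with hA
      have heE : e ∈ E := rfl
      have hrk : rk L A + 1 ≤ rk L E := by
        have hAcl : e ∉ L.closure A := by
          intro h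
          apply he
          have h2 : L.closure A ⊆ L.closure (L.closure (range f)) :=
            L.closure_subset_closure inter_subset_left
          rw [L.closure_closure] at h2
          exact h2 h
        have h1 : L.eRk (insert e A) = L.eRk A + 1 :=
          Matroid.eRk_insert_eq_add_one ⟨by rw [S.LE]; trivial, hAcl⟩
        have h2 : L.eRk (insert e A) ≤ L.eRk E :=
          L.eRk_mono (insert_subset heE inter_subset_right)
        rw [h1, ← coe_rk, ← coe_rk] at h2
        exact_mod_cast h2
      have hbig := S.big (blk e)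
      have hmul : k * (rk L A + 1) ≤ k * rk L E := Nat.mul_le_mul_left k hrk
      rw [Nat.mul_succ] at hmul
      have hAcard : A.ncard + k ≤ E.ncard + D := by
        rcases A.eq_empty_or_nonempty with h | h
        · rw [h, ncard_empty]
          have : k * rk L E ≤ E.ncard + D := hbig
          omega
        · have hl := S.loose (blk e) A inter_subset_right h (by
            have : rk L A < rk L E := by omega
            exact this)
          have h3 : k * rk L E ≤ E.ncard + D := hbig
          have := S.gap
          omega
      have hsub : (E \ A) \ U ⊆ {a : α | Q (j + 1) (Fin.snoc f a : Fin (j + 1) → α)} := by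
        rintro a ⟨⟨haE, haA⟩, haU⟩
        have hacl : a ∉ L.closure (range f) := fun h => haA ⟨h, haE⟩
        have haf : a ∉ range f := fun h =>
          hacl (L.mem_closure_of_mem h (by rw [S.LE]; exact subset_univ _))
        refine ⟨?_, ?_, ?_⟩
        · rw [range_snoc']
          exact (hI.insert_indep_iff_of_notMem haf).2 ⟨by rw [S.LE]; trivial, hacl⟩
        · rw [Fin.snoc_injective_iff]
          exact ⟨hinj, haf⟩
        · intro p
          refine Fin.lastCases ?_ (fun i => ?_) p
          · simpa using haU
          · simpa using hav i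
      have h4 : (E \ A).ncard + A.ncard = E.ncard :=
        Set.ncard_sdiff_add_ncard_of_subset inter_subset_right (Set.toFinite _)
      have h5 : (E \ A).ncard ≤ ((E \ A) \ U).ncard + U.ncard := by
        have := Set.le_ncard_sdiff U (E \ A) (Set.toFinite _)
        omega
      calc t ≤ ((E \ A) \ U).ncard := by omega
        _ ≤ _ := Set.ncard_le_ncard hsub (Set.toFinite _)
  have hsub : {f : Fin r → α | Q r f} ⊆ {x : Fin r → α | L.IsBase (range x) ∧ ∀ p, x p ∉ U} := by
    rintro f ⟨hI, hinj, hav⟩
    refine ⟨?_, hav⟩
    refine hI.isBase_of_eRk_ge (Set.toFinite _) ?_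
    rw [hI.eRk_eq_encard, ← Set.image_univ, hinj.encard_image, Set.encard_univ, hLr]
    simp
  calc k ^ r ≤ (2 * t) ^ r := Nat.pow_le_pow_left (by omega) r
    _ = 2 ^ r * t ^ r := mul_pow _ _ _
    _ ≤ 2 ^ r * {f : Fin r → α | Q r f}.ncard := Nat.mul_le_mul_left _ key
    _ ≤ _ := Nat.mul_le_mul_left _ (Set.ncard_le_ncard hsub (Set.toFinite _))

end Helper86.CO
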