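import Pool.Agent.Helper86.CO.Defs

/-! Block B1: a closed path of rows gives a cyclic ordering. -/

namespace Helper86.CO

open Set Function

universe u

variable {α : Type u}

private theorem extract {M : Matroid α} {r : ℕ} {ρ ρ' : Fin r → α} {X : Set α}
    (h : Path M ρ X ρ') : ∃ (n : ℕ) (R : ℕ → Fin r → α), R 0 = ρ ∧ R n = ρ' ∧
      (∀ i < n, Step M (R i) (R (i + 1))) ∧ (∀ x, x ∈ X ↔ ∃ i < n, x ∈ range (R (i + 1))) ∧
      (∀ i j, i < j → j < n → Disjoint (range (R (i + 1))) (range (R (j + 1)))) := by
  induction h with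
  | nil =>
    refine ⟨0, fun _ => ρ, rfl, rfl, ?_, ?_, ?_⟩
    · intro i hi
      exact absurd hi (Nat.not_lt_zero i)
    · intro x
      constructor
      · intro hx
        exact absurd hx (notMem_empty x)
      · rintro ⟨i, hi, -⟩
        exact absurd hi (Nat.not_lt_zero i)
    · intro i j _ hj
      exact absurd hj (Nat.not_lt_zero j)
  | @snoc X ρ' ρ'' h1 h2 h3 ih =>
    obtain ⟨n, R, h0, hn, hS, hX, hD⟩ := ih
    refine ⟨n + 1, fun i => if i ≤ n then R i else ρ'', ?_, ?_, ?_, ?_, ?_⟩
    · simpa using h0
    · simp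
    · intro i hi
      have h4 : i ≤ n := by omega
      simp only [h4, if_true]
      by_cases h5 : i + 1 ≤ n
      · simp only [h5, if_true]
        exact hS i (by omega)
      · simp only [h5, if_false]
        have h6 : i = n := by omega
        rw [h6, hn]
        exact h2
    · intro x
      rw [mem_union, hX]
      constructor
      · rintro (⟨i, hi, hx⟩ | hx)
        · refine ⟨i, by omega, ?_⟩
          have h5 : i + 1 ≤ n := hi
          simp only [h5, if_true]
          exact hx
        · refine ⟨n, by omega, ?_⟩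
          have h5 : ¬ n + 1 ≤ n := by omega
          simp only [h5, if_false]
          exact hx
      · rintro ⟨i, hi, hx⟩
        by_cases h5 : i + 1 ≤ n
        · simp only [h5, if_true] at hx
          exact Or.inl ⟨i, h5, hx⟩
        · simp only [h5, if_false] at hx
          exact Or.inr hx
    · intro i j hij hj
      have h5 : i + 1 ≤ n := by omega
      simp only [h5, if_true]
      by_cases h6 : j + 1 ≤ n
      · simp only [h6, if_true]
        exact hD i j hij (by omega)
      · simp only [h6, if_false]
        refine h3.mono_left ?_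
        intro x hx
        rw [hX]
        exact ⟨i, by omega, hx⟩

private theorem mix_full {β : Type*} {r : ℕ} (ρ ρ' : Fin r → β) : mix ρ ρ' r = ρ' := by
  funext q
  simp [mix, q.2]

/-- A closed path of rows through all elements is a cyclic ordering. -/
theorem cyclic_of_path [Finite α] {M : Matroid α} {r k : ℕ} (hr : 0 < r) (hk : 0 < k)
    (hcard : Nat.card α = k * r) (hM : M.eRank = r) {ρ : Fin r → α}
    (h : Path M ρ univ ρ) :
    ∃ σ : Fin (k * r) ≃ α, ∀ i : ℕ,
      M.IsBase {x | ∃ j < r, ∃ h : 0 < k * r, x = σ ⟨(i + j) % (k * r), Nat.mod_lt _ h⟩} := by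
  obtain ⟨n, R, h0, hn, hS, hX, hD⟩ := extract h
  have hbase : ∀ i < n, M.IsBase (range (R (i + 1))) := by
    intro i hi
    have h1 := hS i hi r le_rfl
    rwa [mix_full] at h1
  have hinj : ∀ i < n, Injective (R (i + 1)) := by
    intro i hi
    have h1 : (range (R (i + 1))).encard = r := by
      rw [(hbase i hi).encard_eq_eRank, hM]
    have h2 : (R (i + 1) '' univ).ncard = (univ : Set (Fin r)).ncard := by
      rw [image_univ, ncard_def, h1, ncard_univ]
      simp
    exact injOn_univ.1 (injOn_of_ncard_image_eq h2)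
  -- the bijection
  let s : Fin n × Fin r → α := fun a => R (a.1 + 1) a.2
  have hs : Bijective s := by
    constructor
    · rintro ⟨i, q⟩ ⟨j, q'⟩ hij
      change R (i + 1) q = R (j + 1) q' at hij
      rcases lt_trichotomy (i : ℕ) (j : ℕ) with h1 | h1 | h1
      · exact absurd hij ((hD i j h1 j.2).ne_of_mem (mem_range_self q) (mem_range_self q'))
      · have h2 : i = j := Fin.ext h1
        subst h2
        rw [hinj i i.2 hij]
      · exact absurd hij.symm ((hD j i h1 i.2).ne_of_mem (mem_range_self q') (mem_range_self q))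
    · intro x
      obtain ⟨i, hi, q, hq⟩ := (hX x).1 (mem_univ x)
      exact ⟨(⟨i, hi⟩, q), hq⟩
  have hnk : n = k := by
    have h1 := Nat.card_congr (Equiv.ofBijective s hs)
    rw [hcard, Nat.card_prod, Nat.card_fin, Nat.card_fin] at h1
    exact Nat.eq_of_mul_eq_mul_right hr h1
  subst hnk
  let T : ℕ → α := fun m => R (m / r + 1) ⟨m % r, Nat.mod_lt _ hr⟩
  refine ⟨finProdFinEquiv.symm.trans (Equiv.ofBijective s hs), ?_⟩
  have hσ : ∀ (m : ℕ) (hm : m < n * r),
      (finProdFinEquiv.symm.trans (Equiv.ofBijective s hs)) ⟨m, hm⟩ = T m := by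
    intro m hm
    rfl
  intro i
  have hpos : 0 < n * r := Nat.mul_pos hk hr
  set m := i % (n * r) with hm
  have hmlt : m < n * r := Nat.mod_lt _ hpos
  set a := m / r with ha
  set p := m % r with hp
  have hap : m = a * r + p := by
    rw [ha, hp, mul_comm]
    exact (Nat.div_add_mod m r).symm
  have hpr : p < r := Nat.mod_lt _ hr
  have hak : a < n := by
    rw [ha]
    exact Nat.div_lt_of_lt_mul (by rwa [mul_comm] at hmlt)
  let nx : Fin r → α := if a + 1 < n then R (a + 2) else R 1
  have hstep : Step M (R (a + 1)) nx := by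
    by_cases h1 : a + 1 < n
    · have h2 : nx = R (a + 2) := if_pos h1
      rw [h2]
      exact hS (a + 1) h1
    · have h2 : nx = R 1 := if_neg h1
      have h3 : a + 1 = n := by omega
      rw [h2, h3, hn, ← h0]
      exact hS 0 hk
  have hTlow : ∀ c (hc : c < r), T (a * r + c) = R (a + 1) ⟨c, hc⟩ := by
    intro c hc
    have h1 : (a * r + c) / r = a := by
      rw [mul_comm, Nat.mul_add_div hr, Nat.div_eq_of_lt hc, add_zero]
    have h2 : (a * r + c) % r = c := by
      rw [mul_comm, Nat.mul_add_mod, Nat.mod_eq_of_lt hc]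
    simp only [T, h1, h2]
  have hThigh : ∀ c (hc : c < r), T (((a + 1) * r + c) % (n * r)) = nx ⟨c, hc⟩ := by
    intro c hc
    by_cases h1 : a + 1 < n
    · have h2 : nx = R (a + 2) := if_pos h1
      have h3 : (a + 1) * r + c < n * r := by
        have : (a + 2) * r ≤ n * r := Nat.mul_le_mul_right r h1
        have h4 : (a + 2) * r = (a + 1) * r + r := by ring
        omega
      have h5 : ((a + 1) * r + c) / r = a + 1 := by
        rw [mul_comm, Nat.mul_add_div hr, Nat.div_eq_of_lt hc, add_zero]
      have h6 : ((a + 1) * r + c) % r = c := by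
        rw [mul_comm, Nat.mul_add_mod, Nat.mod_eq_of_lt hc]
      rw [Nat.mod_eq_of_lt h3, h2]
      simp only [T, h5, h6]
    · have h2 : nx = R 1 := if_neg h1
      have h3 : a + 1 = n := by omega
      have h4 : (n * r + c) % (n * r) = c := by
        rw [Nat.add_mod_left]
        refine Nat.mod_eq_of_lt (lt_of_lt_of_le hc ?_)
        exact Nat.le_mul_of_pos_left r hk
      rw [h3, h4, h2]
      have h5 : c / r = 0 := Nat.div_eq_of_lt hc
      have h6 : c % r = c := Nat.mod_eq_of_lt hc
      simp only [T, h5, h6, zero_add]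
  have hmod : ∀ j, (i + j) % (n * r) = (a * r + p + j) % (n * r) := by
    intro j
    rw [← hap, hm, Nat.mod_add_mod]
  have hlow : ∀ c, c < r → (a * r + c) % (n * r) = a * r + c := by
    intro c hc
    refine Nat.mod_eq_of_lt ?_
    have h1 : (a + 1) * r ≤ n * r := Nat.mul_le_mul_right r hak
    have h4 : (a + 1) * r = a * r + r := by ring
    omega
  have hset : {x | ∃ j < r, ∃ h : 0 < n * r,
      x = (finProdFinEquiv.symm.trans (Equiv.ofBijective s hs)) ⟨(i + j) % (n * r),
        Nat.mod_lt _ h⟩} = range (mix (R (a + 1)) nx p) := by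
    ext x
    simp only [mem_ofPred_eq, mem_range]
    constructor
    · rintro ⟨j, hj, _, rfl⟩
      rw [hσ, hmod]
      by_cases h1 : p + j < r
      · refine ⟨⟨p + j, h1⟩, ?_⟩
        rw [add_assoc, hlow _ h1, hTlow _ h1]
        unfold mix
        rw [if_neg]
        simp
      · have h2 : p + j - r < r := by omega
        refine ⟨⟨p + j - r, h2⟩, ?_⟩
        have h3 : a * r + p + j = (a + 1) * r + (p + j - r) := by
          have : (a + 1) * r = a * r + r := by ring
          omega
        rw [h3, hThigh _ h2]
        unfold mix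
        rw [if_pos]
        show p + j - r < p
        omega
    · rintro ⟨q, rfl⟩
      by_cases h1 : (q : ℕ) < p
      · refine ⟨q + r - p, by omega, hpos, ?_⟩
        rw [hσ, hmod]
        have h3 : a * r + p + (q + r - p) = (a + 1) * r + q := by
          have : (a + 1) * r = a * r + r := by ring
          omega
        rw [h3, hThigh _ q.2]
        unfold mix
        rw [if_pos h1]
      · refine ⟨q - p, by omega, hpos, ?_⟩
        rw [hσ, hmod]
        have h3 : a * r + p + (q - p) = a * r + q := by omega
        rw [h3, hlow _ q.2, hTlow _ q.2]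
        unfold mix
        rw [if_neg h1]
  rw [hset]
  exact hstep p hpr.le

end Helper86.CO
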