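import Mathlib

/-!
# MP_f2948c_co, large k: definitions shared by all blocks

Cyclic orderings of matroids of rank `r` which are disjoint unions of `k ≥ K(r)` bases.
-/

namespace Helper86.CO

open Set Function

universe u

variable {α : Type u}

/-- `mix ρ ρ' p`: the first `p` entries of `ρ'`, then the remaining entries of `ρ`. -/
def mix {β : Type*} {r : ℕ} (ρ ρ' : Fin r → β) (p : ℕ) : Fin r → β :=
  fun q => if (q : ℕ) < p then ρ' q else ρ q

/-- Writing `ρ'` after `ρ`, every window of length `r` is a base of `M`. -/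
def Step (M : Matroid α) {r : ℕ} (ρ ρ' : Fin r → α) : Prop :=
  ∀ p ≤ r, M.IsBase (range (mix ρ ρ' p))

/-- `Path M ρ X ρ'`: there is a sequence of rows `ρ = ρ₀, ρ₁, ..., ρₙ = ρ'` with `Step M ρᵢ ρᵢ₊₁`,
such that the rows `ρ₁, ..., ρₙ` are pairwise disjoint and `X` is their union. -/
inductive Path (M : Matroid α) {r : ℕ} (ρ : Fin r → α) : Set α → (Fin r → α) → Prop
  | nil : Path M ρ ∅ ρ
  | snoc {X : Set α} {ρ' ρ'' : Fin r → α} :
      Path M ρ X ρ' → Step M ρ' ρ'' → Disjoint X (range ρ'') → Path M ρ (X ∪ range ρ'') ρ''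

/-- The rank as a natural number. -/
noncomputable def rk (L : Matroid α) (X : Set α) : ℕ := (L.eRk X).toNat

/-- `X` is the union of `n` pairwise disjoint bases of `L`. -/
def BU (L : Matroid α) (n : ℕ) (X : Set α) : Prop :=
  ∃ B : Fin n → Set α, (∀ j, L.IsBase (B j)) ∧ Pairwise (Disjoint on B) ∧ ⋃ j, B j = X

/-- `X` meets every block in `n` times the rank of the block. -/
def Bal (L : Matroid α) {q : ℕ} (blk : α → Fin q) (n : ℕ) (X : Set α) : Prop :=
  ∀ i, (X ∩ blk ⁻¹' {i}).ncard = n * rk L (blk ⁻¹' {i})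

/-- `M` is a matroid of rank `r` on a set `α` of size `k * r`; `L` is a matroid all of whose bases
are bases of `M`, and `L` is the direct sum of its restrictions to the blocks `blk ⁻¹' {i}`.
`D` is a bound for the defects and `D'` is the gap. -/
structure Sys (M L : Matroid α) {q : ℕ} (blk : α → Fin q) (r k D D' : ℕ) : Prop where
  fin : Finite α
  ME : M.E = univ
  LE : L.E = univ
  rankM : M.eRank = r
  weak : ∀ W, L.IsBase W → M.IsBase W
  sum : ∀ I, (∀ i, L.Indep (I ∩ blk ⁻¹' {i})) → L.Indep I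
  card : Nat.card α = k * r
  gap : D ≤ D'
  big : ∀ i, k * rk L (blk ⁻¹' {i}) ≤ (blk ⁻¹' {i}).ncard + D
  loose : ∀ i A, A ⊆ blk ⁻¹' {i} → A.Nonempty → rk L A < rk L (blk ⁻¹' {i}) →
    A.ncard + D' ≤ k * rk L A + D

/-- Number of occurrences of a letter in a row of letters. -/
noncomputable def cnt {Λ : Type*} {r : ℕ} (μ : Fin r → Λ) (l : Λ) : ℕ :=
  {q | μ q = l}.ncard

/-- Paths of rows of letters: all windows lie in `G`; the function `κ` counts how often every letter
is used in the rows after the first one. -/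
inductive LPath {Λ : Type*} {r : ℕ} (G : Set (Fin r → Λ)) (μ : Fin r → Λ) :
    (Λ → ℕ) → (Fin r → Λ) → Prop
  | nil : LPath G μ 0 μ
  | snoc {κ : Λ → ℕ} {μ' μ'' : Fin r → Λ} :
      LPath G μ κ μ' → (∀ p ≤ r, mix μ' μ'' p ∈ G) → LPath G μ (κ + cnt μ'') μ''

/-- The product of the first `n` optional swaps: the `j`-th swap is made iff `c j`. -/
def netprod {r : ℕ} (e : ℕ → Fin r × Fin r) (c : ℕ → Bool) : ℕ → Equiv.Perm (Fin r)
  | 0 => 1
  | n + 1 => (if c n then Equiv.swap (e n).1 (e n).2 else 1) * netprod e c n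

/-- At least `t` elements `c` can replace both `x p` and `x p'` in the `L`-base `x`. -/
def Linked (L : Matroid α) {r : ℕ} (x : Fin r → α) (t : ℕ) (p p' : Fin r) : Prop :=
  p ≠ p' ∧ t ≤ {c | L.IsBase (range (update x p c)) ∧ L.IsBase (range (update x p' c))}.ncard

end Helper86.CO
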