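import Pool.Agent.Helper86.CO.Basic

/-! Block B14: Edmonds' matroid partition theorem (for copies of one matroid). -/

namespace Helper86.CO

open Set Function

universe u

variable {α : Type u}

/-- the states of the exchange procedure -/
inductive EReach (N : Matroid α) {m : ℕ} (J₀ : Fin m → Set α) (e₀ : α) :
    (Fin m → Set α) → α → Prop
  | start : EReach N J₀ e₀ J₀ e₀
  | step {J : Fin m → Set α} {e : α} (j : Fin m) (f : α) : EReach N J₀ e₀ J e → f ∈ J j →
      N.Indep (insert e (J j \ {f})) →
      EReach N J₀ e₀ (update J j (insert e (J j \ {f}))) f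

/-- families of disjoint independent subsets of `R` -/
def EVal (N : Matroid α) {m : ℕ} (R : Set α) (J : Fin m → Set α) : Prop :=
  (∀ i, N.Indep (J i)) ∧ Pairwise (Disjoint on J) ∧ ∀ i, J i ⊆ R

lemma EReach.inv {N : Matroid α} {m : ℕ} {R : Set α} {J₀ J : Fin m → Set α} {e₀ e : α}
    (h : EReach N J₀ e₀ J e) (h₀ : EVal N R J₀) (he₀ : e₀ ∈ R) (hn : e₀ ∉ ⋃ i, J₀ i) :
    EVal N R J ∧ e ∈ R ∧ e ∉ ⋃ i, J i ∧ insert e (⋃ i, J i) = insert e₀ (⋃ i, J₀ i) := by
  induction h with
  | start => exact ⟨h₀, he₀, hn, rfl⟩
  | @step J e j f hr hf hi ih =>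
    obtain ⟨⟨v1, v2, v3⟩, heR, hen, heq⟩ := ih
    have hfR : f ∈ R := v3 j hf
    have hef : e ≠ f := by
      rintro rfl
      exact hen (mem_iUnion.2 ⟨j, hf⟩)
    have hej : ∀ i, e ∉ J i := fun i h => hen (mem_iUnion.2 ⟨i, h⟩)
    have hfi : ∀ i, i ≠ j → f ∉ J i := fun i hij h =>
      disjoint_left.1 (v2 hij) h hf
    refine ⟨⟨?_, ?_, ?_⟩, hfR, ?_, ?_⟩
    · intro i
      rcases eq_or_ne i j with rfl | hij
      · rwa [update_self]
      · rw [update_of_ne hij]
        exact v1 i
    · have key : ∀ i, i ≠ j → Disjoint (insert e (J j \ {f})) (J i) := by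
        intro i hij
        rw [disjoint_insert_left]
        exact ⟨hej i, (v2 hij.symm).mono_left sdiff_subset⟩
      intro i i' hii'
      change Disjoint (update J j _ i) (update J j _ i')
      rcases eq_or_ne i j with rfl | hij
      · rw [update_self, update_of_ne hii'.symm]
        exact key i' hii'.symm
      · rcases eq_or_ne i' j with rfl | hi'j
        · rw [update_self, update_of_ne hij]
          exact (key i hij).symm
        · rw [update_of_ne hij, update_of_ne hi'j]
          exact v2 hii'
    · intro i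
      rcases eq_or_ne i j with rfl | hij
      · rw [update_self]
        exact insert_subset heR (sdiff_subset.trans (v3 i))
      · rw [update_of_ne hij]
        exact v3 i
    · intro h
      obtain ⟨i, hi'⟩ := mem_iUnion.1 h
      rcases eq_or_ne i j with rfl | hij
      · rw [update_self] at hi'
        rcases hi' with h1 | h1
        · exact hef h1.symm
        · exact h1.2 rfl
      · rw [update_of_ne hij] at hi'
        exact hfi i hij hi'
    · rw [← heq]
      ext x
      simp only [mem_insert_iff, mem_iUnion]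
      constructor
      · rintro (rfl | ⟨i, hx⟩)
        · exact Or.inr ⟨j, hf⟩
        · rcases eq_or_ne i j with rfl | hij
          · rw [update_self] at hx
            rcases hx with h1 | h1
            · exact Or.inl h1
            · exact Or.inr ⟨i, h1.1⟩
          · rw [update_of_ne hij] at hx
            exact Or.inr ⟨i, hx⟩
      · rintro (rfl | ⟨i, hx⟩)
        · refine Or.inr ⟨j, ?_⟩
          rw [update_self]
          exact mem_insert _ _
        · rcases eq_or_ne x f with rfl | hxf
          · exact Or.inl rfl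
          · right
            rcases eq_or_ne i j with rfl | hij
            · refine ⟨i, ?_⟩
              rw [update_self]
              exact Or.inr ⟨hx, hxf⟩
            · refine ⟨i, ?_⟩
              rwa [update_of_ne hij]

/-- Edmonds' matroid partition theorem. -/
theorem edmonds [Finite α] {N : Matroid α} (m : ℕ) {R : Set α} (hR : R ⊆ N.E)
    (h : ∀ A ⊆ R, A.ncard ≤ m * rk N A) :
    ∃ I : Fin m → Set α, (∀ i, N.Indep (I i)) ∧ Pairwise (Disjoint on I) ∧ ⋃ i, I i = R := by
  classical
  -- a valid family of maximal total size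
  have hne : Nonempty {J : Fin m → Set α // EVal N R J} :=
    ⟨⟨fun _ => ∅, fun _ => N.empty_indep, fun _ _ _ => disjoint_bot_left, fun _ => empty_subset _⟩⟩
  obtain ⟨⟨J₀, h₀⟩, hmax⟩ := Finite.exists_max
    (fun J : {J : Fin m → Set α // EVal N R J} => (⋃ i, J.1 i).ncard)
  have hmax' : ∀ J : Fin m → Set α, EVal N R J → (⋃ i, J i).ncard ≤ (⋃ i, J₀ i).ncard :=
    fun J hJ => hmax ⟨J, hJ⟩
  refine ⟨J₀, h₀.1, h₀.2.1, (iUnion_subset h₀.2.2).antisymm ?_⟩
  by_contra hsub
  obtain ⟨e₀, he₀, hn⟩ := not_subset.1 hsub
  set T : Set α := {e | ∃ J, EReach N J₀ e₀ J e} with hT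
  -- all uncovered elements are spanned
  have span : ∀ {J : Fin m → Set α} {e : α}, EReach N J₀ e₀ J e → ∀ j,
      e ∈ N.closure (J j) ∧ e ∉ J j ∧ N.Indep (J j) := by
    intro J e hr j
    obtain ⟨hv, heR, hen, heq⟩ := hr.inv h₀ he₀ hn
    have hej : e ∉ J j := fun h => hen (mem_iUnion.2 ⟨j, h⟩)
    refine ⟨?_, hej, hv.1 j⟩
    by_contra hcl
    have hind : N.Indep (insert e (J j)) := by
      rw [(hv.1 j).insert_indep_iff_of_notMem hej]
      exact ⟨hR heR, hcl⟩
    have hv' : EVal N R (update J j (insert e (J j))) := by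
      refine ⟨?_, ?_, ?_⟩
      · intro i
        rcases eq_or_ne i j with rfl | hij
        · rwa [update_self]
        · rw [update_of_ne hij]
          exact hv.1 i
      · have key : ∀ i, i ≠ j → Disjoint (insert e (J j)) (J i) := by
          intro i hij
          rw [disjoint_insert_left]
          exact ⟨fun h => hen (mem_iUnion.2 ⟨i, h⟩), hv.2.1 hij.symm⟩
        intro i i' hii'
        change Disjoint (update J j _ i) (update J j _ i')
        rcases eq_or_ne i j with rfl | hij
        · rw [update_self, update_of_ne hii'.symm]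
          exact key i' hii'.symm
        · rcases eq_or_ne i' j with rfl | hi'j
          · rw [update_self, update_of_ne hij]
            exact (key i hij).symm
          · rw [update_of_ne hij, update_of_ne hi'j]
            exact hv.2.1 hii'
      · intro i
        rcases eq_or_ne i j with rfl | hij
        · rw [update_self]
          exact insert_subset heR (hv.2.2 i)
        · rw [update_of_ne hij]
          exact hv.2.2 i
    have hU : ⋃ i, update J j (insert e (J j)) i = insert e (⋃ i, J i) := by
      ext x
      simp only [mem_insert_iff, mem_iUnion]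
      constructor
      · rintro ⟨i, hx⟩
        rcases eq_or_ne i j with rfl | hij
        · rw [update_self] at hx
          rcases hx with h1 | h1
          · exact Or.inl h1
          · exact Or.inr ⟨i, h1⟩
        · rw [update_of_ne hij] at hx
          exact Or.inr ⟨i, hx⟩
      · rintro (rfl | ⟨i, hx⟩)
        · refine ⟨j, ?_⟩
          rw [update_self]
          exact mem_insert _ _
        · refine ⟨i, ?_⟩
          rcases eq_or_ne i j with rfl | hij
          · rw [update_self]
            exact Or.inr hx
          · rwa [update_of_ne hij]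
    have h1 := hmax' _ hv'
    rw [hU, heq, ncard_insert_of_notMem hn (toFinite _)] at h1
    omega
  -- they are spanned by the part of `J j` inside `T`
  have spanT : ∀ {J : Fin m → Set α} {e : α}, EReach N J₀ e₀ J e → ∀ j,
      e ∈ N.closure (J j ∩ T) := by
    intro J e hr j
    obtain ⟨hcl, hej, hind⟩ := span hr j
    have hC := hind.fundCircuit_isCircuit hcl hej
    have h1 := hC.mem_closure_sdiff_singleton_of_mem (N.mem_fundCircuit e (J j))
    refine N.closure_subset_closure ?_ h1
    rw [N.fundCircuit_sdiff_eq_inter hej]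
    rintro x ⟨hx1, hx2⟩
    refine ⟨hx2, ?_⟩
    have hxe : e ≠ x := by
      rintro rfl
      exact hej hx2
    have h2 := (hind.mem_fundCircuit_iff hcl hej).1 hx1
    rw [← insert_sdiff_singleton_comm hxe] at h2
    exact ⟨_, hr.step j x hx2 h2⟩
  -- the closures do not change
  have clos : ∀ {J : Fin m → Set α} {e : α}, EReach N J₀ e₀ J e → ∀ j,
      N.closure (J j ∩ T) = N.closure (J₀ j ∩ T) := by
    intro J e hr
    induction hr with
    | start => intro j; rfl
    | @step J e j f hr hf hi ih =>
      intro i
      rw [← ih i]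
      rcases eq_or_ne i j with rfl | hij
      · have hst := EReach.step i f hr hf hi
        have heT : e ∈ T := ⟨J, hr⟩
        have h1 := spanT hr i
        have h2 := spanT hst i
        rw [update_self] at h2 ⊢
        have hgr : ∀ x ∈ J i, x ∈ N.E := fun x hx =>
          hR ((hr.inv h₀ he₀ hn).1.2.2 i hx)
        apply subset_antisymm
        · refine N.closure_subset_closure_of_subset_closure ?_
          rintro x ⟨rfl | hx, hxT⟩
          · exact h1
          · exact N.mem_closure_of_mem' ⟨hx.1, hxT⟩ (hgr x hx.1)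
        · refine N.closure_subset_closure_of_subset_closure ?_
          rintro x ⟨hx, hxT⟩
          rcases eq_or_ne x f with rfl | hxf
          · exact h2
          · exact N.mem_closure_of_mem' ⟨Or.inr ⟨hx, hxf⟩, hxT⟩ (hgr x hx)
      · rw [update_of_ne hij]
  have hTR : T ⊆ R := by
    rintro e ⟨J, hr⟩
    exact (hr.inv h₀ he₀ hn).2.1
  have hrk : ∀ j, (J₀ j ∩ T).ncard = rk N T := by
    intro j
    have hT1 : T ⊆ N.closure (J₀ j ∩ T) := by
      rintro e ⟨J, hr⟩
      rw [← clos hr j]
      exact spanT hr j
    have hb : N.IsBasis (J₀ j ∩ T) T :=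
      ((h₀.1 j).subset inter_subset_left).isBasis_of_subset_of_subset_closure inter_subset_right hT1
    unfold rk
    rw [← hb.encard_eq_eRk]
    rfl
  have hU : (insert e₀ (⋃ j, J₀ j ∩ T)).ncard ≤ T.ncard := by
    refine ncard_le_ncard (insert_subset ⟨J₀, EReach.start⟩ (iUnion_subset fun j =>
      inter_subset_right)) (toFinite _)
  have hn' : e₀ ∉ ⋃ j, J₀ j ∩ T := by
    intro h1
    obtain ⟨j, hj⟩ := mem_iUnion.1 h1
    exact hn (mem_iUnion.2 ⟨j, hj.1⟩)
  rw [ncard_insert_of_notMem hn' (toFinite _), ncard_iUnion_of_finite (fun j => toFinite _)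
    (fun i j hij => (h₀.2.1 hij).mono inter_subset_left inter_subset_left),
    finsum_eq_sum_of_fintype] at hU
  simp only [hrk, Finset.sum_const, Finset.card_univ, Fintype.card_fin, smul_eq_mul] at hU
  have := h T hTR
  omega

variable {M L : Matroid α} {q : ℕ} {blk : α → Fin q} {r k D D' : ℕ}

lemma rk_mono' [Finite α] (L : Matroid α) {A B : Set α} (h : A ⊆ B) : rk L A ≤ rk L B := by
  have := L.eRk_mono h
  rw [← coe_rk, ← coe_rk] at this
  exact_mod_cast this

/-- Everything that is left over is a disjoint union of regular bases. -/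
theorem rest (S : Sys M L blk r k D D') {n : ℕ} (hn : n ≤ k) {R : Set α} (hR : Bal L blk n R)
    (hnum : r * (k - n) + D ≤ D') : BU L n R := by
  classical
  have := S.fin
  have hcard : ∀ A : Set α, A.ncard = ∑ i, (A ∩ blk ⁻¹' {i}).ncard := by
    intro A
    rw [← finsum_eq_sum_of_fintype, ← ncard_iUnion_of_finite (fun i => toFinite _)]
    · congr 1
      ext x
      simp
    · intro i j hij
      refine disjoint_left.2 fun x hx hx' => hij ?_
      rw [← hx.2, ← hx'.2]
  obtain ⟨W, hW⟩ := L.exists_isBase
  have hWr : W.ncard = r := S.base_ncard (S.weak W hW)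
  have huniv : rk L univ = r := by
    have h1 : L.eRk univ = W.encard := by
      rw [← S.LE, L.eRk_ground, hW.encard_eq_eRank]
    unfold rk
    rw [h1]
    exact hWr
  have hle : ∀ A, rk L A ≤ r := fun A => by
    rw [← huniv]
    exact rk_mono' L (subset_univ A)
  have hA : ∀ A ⊆ R, A.ncard ≤ n * rk L A := by
    intro A hAR
    rw [hcard A, ← S.rk_add A, Finset.mul_sum]
    refine Finset.sum_le_sum fun i _ => ?_
    rcases (A ∩ blk ⁻¹' {i}).eq_empty_or_nonempty with h0 | h0
    · rw [h0]
      simp
    · rcases (rk_mono' L (inter_subset_right : A ∩ blk ⁻¹' {i} ⊆ _)).eq_or_lt with h1 | h1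
      · rw [h1, ← hR i]
        exact ncard_le_ncard (inter_subset_inter_left _ hAR) (toFinite _)
      · have h2 := S.loose i _ inter_subset_right h0 h1
        have h3 := hle (A ∩ blk ⁻¹' {i})
        set ρ := rk L (A ∩ blk ⁻¹' {i})
        obtain ⟨c, rfl⟩ := Nat.exists_eq_add_of_le hn
        rw [Nat.add_sub_cancel_left] at hnum
        have h4 : c * ρ ≤ r * c := by
          rw [mul_comm r c]
          exact Nat.mul_le_mul_left c h3
        rw [add_mul] at h2
        omega
  obtain ⟨I, hI1, hI2, hI3⟩ := edmonds n (N := L) (R := R) (by rw [S.LE]; exact subset_univ _) hA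
  have hRn : R.ncard = n * r := by
    have h1 : ∑ i, rk L (blk ⁻¹' {i}) = r := by
      have := S.rk_add univ
      simpa only [univ_inter, huniv] using this
    rw [hcard R, Finset.sum_congr rfl fun i _ => hR i, ← Finset.mul_sum, h1]
  have hIle : ∀ j, (I j).ncard ≤ r := by
    intro j
    obtain ⟨W', hW', hsub⟩ := (hI1 j).exists_isBase_superset
    rw [← S.base_ncard (S.weak W' hW')]
    exact ncard_le_ncard hsub (toFinite _)
  have hsum : ∑ j, (I j).ncard = ∑ j : Fin n, r := by
    rw [← finsum_eq_sum_of_fintype, ← ncard_iUnion_of_finite (fun i => toFinite _) hI2, hI3, hRn]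
    simp
  have hIeq : ∀ j, (I j).ncard = r := fun j =>
    (Finset.sum_eq_sum_iff_of_le fun j _ => hIle j).1 hsum j (Finset.mem_univ j)
  refine ⟨I, fun j => ?_, hI2, hI3⟩
  obtain ⟨W', hW', hsub⟩ := (hI1 j).exists_isBase_superset
  have : I j = W' := eq_of_subset_of_ncard_le hsub (by
    rw [hIeq j, S.base_ncard (S.weak W' hW')]) (toFinite _)
  rwa [this]

end Helper86.CO
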