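import Pool.Agent.Helper86.CO.Defs

/-! Block B6/B7: the letter paths of the gadget for an irregular base and of the swap network. -/

namespace Helper86.CO

open Set Function

/-- Rows of the gadget for an irregular base: letters `inl p` (clones) and `inr p` (the elements of
the irregular base). -/
def Girr (r : ℕ) : Set (Fin r → Fin r ⊕ Fin r) :=
  {μ | (∃ π : Equiv.Perm (Fin r), μ = Sum.inl ∘ π) ∨
    ∃ (π : Equiv.Perm (Fin r)) (p : Fin r), μ = update (Sum.inl ∘ π) (π.symm p) (Sum.inr p)}

theorem cnt_perm47 {r n : ℕ} (σ : Equiv.Perm (Fin r)) :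
    cnt (Sum.inl ∘ σ : Fin r → Fin r ⊕ Fin n) = Sum.elim (fun _ => 1) (fun _ => 0) := by
  funext l
  unfold cnt
  rcases l with p | j
  · have : {q : Fin r | (Sum.inl ∘ σ : Fin r → Fin r ⊕ Fin n) q = Sum.inl p} = {σ.symm p} := by
      ext q
      simp only [mem_setOf_eq, comp_apply, Sum.inl.injEq, mem_singleton_iff]
      exact ⟨fun h => by rw [← h, Equiv.symm_apply_apply], fun h => by
        rw [h, Equiv.apply_symm_apply]⟩
    rw [this, ncard_singleton]; rfl
  · have : {q : Fin r | (Sum.inl ∘ σ : Fin r → Fin r ⊕ Fin n) q = Sum.inr j} = ∅ := by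
      ext q
      simp
    rw [this, ncard_empty]; rfl

theorem cnt_upd47 {r n : ℕ} (σ : Equiv.Perm (Fin r)) (f w : Fin r) (hf : σ f = w) (j0 : Fin n) :
    cnt (update (Sum.inl ∘ σ : Fin r → Fin r ⊕ Fin n) f (Sum.inr j0)) =
      Sum.elim (fun p => if p = w then 0 else 1) (fun j => if j = j0 then 1 else 0) := by
  funext l
  unfold cnt
  rcases l with p | j
  · by_cases hp : p = w
    · have : {q : Fin r | update (Sum.inl ∘ σ : Fin r → Fin r ⊕ Fin n) f (Sum.inr j0) q =
          Sum.inl p} = ∅ := by
        ext q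
        simp only [mem_setOf_eq, mem_empty_iff_false, iff_false]
        by_cases hq : q = f
        · rw [hq, update_self]; simp
        · rw [update_of_ne hq, comp_apply, Sum.inl.injEq, hp, ← hf]
          exact fun h => hq (σ.injective h)
      rw [this, ncard_empty, Sum.elim_inl, if_pos hp]
    · have : {q : Fin r | update (Sum.inl ∘ σ : Fin r → Fin r ⊕ Fin n) f (Sum.inr j0) q =
          Sum.inl p} = {σ.symm p} := by
        ext q
        simp only [mem_setOf_eq, mem_singleton_iff]
        by_cases hq : q = f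
        · rw [hq, update_self]
          constructor
          · intro h; simp at h
          · intro h
            exfalso
            apply hp
            rw [← hf, h, Equiv.apply_symm_apply]
        · rw [update_of_ne hq, comp_apply, Sum.inl.injEq]
          exact ⟨fun h => by rw [← h, Equiv.symm_apply_apply], fun h => by
            rw [h, Equiv.apply_symm_apply]⟩
      rw [this, ncard_singleton, Sum.elim_inl, if_neg hp]
  · by_cases hj : j = j0
    · have : {q : Fin r | update (Sum.inl ∘ σ : Fin r → Fin r ⊕ Fin n) f (Sum.inr j0) q =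
          Sum.inr j} = {f} := by
        ext q
        simp only [mem_setOf_eq, mem_singleton_iff]
        by_cases hq : q = f
        · rw [hq, update_self, hj]; simp
        · rw [update_of_ne hq, comp_apply]
          simp [hq]
      rw [this, ncard_singleton, Sum.elim_inr, if_pos hj]
    · have : {q : Fin r | update (Sum.inl ∘ σ : Fin r → Fin r ⊕ Fin n) f (Sum.inr j0) q =
          Sum.inr j} = ∅ := by
        ext q
        simp only [mem_setOf_eq, mem_empty_iff_false, iff_false]
        by_cases hq : q = f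
        · rw [hq, update_self, Sum.inr.injEq]
          exact fun h => hj h.symm
        · rw [update_of_ne hq, comp_apply]; simp
      rw [this, ncard_empty, Sum.elim_inr, if_neg hj]

/-- mixes of two rows which differ in one position only -/
theorem mix_mem47 {β : Type*} {r : ℕ} {G : Set (Fin r → β)} {X Y : Fin r → β} (f : Fin r)
    (h : ∀ q, q ≠ f → X q = Y q) (hX : X ∈ G) (hY : Y ∈ G) (p : ℕ) : mix X Y p ∈ G := by
  by_cases hp : (f : ℕ) < p
  · have : mix X Y p = Y := by
      funext q
      unfold mix
      by_cases hq : q = f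
      · rw [hq, if_pos hp]
      · rw [h q hq, ite_self]
    rw [this]; exact hY
  · have : mix X Y p = X := by
      funext q
      unfold mix
      by_cases hq : q = f
      · rw [hq, if_neg hp]
      · rw [← h q hq, ite_self]
    rw [this]; exact hX

/-- mixes of two rows which differ in two positions only -/
theorem mix_mem2_47 {β : Type*} {r : ℕ} {G : Set (Fin r → β)} {X Y : Fin r → β} (f s : Fin r)
    (hfs : f < s) (h : ∀ q, q ≠ f → q ≠ s → X q = Y q) (hX : X ∈ G) (hY : Y ∈ G)
    (hm : update X f (Y f) ∈ G) (p : ℕ) : mix X Y p ∈ G := by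
  have hfs' : (f : ℕ) < s := hfs
  by_cases hp : (f : ℕ) < p
  · by_cases hp2 : (s : ℕ) < p
    · have : mix X Y p = Y := by
        funext q
        unfold mix
        by_cases hq : q = f
        · rw [hq, if_pos hp]
        · by_cases hq2 : q = s
          · rw [hq2, if_pos hp2]
          · rw [h q hq hq2, ite_self]
      rw [this]; exact hY
    · have : mix X Y p = update X f (Y f) := by
        funext q
        unfold mix
        by_cases hq : q = f
        · rw [hq, if_pos hp, update_self]
        · rw [update_of_ne hq]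
          by_cases hq2 : q = s
          · rw [hq2, if_neg hp2]
          · rw [h q hq hq2, ite_self]
      rw [this]; exact hm
  · have : mix X Y p = X := by
      funext q
      unfold mix
      by_cases hq : q = f
      · rw [hq, if_neg hp]
      · by_cases hq2 : q = s
        · rw [hq2, if_neg (by omega)]
        · rw [← h q hq hq2, ite_self]
    rw [this]; exact hX

theorem irr_lpath (r : ℕ) (π : Equiv.Perm (Fin r)) :
    LPath (Girr r) (Sum.inl ∘ π) (Sum.elim (fun _ => 2 * r - 1) (fun _ => 1)) (Sum.inl ∘ π) := by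
  have key : ∀ m, m ≤ r → LPath (Girr r) (Sum.inl ∘ π)
      (Sum.elim (fun p : Fin r => 2 * m - (if (p : ℕ) < m then 1 else 0))
        (fun p : Fin r => if (p : ℕ) < m then 1 else 0)) (Sum.inl ∘ π) := by
    intro m
    induction m with
    | zero =>
      intro _
      have : (Sum.elim (fun p : Fin r => 2 * 0 - (if (p : ℕ) < 0 then 1 else 0))
        (fun p : Fin r => if (p : ℕ) < 0 then 1 else 0)) = (0 : Fin r ⊕ Fin r → ℕ) := by
        funext l
        rcases l with p | p <;> simp
      rw [this]
      exact LPath.nil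
    | succ m ih =>
      intro hm
      have h0 := ih (by omega)
      set s : Fin r := ⟨m, by omega⟩ with hs
      set f := π.symm s with hf
      have hπf : π f = s := by rw [hf, Equiv.apply_symm_apply]
      have hρ : (Sum.inl ∘ π : Fin r → Fin r ⊕ Fin r) ∈ Girr r := Or.inl ⟨π, rfl⟩
      have hA : update (Sum.inl ∘ π : Fin r → Fin r ⊕ Fin r) f (Sum.inr s) ∈ Girr r :=
        Or.inr ⟨π, s, rfl⟩
      have h1 := LPath.snoc h0 (fun p _ => mix_mem47 f
        (Y := update (Sum.inl ∘ π : Fin r → Fin r ⊕ Fin r) f (Sum.inr s))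
        (fun q hq => by rw [update_of_ne hq]) hρ hA p)
      have h2 := LPath.snoc h1 (fun p _ => mix_mem47 f
        (Y := (Sum.inl ∘ π : Fin r → Fin r ⊕ Fin r))
        (fun q hq => by rw [update_of_ne hq]) hA hρ p)
      rw [cnt_perm47, cnt_upd47 π f s hπf s] at h2
      convert h2 using 1
      funext l
      rcases l with p | p
      · simp only [Sum.elim_inl, Pi.add_apply]
        have hps : p = s ↔ (p : ℕ) = m := by rw [hs, Fin.ext_iff]
        simp only [hps]
        split_ifs <;> omega
      · simp only [Sum.elim_inr, Pi.add_apply]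
        have hps : p = s ↔ (p : ℕ) = m := by rw [hs, Fin.ext_iff]
        simp only [hps]
        split_ifs <;> omega
  have h := key r le_rfl
  convert h using 1
  funext l
  rcases l with p | p
  · simp only [Sum.elim_inl]
    rw [if_pos p.2]
  · simp only [Sum.elim_inr]
    rw [if_pos p.2]

/-- Rows of the swap network: letters `inl p` and the connectors `inr j`. -/
def Gnet (r n : ℕ) (e : ℕ → Fin r × Fin r) : Set (Fin r → Fin r ⊕ Fin n) :=
  {μ | (∃ π : Equiv.Perm (Fin r), μ = Sum.inl ∘ π) ∨
    ∃ (π : Equiv.Perm (Fin r)) (j : Fin n),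
      μ = update (Sum.inl ∘ π) (π.symm (e j).1) (Sum.inr j) ∨
      μ = update (Sum.inl ∘ π) (π.symm (e j).2) (Sum.inr j)}

/-- Number of clones used by the swap network. -/
def netcnt (r n : ℕ) (e : ℕ → Fin r × Fin r) : Fin r ⊕ Fin n → ℕ :=
  Sum.elim (fun p => ∑ j : Fin n, if p = (e j).1 ∨ p = (e j).2 then 2 else 3) (fun _ => 2)

/-- one optional swap, the letter `u` at the position `f` before the letter `v` -/
theorem net_step47 {r n : ℕ} {G : Set (Fin r → Fin r ⊕ Fin n)} {ρ : Fin r → Fin r ⊕ Fin n}
    {κ : Fin r ⊕ Fin n → ℕ} {σ : Equiv.Perm (Fin r)} (h0 : LPath G ρ κ (Sum.inl ∘ σ))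
    (j0 : Fin n) (u v : Fin r) (huv : σ.symm u < σ.symm v)
    (hG1 : ∀ τ : Equiv.Perm (Fin r), (Sum.inl ∘ τ : Fin r → Fin r ⊕ Fin n) ∈ G)
    (hGu : ∀ τ : Equiv.Perm (Fin r),
      update (Sum.inl ∘ τ : Fin r → Fin r ⊕ Fin n) (τ.symm u) (Sum.inr j0) ∈ G)
    (hGv : ∀ τ : Equiv.Perm (Fin r),
      update (Sum.inl ∘ τ : Fin r → Fin r ⊕ Fin n) (τ.symm v) (Sum.inr j0) ∈ G) (c : Bool) :
    LPath G ρ (κ + Sum.elim (fun p => if p = u ∨ p = v then 2 else 3)
      (fun j => if j = j0 then 2 else 0))
      (Sum.inl ∘ ((if c then Equiv.swap u v else 1) * σ : Equiv.Perm (Fin r))) := by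
  set f := σ.symm u with hf
  set s := σ.symm v with hs
  have hfs : f ≠ s := huv.ne
  have hσf : σ f = u := by rw [hf, Equiv.apply_symm_apply]
  have hσs : σ s = v := by rw [hs, Equiv.apply_symm_apply]
  have hne : u ≠ v := fun h => hfs (by rw [hf, hs, h])
  set τ : Equiv.Perm (Fin r) := Equiv.swap u v * σ with hτ
  have hτf : τ f = v := by rw [hτ, Equiv.Perm.mul_apply, hσf, Equiv.swap_apply_left]
  have hτs : τ s = u := by rw [hτ, Equiv.Perm.mul_apply, hσs, Equiv.swap_apply_right]
  have hτq : ∀ q, q ≠ f → q ≠ s → τ q = σ q := by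
    intro q h1 h2
    rw [hτ, Equiv.Perm.mul_apply, Equiv.swap_apply_of_ne_of_ne]
    · rw [← hσf]; exact fun h => h1 (σ.injective h)
    · rw [← hσs]; exact fun h => h2 (σ.injective h)
  have hτv : τ.symm v = f := by rw [Equiv.symm_apply_eq, hτf]
  set C : Fin r ⊕ Fin n := Sum.inr j0 with hC
  set ρ0 : Fin r → Fin r ⊕ Fin n := Sum.inl ∘ σ with hρ0
  set ρ1 : Fin r → Fin r ⊕ Fin n := Sum.inl ∘ τ with hρ1
  set A := update ρ0 f C with hA
  set B := update ρ1 f C with hB
  have mA : A ∈ G := hGu σ
  have mB : B ∈ G := by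
    have := hGv τ
    rwa [hτv] at this
  have m0 : ρ0 ∈ G := hG1 σ
  have m1 : ρ1 ∈ G := hG1 τ
  have h01 : ∀ q, q ≠ f → q ≠ s → ρ0 q = ρ1 q := fun q h1 h2 => by
    rw [hρ0, hρ1, comp_apply, comp_apply, hτq q h1 h2]
  have cA : cnt A = Sum.elim (fun p => if p = u then 0 else 1) (fun j => if j = j0 then 1 else 0) :=
    cnt_upd47 σ f u hσf j0
  have cB : cnt B = Sum.elim (fun p => if p = v then 0 else 1) (fun j => if j = j0 then 1 else 0) :=
    cnt_upd47 τ f v hτf j0
  cases c with
  | true =>
    rw [if_pos rfl]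
    have h1 := LPath.snoc h0 (fun p _ => mix_mem47 f (Y := A)
      (fun q hq => by rw [hA, update_of_ne hq]) m0 mA p)
    have h2 := LPath.snoc h1 (fun p _ => mix_mem2_47 f s huv (Y := B)
      (fun q hq hq2 => by rw [hA, hB, update_of_ne hq, update_of_ne hq, h01 q hq hq2]) mA mB
      (by rw [hB, update_self, hA, update_idem]; exact mA) p)
    have h3 := LPath.snoc h2 (fun p _ => mix_mem47 f (Y := ρ1)
      (fun q hq => by rw [hB, update_of_ne hq]) mB m1 p)
    rw [cA, cB, hρ1, cnt_perm47] at h3
    convert h3 using 1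
    rw [add_assoc, add_assoc]
    congr 1
    funext l
    rcases l with p | j
    · simp only [Sum.elim_inl, Pi.add_apply]
      by_cases h4 : p = u
      · have h5 : p ≠ v := fun h => hne (h4.symm.trans h)
        simp [h4, hne]
      · by_cases h5 : p = v
        · simp [h5, hne.symm]
        · simp [h4, h5]
    · simp only [Sum.elim_inr, Pi.add_apply]
      split_ifs <;> rfl
  | false =>
    rw [if_neg (by simp), one_mul]
    have h1 := LPath.snoc h0 (fun p _ => mix_mem2_47 f s huv (Y := B)
      (fun q hq hq2 => by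
        rw [hB, update_of_ne hq]; exact h01 q hq hq2) m0 mB
      (by rw [hB, update_self]; exact mA) p)
    have h2 := LPath.snoc h1 (fun p _ => mix_mem2_47 f s huv (Y := A)
      (fun q hq hq2 => by rw [hA, hB, update_of_ne hq, update_of_ne hq, h01 q hq hq2]) mB mA
      (by rw [hA, update_self, hB, update_idem]; exact mB) p)
    have h3 := LPath.snoc h2 (fun p _ => mix_mem47 f (Y := ρ0)
      (fun q hq => by rw [hA, update_of_ne hq]) mA m0 p)
    rw [cA, cB, hρ0, cnt_perm47] at h3
    convert h3 using 1
    rw [add_assoc, add_assoc]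
    congr 1
    funext l
    rcases l with p | j
    · simp only [Sum.elim_inl, Pi.add_apply]
      by_cases h4 : p = u
      · have h5 : p ≠ v := fun h => hne (h4.symm.trans h)
        simp [h4, hne]
      · by_cases h5 : p = v
        · simp [h5, hne.symm]
        · simp [h4, h5]
    · simp only [Sum.elim_inr, Pi.add_apply]
      split_ifs <;> rfl

theorem net_lpath {r n : ℕ} (e : ℕ → Fin r × Fin r) (hne : ∀ j < n, (e j).1 ≠ (e j).2)
    (c : ℕ → Bool) (π : Equiv.Perm (Fin r)) :
    LPath (Gnet r n e) (Sum.inl ∘ π) (netcnt r n e) (Sum.inl ∘ (netprod e c n * π : Equiv.Perm (Fin r))) := by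
  have key : ∀ m, m ≤ n → LPath (Gnet r n e) (Sum.inl ∘ π)
      (Sum.elim (fun p : Fin r => ∑ j ∈ Finset.range m, if p = (e j).1 ∨ p = (e j).2 then 2 else 3)
        (fun j : Fin n => if (j : ℕ) < m then 2 else 0)) (Sum.inl ∘ (netprod e c m * π : Equiv.Perm (Fin r))) := by
    intro m
    induction m with
    | zero =>
      intro _
      have : (Sum.elim (fun p : Fin r => ∑ j ∈ Finset.range 0,
          if p = (e j).1 ∨ p = (e j).2 then 2 else 3)
        (fun j : Fin n => if (j : ℕ) < 0 then 2 else 0)) = (0 : Fin r ⊕ Fin n → ℕ) := by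
        funext l
        rcases l with p | p <;> simp
      rw [this]
      have h1 : (netprod e c 0 * π : Equiv.Perm (Fin r)) = π := by rw [netprod, one_mul]
      rw [h1]
      exact LPath.nil
    | succ m ih =>
      intro hm
      have h0 := ih (by omega)
      set σ : Equiv.Perm (Fin r) := netprod e c m * π with hσ
      set j0 : Fin n := ⟨m, by omega⟩ with hj0
      have hbb := hne m (by omega)
      have hG1 : ∀ τ : Equiv.Perm (Fin r), (Sum.inl ∘ τ : Fin r → Fin r ⊕ Fin n) ∈ Gnet r n e :=
        fun τ => Or.inl ⟨τ, rfl⟩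
      have hGa : ∀ τ : Equiv.Perm (Fin r), update (Sum.inl ∘ τ : Fin r → Fin r ⊕ Fin n)
          (τ.symm (e m).1) (Sum.inr j0) ∈ Gnet r n e := fun τ => Or.inr ⟨τ, j0, Or.inl rfl⟩
      have hGb : ∀ τ : Equiv.Perm (Fin r), update (Sum.inl ∘ τ : Fin r → Fin r ⊕ Fin n)
          (τ.symm (e m).2) (Sum.inr j0) ∈ Gnet r n e := fun τ => Or.inr ⟨τ, j0, Or.inr rfl⟩
      have hprod : (netprod e c (m + 1) * π : Equiv.Perm (Fin r)) =
          (if c m then Equiv.swap (e m).1 (e m).2 else 1) * σ := by
        rw [netprod, hσ, mul_assoc]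
      have hcnt : (Sum.elim (fun p : Fin r => ∑ j ∈ Finset.range (m + 1),
          if p = (e j).1 ∨ p = (e j).2 then 2 else 3)
          (fun j : Fin n => if (j : ℕ) < m + 1 then 2 else 0)) =
          (Sum.elim (fun p : Fin r => ∑ j ∈ Finset.range m,
            if p = (e j).1 ∨ p = (e j).2 then 2 else 3)
            (fun j : Fin n => if (j : ℕ) < m then 2 else 0) : Fin r ⊕ Fin n → ℕ) +
          Sum.elim (fun p => if p = (e m).1 ∨ p = (e m).2 then 2 else 3)
            (fun j => if j = j0 then 2 else 0) := by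
        funext l
        rcases l with p | j
        · simp only [Sum.elim_inl, Pi.add_apply, Finset.sum_range_succ]
        · simp only [Sum.elim_inr, Pi.add_apply]
          have hj : j = j0 ↔ (j : ℕ) = m := by rw [hj0, Fin.ext_iff]
          simp only [hj]
          split_ifs <;> omega
      rw [hprod, hcnt]
      rcases lt_or_gt_of_ne (fun h => hbb (σ.symm.injective h) :
        σ.symm (e m).1 ≠ σ.symm (e m).2) with hlt | hlt
      · exact net_step47 h0 j0 _ _ hlt hG1 hGa hGb (c m)
      · have h1 := net_step47 h0 j0 _ _ hlt hG1 hGb hGa (c m)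
        rw [Equiv.swap_comm] at h1
        convert h1 using 4
        simp only [or_comm]
  have h := key n le_rfl
  convert h using 1
  funext l
  rcases l with p | j
  · simp only [netcnt, Sum.elim_inl]
    exact Fin.sum_univ_eq_sum_range (fun j => if p = (e j).1 ∨ p = (e j).2 then 2 else 3) n
  · simp only [netcnt, Sum.elim_inr]
    rw [if_pos j.2]

end Helper86.CO
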