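import Pool.Agent.Helper86.CO.Defs

/-! Block B5: lifting a path of letters to a path of rows, using clones. -/

namespace Helper86.CO

open Set Function

universe u

variable {α : Type u}

private lemma cnt_pos {Λ : Type*} {r : ℕ} (μ : Fin r → Λ) (q : Fin r) : 1 ≤ cnt μ (μ q) := by
  have h : 0 < cnt μ (μ q) := by
    unfold cnt
    exact (Set.ncard_pos (Set.toFinite {q' | μ q' = μ q})).2 ⟨q, rfl⟩
  exact h

private lemma cnt_le {Λ : Type*} {r : ℕ} {μ : Fin r → Λ} (h : Injective μ) (l : Λ) :
    cnt μ l ≤ 1 := by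
  unfold cnt
  refine Set.ncard_le_one (Set.toFinite _) |>.2 ?_
  intro a ha b hb
  exact h (ha.trans hb.symm)

private lemma exists_of_cnt {Λ : Type*} {r : ℕ} {μ : Fin r → Λ} {l : Λ} (h : 1 ≤ cnt μ l) :
    ∃ q, μ q = l := by
  have h0 : 0 < cnt μ l := h
  unfold cnt at h0
  exact (Set.ncard_pos (Set.toFinite _)).1 h0

/-- Every letter `l` has the clones `cl l 0, ..., cl l (S l - 1)`; the clones with index `< a l` are
already used.  A path of letters lifts to a path of rows using the next `κ l` clones of `l`. -/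
theorem lift {Λ : Type*} {L : Matroid α} {r : ℕ} (cl : Λ → ℕ → α) (S : Λ → ℕ)
    (hinj : ∀ l j l' j', j < S l → j' < S l' → cl l j = cl l' j' → l = l' ∧ j = j')
    {G : Set (Fin r → Λ)}
    (hG : ∀ μ ∈ G, Injective μ ∧ ∀ j : Fin r → ℕ, (∀ q, j q < S (μ q)) →
      L.IsBase (range fun q => cl (μ q) (j q)))
    {μ μ' : Fin r → Λ} {κ : Λ → ℕ} (h : LPath G μ κ μ') (a : Λ → ℕ)
    (ha : ∀ l, a l + κ l ≤ S l) (j : Fin r → ℕ) (hj : ∀ q, j q < a (μ q)) :
    ∃ j' : Fin r → ℕ, (∀ q, j' q < a (μ' q) + κ (μ' q)) ∧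
      Path L (fun q => cl (μ q) (j q)) {x | ∃ l i, a l ≤ i ∧ i < a l + κ l ∧ x = cl l i}
        (fun q => cl (μ' q) (j' q)) := by
  induction h with
  | nil =>
    refine ⟨j, fun q => by simpa using hj q, ?_⟩
    have hX : {x | ∃ l i, a l ≤ i ∧ i < a l + (0 : Λ → ℕ) l ∧ x = cl l i} = ∅ := by
      ext x
      simp only [Pi.zero_apply, add_zero, Set.mem_ofPred_eq, mem_empty_iff_false, iff_false, not_exists]
      rintro l i ⟨h1, h2, -⟩
      omega
    rw [hX]
    exact Path.nil
  | @snoc κ μ' μ'' _ hm ih =>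
    have ha' : ∀ l, a l + κ l + cnt μ'' l ≤ S l := fun l => by
      have := ha l
      simp only [Pi.add_apply] at this
      omega
    obtain ⟨j1, hj1, hP⟩ := ih (fun l => by have := ha' l; omega)
    have hr : mix μ' μ'' r = μ'' := by
      funext q
      simp [mix]
    have hin : Injective μ'' := (hG _ (hr ▸ hm r le_rfl)).1
    refine ⟨fun q => a (μ'' q) + κ (μ'' q), fun q => ?_, ?_⟩
    · have := cnt_pos μ'' q
      simp only [Pi.add_apply]
      omega
    · have hX : {x | ∃ l i, a l ≤ i ∧ i < a l + (κ + cnt μ'') l ∧ x = cl l i} =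
          {x | ∃ l i, a l ≤ i ∧ i < a l + κ l ∧ x = cl l i} ∪
            range (fun q => cl (μ'' q) (a (μ'' q) + κ (μ'' q))) := by
        ext x
        simp only [Pi.add_apply, Set.mem_ofPred_eq, mem_union, mem_range]
        constructor
        · rintro ⟨l, i, h1, h2, h3⟩
          by_cases hi : i < a l + κ l
          · exact Or.inl ⟨l, i, h1, hi, h3⟩
          · right
            have hc : 1 ≤ cnt μ'' l := by omega
            obtain ⟨q, rfl⟩ := exists_of_cnt hc
            have := cnt_le hin (μ'' q)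
            have hi' : i = a (μ'' q) + κ (μ'' q) := by omega
            exact ⟨q, by rw [h3, hi']⟩
        · rintro (⟨l, i, h1, h2, h3⟩ | ⟨q, rfl⟩)
          · exact ⟨l, i, h1, by omega, h3⟩
          · have := cnt_pos μ'' q
            exact ⟨μ'' q, a (μ'' q) + κ (μ'' q), by omega, by omega, rfl⟩
      rw [hX]
      refine Path.snoc hP ?_ ?_
      · intro p hp
        have he : mix (fun q => cl (μ' q) (j1 q)) (fun q => cl (μ'' q) (a (μ'' q) + κ (μ'' q))) p =
            fun q => cl (mix μ' μ'' p q) (mix j1 (fun q => a (μ'' q) + κ (μ'' q)) p q) := by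
          funext q
          unfold mix
          split_ifs <;> rfl
        rw [he]
        refine (hG _ (hm p hp)).2 _ fun q => ?_
        unfold mix
        split_ifs
        · have := cnt_pos μ'' q
          have := ha' (μ'' q)
          simp only
          omega
        · have := hj1 q
          have := ha' (μ' q)
          omega
      · rw [Set.disjoint_left]
        rintro x ⟨l, i, h1, h2, rfl⟩ ⟨q, hq⟩
        simp only at hq
        have c1 := cnt_pos μ'' q
        have c2 := ha' (μ'' q)
        have c3 := ha' l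
        obtain ⟨e1, e2⟩ := hinj _ _ _ _ (by omega) (by omega) hq
        subst e1
        omega

end Helper86.CO
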