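import Pool.Agent.Helper86.CO.Defs

/-! Block B3: serial exchange of a row with a base, preserving the blocks. -/

namespace Helper86.CO

open Set Function

universe u

variable {α : Type u}

private theorem range_update_inj {r : ℕ} {x : Fin r → α} (hx : Injective x) (p : Fin r) (c : α) :
    range (update x p c) = insert c (range x \ {x p}) := by
  ext y
  constructor
  · rintro ⟨q, rfl⟩
    by_cases hq : q = p
    · subst hq
      simp
    · rw [update_of_ne hq]
      exact Or.inr ⟨⟨q, rfl⟩, fun h => hq (hx h)⟩
  · rintro (rfl | ⟨⟨q, rfl⟩, hq⟩)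
    · exact ⟨p, by simp⟩
    · refine ⟨q, update_of_ne ?_ _ _⟩
      rintro rfl
      exact hq rfl

private theorem update_inj {r : ℕ} {x : Fin r → α} (hx : Injective x) (p : Fin r) {c : α}
    (hc : c ∉ range x) : Injective (update x p c) := by
  intro a b hab
  by_cases ha : a = p
  · by_cases hb : b = p
    · rw [ha, hb]
    · subst ha
      rw [update_self, update_of_ne hb] at hab
      exact absurd ⟨b, hab.symm⟩ hc
  · by_cases hb : b = p
    · subst hb
      rw [update_self, update_of_ne ha] at hab
      exact absurd ⟨a, hab⟩ hc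
    · rw [update_of_ne ha, update_of_ne hb] at hab
      exact hx hab

private theorem serial_aux [Finite α] {L : Matroid α} {r : ℕ} {ρ : Fin r → α}
    (hinj : Injective ρ)
    (hb : L.IsBase (range ρ)) {C : Set α} (hC : L.IsBase C) (hd : Disjoint (range ρ) C)
    {q : ℕ} (blk : α → Fin q)
    (hbal : ∀ W W', L.IsBase W → L.IsBase W' →
      ∀ i, (W ∩ blk ⁻¹' {i}).ncard = (W' ∩ blk ⁻¹' {i}).ncard) :
    ∀ p ≤ r, ∃ ρ' : Fin r → α, Injective ρ' ∧ (∀ s : Fin r, (s : ℕ) < p → ρ' s ∈ C) ∧
      (∀ s : Fin r, p ≤ (s : ℕ) → ρ' s = ρ s) ∧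
      (∀ p' ≤ p, L.IsBase (range (mix ρ ρ' p'))) ∧ ∀ s, blk (ρ' s) = blk (ρ s) := by
  intro p
  induction p with
  | zero =>
    intro _
    refine ⟨ρ, hinj, fun s hs => absurd hs (Nat.not_lt_zero _), fun _ _ => rfl, ?_, fun _ => rfl⟩
    intro p' _
    have : mix ρ ρ p' = ρ := by
      funext s
      simp [mix]
    rw [this]
    exact hb
  | succ p ih =>
    intro hp
    obtain ⟨ρ', hi, h1, h2, h3, h4⟩ := ih (by omega)
    have hmix : mix ρ ρ' p = ρ' := by
      funext s
      unfold mix
      split_ifs with h
      · rfl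
      · exact (h2 s (by omega)).symm
    have hW : L.IsBase (range ρ') := by
      have := h3 p le_rfl
      rwa [hmix] at this
    set P : Fin r := ⟨p, by omega⟩ with hP
    have hρP : ρ' P = ρ P := h2 P le_rfl
    have heW : ρ' P ∈ range ρ' \ C := by
      refine ⟨⟨P, rfl⟩, ?_⟩
      rw [hρP]
      exact disjoint_left.1 hd ⟨P, rfl⟩
    obtain ⟨f, ⟨hfC, hfW⟩, hbase⟩ := hW.exchange hC heW
    have hr : range (update ρ' P f) = insert f (range ρ' \ {ρ' P}) := range_update_inj hi P f
    have hblk : blk f = blk (ρ' P) := by
      by_contra hne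
      have hcount := hbal _ _ hW hbase (blk (ρ' P))
      have hset : insert f (range ρ' \ {ρ' P}) ∩ blk ⁻¹' {blk (ρ' P)}
          = (range ρ' ∩ blk ⁻¹' {blk (ρ' P)}) \ {ρ' P} := by
        ext y
        simp only [mem_inter_iff, mem_insert_iff, mem_sdiff, mem_singleton_iff, mem_preimage]
        constructor
        · rintro ⟨rfl | ⟨hy, hy'⟩, hyb⟩
          · exact absurd hyb hne
          · exact ⟨⟨hy, hyb⟩, hy'⟩
        · rintro ⟨⟨hy, hyb⟩, hy'⟩
          exact ⟨Or.inr ⟨hy, hy'⟩, hyb⟩
      rw [hset] at hcount
      have hmem : ρ' P ∈ range ρ' ∩ blk ⁻¹' {blk (ρ' P)} := ⟨⟨P, rfl⟩, rfl⟩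
      have := ncard_sdiff_singleton_add_one hmem (Set.toFinite _)
      omega
    refine ⟨update ρ' P f, update_inj hi P hfW, ?_, ?_, ?_, ?_⟩
    · intro s hs
      by_cases hsP : s = P
      · subst hsP
        rw [update_self]
        exact hfC
      · rw [update_of_ne hsP]
        refine h1 s ?_
        have : (s : ℕ) ≠ p := fun h => hsP (Fin.ext h)
        omega
    · intro s hs
      have hsP : s ≠ P := by
        rintro rfl
        simp [hP] at hs
      rw [update_of_ne hsP]
      exact h2 s (by omega)
    · intro p' hp'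
      rcases Nat.lt_or_ge p' (p + 1) with hlt | hge
      · have : mix ρ (update ρ' P f) p' = mix ρ ρ' p' := by
          funext s
          unfold mix
          split_ifs with h
          · have hsP : s ≠ P := by
              rintro rfl
              simp [hP] at h
              omega
            rw [update_of_ne hsP]
          · rfl
        rw [this]
        exact h3 p' (by omega)
      · have hpp : p' = p + 1 := le_antisymm hp' hge
        subst hpp
        have : mix ρ (update ρ' P f) (p + 1) = update ρ' P f := by
          funext s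
          unfold mix
          split_ifs with h
          · rfl
          · have hsP : s ≠ P := by
              rintro rfl
              simp [hP] at h
            rw [update_of_ne hsP]
            exact (h2 s (by omega)).symm
        rw [this, hr]
        exact hbase
    · intro s
      by_cases hsP : s = P
      · subst hsP
        rw [update_self, hblk]
        exact h4 _
      · rw [update_of_ne hsP]
        exact h4 s

/-- Serial exchange: a row whose range is a base can be followed by an arrangement of any disjoint
base `C`; if all bases meet all blocks in the same number of elements, the blocks of the positions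
are preserved. -/
theorem serial [Finite α] {L : Matroid α} {r : ℕ} {ρ : Fin r → α} (hinj : Injective ρ)
    (hb : L.IsBase (range ρ)) {C : Set α} (hC : L.IsBase C) (hd : Disjoint (range ρ) C)
    {q : ℕ} (blk : α → Fin q)
    (hbal : ∀ W W', L.IsBase W → L.IsBase W' →
      ∀ i, (W ∩ blk ⁻¹' {i}).ncard = (W' ∩ blk ⁻¹' {i}).ncard) :
    ∃ ρ' : Fin r → α, Injective ρ' ∧ range ρ' = C ∧ Step L ρ ρ' ∧ blk ∘ ρ' = blk ∘ ρ := by
  obtain ⟨ρ', hi, h1, -, h3, h4⟩ := serial_aux hinj hb hC hd blk hbal r le_rfl
  have hmix : mix ρ ρ' r = ρ' := by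
    funext s
    unfold mix
    rw [if_pos s.2]
  have hW : L.IsBase (range ρ') := by
    have := h3 r le_rfl
    rwa [hmix] at this
  have hsub : range ρ' ⊆ C := by
    rintro _ ⟨s, rfl⟩
    exact h1 s s.2
  exact ⟨ρ', hi, hW.eq_of_subset_isBase hC hsub, h3, funext h4⟩

end Helper86.CO
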