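import Pool.Agent.Helper86.CO.Basic
import Pool.Agent.Helper86.CO.Serial
import Pool.Agent.Helper86.CO.Lift
import Pool.Agent.Helper86.CO.Letters

/-! Block B6b: the chain of regular bases and the gadget for an irregular base, from the clones. -/

namespace Helper86.CO

open Set Function

universe u

variable {α : Type u} {M L : Matroid α} {q : ℕ} {blk : α → Fin q} {r k D D' : ℕ}

/-- One serial exchange inside a system. -/
theorem Sys.serial30 (S : Sys M L blk r k D D') {ρ : Fin r → α} (hb : L.IsBase (range ρ))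
    {C : Set α} (hC : L.IsBase C) (hd : Disjoint (range ρ) C) :
    ∃ ρ' : Fin r → α, Injective ρ' ∧ range ρ' = C ∧ Step L ρ ρ' ∧ blk ∘ ρ' = blk ∘ ρ := by
  have := S.fin
  exact serial (S.inj (S.weak _ hb)) hb hC hd blk fun W W' hW hW' i => by
    rw [S.base_block hW, S.base_block hW']

/-- The chain of regular bases. -/
theorem reg_chain (S : Sys M L blk r k D D') {ρ : Fin r → α} (hb : L.IsBase (range ρ)) {n : ℕ}
    (hn : 0 < n) {R : Set α} (hR : BU L n R) (hd : Disjoint (range ρ) R) :
    ∃ ρ' : Fin r → α, L.IsBase (range ρ') ∧ blk ∘ ρ' = blk ∘ ρ ∧ range ρ' ⊆ R ∧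
      Path L ρ R ρ' := by
  obtain ⟨m, rfl⟩ : ∃ m, n = m + 1 := ⟨n - 1, by omega⟩
  clear hn
  induction m generalizing R with
  | zero =>
    obtain ⟨B, hB, hBd, hBU⟩ := hR
    have h0 : R = B 0 := by
      rw [← hBU]
      ext x
      simp only [mem_iUnion]
      exact ⟨fun ⟨j, hj⟩ => by rwa [Fin.eq_zero j] at hj, fun h => ⟨0, h⟩⟩
    rw [h0] at hd ⊢
    obtain ⟨ρ', _, h2, h3, h4⟩ := S.serial30 hb (hB 0) hd
    refine ⟨ρ', h2 ▸ hB 0, h4, h2.le, ?_⟩
    have h5 := Path.single h3
    rwa [h2] at h5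
  | succ m ih =>
    obtain ⟨B, hB, hBd, hBU⟩ := hR
    set R' : Set α := ⋃ j : Fin (m + 1), B j.castSucc with hR'
    have hRR : R = R' ∪ B (Fin.last (m + 1)) := by
      rw [← hBU, hR']
      ext x
      simp only [mem_iUnion, mem_union]
      constructor
      · rintro ⟨j, hj⟩
        induction j using Fin.lastCases with
        | last => exact Or.inr hj
        | cast j => exact Or.inl ⟨j, hj⟩
      · rintro (⟨j, hj⟩ | h)
        · exact ⟨_, hj⟩
        · exact ⟨_, h⟩
    have hR'BU : BU L (m + 1) R' := ⟨fun j => B j.castSucc, fun j => hB _, fun i j hij =>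
      hBd (fun h => hij (Fin.castSucc_injective _ h)), rfl⟩
    rw [hRR, disjoint_union_right] at hd
    obtain ⟨ρ₁, h1, h2, h3, h4⟩ := ih hd.1 hR'BU
    have hdis : Disjoint R' (B (Fin.last (m + 1))) := by
      rw [hR', disjoint_iUnion_left]
      intro j
      exact hBd (Fin.castSucc_lt_last j).ne
    obtain ⟨ρ₂, _, h6, h7, h8⟩ := S.serial30 h1 (hB (Fin.last (m + 1)))
      (hdis.mono_left h3)
    refine ⟨ρ₂, h6 ▸ hB _, h8.trans h2, ?_, ?_⟩
    · rw [hRR, h6]
      exact subset_union_right
    · have h9 := Path.snoc h4 h7 (by rw [h6]; exact hdis)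
      rwa [h6, ← hRR] at h9

/-- The gadget for an irregular base `range y`. -/
theorem irr_gadget (S : Sys M L blk r k D D') (hr : 0 < r) {y : Fin r → α}
    {cl : Fin r → ℕ → α} (hy : Injective y)
    (hinj : ∀ p j p' j', j < 2 * r → j' < 2 * r → cl p j = cl p' j' → p = p' ∧ j = j')
    (hyc : ∀ p j, j < 2 * r → cl p j ∉ range y)
    (hreg : ∀ j : Fin r → ℕ, (∀ p, j p < 2 * r) → L.IsBase (range fun p => cl p (j p)))
    (hirr : ∀ j : Fin r → ℕ, (∀ p, j p < 2 * r) → ∀ p',
      M.IsBase (range (update (fun p => cl p (j p)) p' (y p'))))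
    {ρ : Fin r → α} (hb : L.IsBase (range ρ))
    (hd : Disjoint (range ρ) {a | ∃ p j, j < 2 * r ∧ a = cl p j}) :
    ∃ ρ' : Fin r → α, L.IsBase (range ρ') ∧ blk ∘ ρ' = blk ∘ ρ ∧
      range ρ' ⊆ {a | ∃ p j, j < 2 * r ∧ a = cl p j} ∧
      Path M ρ ({a | ∃ p j, j < 2 * r ∧ a = cl p j} ∪ range y) ρ' := by
  have h2r : 0 < 2 * r := by omega
  -- the first row of clones
  have hC0 : L.IsBase (range fun p => cl p 0) := hreg (fun _ => 0) fun _ => h2r
  obtain ⟨ρ₁, hρ₁i, hρ₁r, hρ₁s, hρ₁b⟩ := S.serial30 hb hC0 (hd.mono_right (by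
    rintro _ ⟨p, rfl⟩
    exact ⟨p, 0, h2r, rfl⟩))
  have hex : ∀ s, ∃ p, ρ₁ s = cl p 0 := by
    intro s
    have h1 : ρ₁ s ∈ range fun p => cl p 0 := hρ₁r ▸ mem_range_self s
    obtain ⟨p, hp⟩ := h1
    exact ⟨p, hp.symm⟩
  choose f hf using hex
  have hfi : Injective f := by
    intro s s' h
    apply hρ₁i
    rw [hf, hf, h]
  have hfb : Bijective f := (Finite.injective_iff_bijective (f := f)).1 hfi
  set π : Equiv.Perm (Fin r) := Equiv.ofBijective f hfb with hπ
  have hπf : ∀ s, π s = f s := fun s => rfl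
  -- clones of a letter are in one block
  have hblk : ∀ p j, j < 2 * r → blk (cl p j) = blk (cl p 0) := by
    intro p j hj
    refine S.exch_blk (x := fun p => cl p 0) hC0 (p := p) ?_
    have h1 : update (fun p => cl p 0) p (cl p j) =
        fun p' => cl p' (update (fun _ => 0) p j p') := by
      funext p'
      by_cases h : p' = p
      · subst h
        simp
      · simp [update_of_ne h]
    rw [h1]
    apply hreg
    intro p'
    by_cases h : p' = p
    · subst h
      simpa using hj
    · rw [update_of_ne h]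
      exact h2r
  -- the lifting
  set cl' : Fin r ⊕ Fin r → ℕ → α := Sum.elim cl (fun p _ => y p) with hcl'
  set SS : Fin r ⊕ Fin r → ℕ := Sum.elim (fun _ => 2 * r) (fun _ => 1) with hSS
  set a : Fin r ⊕ Fin r → ℕ := Sum.elim (fun _ => 1) (fun _ => 0) with ha
  have hinj' : ∀ l j l' j', j < SS l → j' < SS l' → cl' l j = cl' l' j' → l = l' ∧ j = j' := by
    rintro (p | p) j (p' | p') j' h1 h2 h3
    · simp only [hSS, hcl', Sum.elim_inl] at h1 h2 h3
      obtain ⟨h4, h5⟩ := hinj p j p' j' h1 h2 h3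
      exact ⟨by rw [h4], h5⟩
    · simp only [hSS, hcl', Sum.elim_inl, Sum.elim_inr] at h1 h2 h3
      exact absurd ⟨p', h3.symm⟩ (hyc p j h1)
    · simp only [hSS, hcl', Sum.elim_inl, Sum.elim_inr] at h1 h2 h3
      exact absurd ⟨p, h3⟩ (hyc p' j' h2)
    · simp only [hSS, hcl', Sum.elim_inr] at h1 h2 h3
      exact ⟨by rw [hy h3], by omega⟩
  have hG : ∀ μ ∈ Girr r, Injective μ ∧ ∀ j : Fin r → ℕ, (∀ s, j s < SS (μ s)) →
      M.IsBase (range fun s => cl' (μ s) (j s)) := by
    rintro μ (⟨σ, rfl⟩ | ⟨σ, p, rfl⟩)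
    · refine ⟨Sum.inl_injective.comp σ.injective, fun j hj => ?_⟩
      have h1 : (fun s => cl' ((Sum.inl ∘ σ) s) (j s)) =
          (fun p => cl p (j (σ.symm p))) ∘ σ := by
        funext s
        simp [hcl']
      rw [h1, EquivLike.range_comp]
      exact S.weak _ (hreg _ fun p => by
        have := hj (σ.symm p)
        simpa [hSS] using this)
    · constructor
      · intro s s' h
        by_cases h1 : s = σ.symm p
        · by_cases h2 : s' = σ.symm p
          · rw [h1, h2]
          · rw [h1, update_self, update_of_ne h2] at h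
            simp at h
        · by_cases h2 : s' = σ.symm p
          · rw [h2, update_self, update_of_ne h1] at h
            simp at h
          · rw [update_of_ne h1, update_of_ne h2] at h
            exact σ.injective (Sum.inl_injective h)
      · intro j hj
        have h1 : (fun s => cl' (update (Sum.inl ∘ σ) (σ.symm p) (Sum.inr p) s) (j s)) =
            (update (fun p' => cl p' (update (fun p'' => j (σ.symm p'')) p 0 p')) p (y p)) ∘ σ := by
          funext s
          by_cases h : s = σ.symm p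
          · subst h
            simp [hcl']
          · have h' : σ s ≠ p := fun h1 => h (by rw [← h1, Equiv.symm_apply_apply])
            simp [hcl', update_of_ne h, update_of_ne h']
        rw [h1, EquivLike.range_comp]
        apply hirr
        intro p'
        by_cases h : p' = p
        · subst h
          rw [update_self]
          exact h2r
        · rw [update_of_ne h]
          have h2 := hj (σ.symm p')
          rw [update_of_ne (fun h3 => h (σ.symm.injective h3))] at h2
          simpa [hSS] using h2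
  obtain ⟨j', hj', hpath⟩ := lift (L := M) cl' SS hinj' hG (irr_lpath r π) a
    (by
      rintro (p | p)
      · simp only [ha, hSS, Sum.elim_inl]
        omega
      · simp [ha, hSS])
    (fun _ => 0) (by
      intro s
      simp [ha])
  have hj2 : ∀ s, j' s < 2 * r := by
    intro s
    have h1 := hj' s
    simp only [ha, comp_apply, Sum.elim_inl] at h1
    omega
  have hρ₁e : (fun s => cl' ((Sum.inl ∘ π) s) 0) = ρ₁ := by
    funext s
    rw [hf]
    rfl
  have hρ' : (fun s => cl' ((Sum.inl ∘ π) s) (j' s)) = fun s => cl (π s) (j' s) := rfl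
  rw [hρ₁e, hρ'] at hpath
  refine ⟨fun s => cl (π s) (j' s), ?_, ?_, ?_, ?_⟩
  · have h1 : (fun s => cl (π s) (j' s)) = (fun p => cl p (j' (π.symm p))) ∘ π := by
      funext s
      simp
    rw [h1, EquivLike.range_comp]
    exact hreg _ fun p => hj2 _
  · rw [← hρ₁b]
    funext s
    simp only [comp_apply]
    rw [hblk _ _ (hj2 s), hf]
    rfl
  · rintro _ ⟨s, rfl⟩
    exact ⟨_, _, hj2 s, rfl⟩
  · have hstep : Path M ρ (range ρ₁) ρ₁ := Path.single fun p hp => S.weak _ (hρ₁s p hp)
    have hdis : Disjoint (range ρ₁) {x | ∃ l i, a l ≤ i ∧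
        i < a l + Sum.elim (fun _ => 2 * r - 1) (fun _ => 1) l ∧ x = cl' l i} := by
      rw [hρ₁r, Set.disjoint_left]
      rintro _ ⟨p, rfl⟩ ⟨(p' | p'), i, h1, h2, h3⟩
      · simp only [ha, hcl', Sum.elim_inl] at h1 h2 h3
        have h4 := (hinj p 0 p' i h2r (by omega) h3).2
        omega
      · simp only [hcl', Sum.elim_inr] at h3
        exact hyc p 0 h2r ⟨p', h3.symm⟩
    have h5 := hstep.trans hpath hdis
    convert h5 using 1
    rw [hρ₁r]
    ext x
    simp only [mem_union, mem_range, mem_ofPred_eq]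
    constructor
    · rintro (⟨p, j, h1, rfl⟩ | ⟨p, rfl⟩)
      · rcases Nat.eq_zero_or_pos j with h2 | h2
        · exact Or.inl ⟨p, by rw [h2]⟩
        · refine Or.inr ⟨Sum.inl p, j, ?_, ?_, rfl⟩
          · simp only [ha, Sum.elim_inl]
            omega
          · simp only [ha, Sum.elim_inl]
            omega
      · refine Or.inr ⟨Sum.inr p, 0, ?_, ?_, rfl⟩
        · simp [ha]
        · simp [ha]
    · rintro (⟨p, rfl⟩ | ⟨(p | p), i, h1, h2, rfl⟩)
      · exact Or.inl ⟨p, 0, h2r, rfl⟩
      · simp only [ha, Sum.elim_inl] at h1 h2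
        exact Or.inl ⟨p, i, by omega, rfl⟩
      · exact Or.inr ⟨p, rfl⟩

end Helper86.CO
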