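import Pool.Agent.Helper86.CO.Basic
import Pool.Agent.Helper86.CO.Serial
import Pool.Agent.Helper86.CO.Lift
import Pool.Agent.Helper86.CO.Letters

/-! Block B7c: the swap network, from the clones. -/

namespace Helper86.CO

open Set Function

universe u

variable {α : Type u} {M L : Matroid α} {q : ℕ} {blk : α → Fin q} {r k D D' : ℕ}

/-- Number of clones of a letter used by the network gadget. -/
private def SS (r n : ℕ) (e : ℕ → Fin r × Fin r) (l : Fin r ⊕ Fin n) : ℕ :=
  Sum.elim (fun _ => 2) (fun _ => 0) l + netcnt r n e l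

private lemma SS_le (r n : ℕ) (e : ℕ → Fin r × Fin r) (l : Fin r ⊕ Fin n) :
    SS r n e l ≤ 3 * n + 2 := by
  cases l with
  | inl p =>
    have h : (∑ j : Fin n, if p = (e j).1 ∨ p = (e j).2 then 2 else 3) ≤ ∑ _j : Fin n, 3 :=
      Finset.sum_le_sum fun j _ => by split_ifs <;> omega
    simp only [Finset.sum_const, Finset.card_univ, Fintype.card_fin, smul_eq_mul] at h
    simp only [SS, netcnt, Sum.elim_inl]
    omega
  | inr i =>
    simp only [SS, netcnt, Sum.elim_inr]
    omega

private lemma two_le_SS (r n : ℕ) (e : ℕ → Fin r × Fin r) (p : Fin r) :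
    2 ≤ SS r n e (Sum.inl p) := by
  simp only [SS, Sum.elim_inl]
  omega

private lemma netprod_false (e : ℕ → Fin r × Fin r) (n : ℕ) :
    netprod e (fun _ => false) n = 1 := by
  induction n with
  | zero => rfl
  | succ n ih => simp [netprod, ih]

private lemma net_path {n : ℕ} {e : ℕ → Fin r × Fin r}
    (hne : ∀ j < n, (e j).1 ≠ (e j).2) {cl : Fin r ⊕ Fin n → ℕ → α}
    (hinj : ∀ l j l' j', j < 3 * n + 2 → j' < 3 * n + 2 → cl l j = cl l' j' → l = l' ∧ j = j')
    (hreg : ∀ j : Fin r ⊕ Fin n → ℕ, (∀ l, j l < 3 * n + 2) →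
      L.IsBase (range fun p => cl (Sum.inl p) (j (Sum.inl p))) ∧
      ∀ i : Fin n,
        L.IsBase (range (update (fun p => cl (Sum.inl p) (j (Sum.inl p))) (e i).1
          (cl (Sum.inr i) (j (Sum.inr i))))) ∧
        L.IsBase (range (update (fun p => cl (Sum.inl p) (j (Sum.inl p))) (e i).2
          (cl (Sum.inr i) (j (Sum.inr i))))))
    {ρ : Fin r → α} {π : Equiv.Perm (Fin r)} {c : ℕ → Bool} (hc : netprod e c n * π = 1)
    (hs : Step L ρ (fun q => cl (Sum.inl (π q)) 1)) :
    Path L ρ {a | ∃ l i, i < SS r n e l ∧ a = cl l i} (fun p => cl (Sum.inl p) 0) := by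
  have hG : ∀ μ ∈ Gnet r n e, Injective μ ∧ ∀ j : Fin r → ℕ, (∀ q, j q < SS r n e (μ q)) →
      L.IsBase (range fun q => cl (μ q) (j q)) := by
    have key : ∀ (σ : Equiv.Perm (Fin r)) (i : Fin n) (p0 : Fin r),
        (∀ j : Fin r ⊕ Fin n → ℕ, (∀ l, j l < 3 * n + 2) →
          L.IsBase (range (update (fun p => cl (Sum.inl p) (j (Sum.inl p))) p0
          (cl (Sum.inr i) (j (Sum.inr i)))))) →
        Injective (update ((Sum.inl : Fin r → Fin r ⊕ Fin n) ∘ σ) (σ.symm p0) (Sum.inr i)) ∧
          ∀ j : Fin r → ℕ, (∀ q, j q < SS r n e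
            (update ((Sum.inl : Fin r → Fin r ⊕ Fin n) ∘ σ) (σ.symm p0) (Sum.inr i) q)) →
          L.IsBase (range fun q => cl
            (update ((Sum.inl : Fin r → Fin r ⊕ Fin n) ∘ σ) (σ.symm p0) (Sum.inr i) q) (j q)) := by
      intro σ i p0 hb
      constructor
      · intro a b hab
        by_cases ha : a = σ.symm p0
        · by_cases hb' : b = σ.symm p0
          · rw [ha, hb']
          · rw [ha, update_self, update_of_ne hb'] at hab
            exact absurd hab (by simp)
        · by_cases hb' : b = σ.symm p0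
          · rw [hb', update_self, update_of_ne ha] at hab
            exact absurd hab (by simp)
          · rw [update_of_ne ha, update_of_ne hb'] at hab
            simpa using hab
      · intro j hj
        have hj' : ∀ q, j q < 3 * n + 2 := fun q => lt_of_lt_of_le (hj q) (SS_le _ _ _ _)
        have h1 := hb (Sum.elim (fun p => j (σ.symm p)) (fun _ => j (σ.symm p0))) (by
          rintro (p | p)
          · exact hj' _
          · exact hj' _)
        have h2 : (fun q => cl
            (update ((Sum.inl : Fin r → Fin r ⊕ Fin n) ∘ σ) (σ.symm p0) (Sum.inr i) q) (j q)) =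
            (update (fun p => cl (Sum.inl p)
              ((Sum.elim (fun p => j (σ.symm p)) (fun _ => j (σ.symm p0)) :
                Fin r ⊕ Fin n → ℕ) (Sum.inl p))) p0
              (cl (Sum.inr i) ((Sum.elim (fun p => j (σ.symm p)) (fun _ => j (σ.symm p0)) :
                Fin r ⊕ Fin n → ℕ) (Sum.inr i)))) ∘ σ := by
          funext q
          simp only [comp_apply, Sum.elim_inl, Sum.elim_inr]
          by_cases hq : q = σ.symm p0
          · rw [hq, update_self, Equiv.apply_symm_apply, update_self]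
          · have hq' : σ q ≠ p0 := fun h => hq (by rw [← h, Equiv.symm_apply_apply])
            rw [update_of_ne hq, update_of_ne hq', comp_apply, Equiv.symm_apply_apply]
        rw [h2, σ.surjective.range_comp]
        exact h1
    rintro μ (⟨σ, rfl⟩ | ⟨σ, i, rfl | rfl⟩)
    · refine ⟨Sum.inl_injective.comp σ.injective, fun j hj => ?_⟩
      have hj' : ∀ q, j q < 3 * n + 2 := fun q => lt_of_lt_of_le (hj q) (SS_le _ _ _ _)
      have h1 := (hreg (Sum.elim (fun p => j (σ.symm p)) (fun _ => 0)) (by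
        rintro (p | p)
        · exact hj' _
        · exact Nat.succ_pos _)).1
      have h2 : (fun q => cl (((Sum.inl : Fin r → Fin r ⊕ Fin n) ∘ σ) q) (j q)) =
          (fun p => cl (Sum.inl p) ((Sum.elim (fun p => j (σ.symm p)) (fun _ => 0) :
            Fin r ⊕ Fin n → ℕ) (Sum.inl p))) ∘ σ := by
        funext q
        simp only [comp_apply, Sum.elim_inl, Equiv.symm_apply_apply]
      rw [h2, σ.surjective.range_comp]
      exact h1
    · exact key σ i _ fun j hj => ((hreg j hj).2 i).1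
    · exact key σ i _ fun j hj => ((hreg j hj).2 i).2
  have hinj' : ∀ l j l' j', j < SS r n e l → j' < SS r n e l' → cl l j = cl l' j' →
      l = l' ∧ j = j' := fun l j l' j' h1 h2 h =>
    hinj l j l' j' (lt_of_lt_of_le h1 (SS_le _ _ _ _)) (lt_of_lt_of_le h2 (SS_le _ _ _ _)) h
  obtain ⟨j', hj', hP⟩ := lift cl (SS r n e) hinj' hG (net_lpath e hne c π)
    (Sum.elim (fun _ => 2) (fun _ => 0)) (fun l => le_rfl) (fun _ => 1)
    (fun q => by simp)
  rw [hc] at hP hj'
  have hj2 : ∀ q, j' q < SS r n e (Sum.inl q) := fun q => hj' q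
  -- the last step
  have hlast : Step L (fun q => cl (((Sum.inl : Fin r → Fin r ⊕ Fin n) ∘
      (1 : Equiv.Perm (Fin r))) q) (j' q)) (fun p => cl (Sum.inl p) 0) := by
    intro p hp
    have h1 := (hreg (Sum.elim (fun q => if (q : ℕ) < p then 0 else j' q) (fun _ => 0)) (by
      rintro (q | q)
      · simp only [Sum.elim_inl]
        split_ifs
        · exact Nat.succ_pos _
        · exact lt_of_lt_of_le (hj2 q) (SS_le _ _ _ _)
      · exact Nat.succ_pos _)).1
    have h2 : mix (fun q => cl (((Sum.inl : Fin r → Fin r ⊕ Fin n) ∘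
        (1 : Equiv.Perm (Fin r))) q) (j' q)) (fun p => cl (Sum.inl p) 0) p =
        fun p_1 => cl (Sum.inl p_1) ((Sum.elim (fun q => if (q : ℕ) < p then 0 else j' q)
          (fun _ => 0) : Fin r ⊕ Fin n → ℕ) (Sum.inl p_1)) := by
      funext q
      simp only [mix, Sum.elim_inl, comp_apply, Equiv.Perm.coe_one, id_eq]
      split_ifs <;> rfl
    rw [h2]
    exact h1
  have hd1 : Disjoint (range fun q => cl (Sum.inl (π q)) 1)
      {x | ∃ l i, (Sum.elim (fun _ => 2) (fun _ => 0) : Fin r ⊕ Fin n → ℕ) l ≤ i ∧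
        i < (Sum.elim (fun _ => 2) (fun _ => 0) : Fin r ⊕ Fin n → ℕ) l + netcnt r n e l ∧
        x = cl l i} := by
    rw [Set.disjoint_left]
    rintro x ⟨q, rfl⟩ ⟨l, i, h1, h2, h3⟩
    obtain ⟨e1, e2⟩ := hinj' _ _ _ _ (lt_of_lt_of_le one_lt_two (two_le_SS r n e _)) h2 h3
    subst e1 e2
    simp at h1
  have hd2 : Disjoint ((range fun q => cl (Sum.inl (π q)) 1) ∪
      {x | ∃ l i, (Sum.elim (fun _ => 2) (fun _ => 0) : Fin r ⊕ Fin n → ℕ) l ≤ i ∧
        i < (Sum.elim (fun _ => 2) (fun _ => 0) : Fin r ⊕ Fin n → ℕ) l + netcnt r n e l ∧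
        x = cl l i}) (range fun p => cl (Sum.inl p) 0) := by
    rw [Set.disjoint_left]
    rintro x (⟨q, rfl⟩ | ⟨l, i, h1, h2, rfl⟩) ⟨q', h3⟩
    · obtain ⟨-, e2⟩ := hinj' _ _ _ _ (lt_of_lt_of_le zero_lt_two (two_le_SS r n e _))
        (lt_of_lt_of_le one_lt_two (two_le_SS r n e _)) h3
      exact absurd e2 (by norm_num)
    · obtain ⟨e1, e2⟩ := hinj' _ _ _ _ (lt_of_lt_of_le zero_lt_two (two_le_SS r n e _)) h2 h3
      subst e1 e2
      simp at h1
  have hP2 := ((Path.single hs).trans hP hd1).trans (Path.single hlast) hd2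
  have hY : {a | ∃ l i, i < SS r n e l ∧ a = cl l i} =
      ((range fun q => cl (Sum.inl (π q)) 1) ∪
      {x | ∃ l i, (Sum.elim (fun _ => 2) (fun _ => 0) : Fin r ⊕ Fin n → ℕ) l ≤ i ∧
        i < (Sum.elim (fun _ => 2) (fun _ => 0) : Fin r ⊕ Fin n → ℕ) l + netcnt r n e l ∧
        x = cl l i}) ∪ (range fun p => cl (Sum.inl p) 0) := by
    ext x
    constructor
    · rintro ⟨l, i, h1, rfl⟩
      cases l with
      | inl p =>
        rcases Nat.lt_or_ge i 2 with hi | hi
        · interval_cases i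
          · exact Or.inr ⟨p, rfl⟩
          · exact Or.inl (Or.inl ⟨π.symm p, by simp⟩)
        · exact Or.inl (Or.inr ⟨Sum.inl p, i, hi, h1, rfl⟩)
      | inr p => exact Or.inl (Or.inr ⟨Sum.inr p, i, Nat.zero_le _, h1, rfl⟩)
    · rintro ((⟨q, rfl⟩ | ⟨l, i, -, h2, rfl⟩) | ⟨q, rfl⟩)
      · exact ⟨_, _, lt_of_lt_of_le one_lt_two (two_le_SS r n e _), rfl⟩
      · exact ⟨l, i, h2, rfl⟩
      · exact ⟨_, _, lt_of_lt_of_le zero_lt_two (two_le_SS r n e _), rfl⟩
  rw [hY]
  exact hP2

/-- The swap network. -/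
theorem net_gadget (S : Sys M L blk r k D D') {n : ℕ} {e : ℕ → Fin r × Fin r}
    (hne : ∀ j < n, (e j).1 ≠ (e j).2) {cl : Fin r ⊕ Fin n → ℕ → α}
    (hinj : ∀ l j l' j', j < 3 * n + 2 → j' < 3 * n + 2 → cl l j = cl l' j' → l = l' ∧ j = j')
    (hreg : ∀ j : Fin r ⊕ Fin n → ℕ, (∀ l, j l < 3 * n + 2) →
      L.IsBase (range fun p => cl (Sum.inl p) (j (Sum.inl p))) ∧
      ∀ i : Fin n,
        L.IsBase (range (update (fun p => cl (Sum.inl p) (j (Sum.inl p))) (e i).1
          (cl (Sum.inr i) (j (Sum.inr i))))) ∧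
        L.IsBase (range (update (fun p => cl (Sum.inl p) (j (Sum.inl p))) (e i).2
          (cl (Sum.inr i) (j (Sum.inr i))))))
    (huniv : ∀ π : Equiv.Perm (Fin r),
      (∀ p, blk (cl (Sum.inl (π p)) 0) = blk (cl (Sum.inl p) 0)) →
      ∃ c : ℕ → Bool, netprod e c n * π = 1) :
    ∃ (ρ₀ : Fin r → α) (Y : Set α), range ρ₀ ⊆ Y ∧ L.IsBase (range ρ₀) ∧
      Y ⊆ {a | ∃ l j, j < 3 * n + 2 ∧ a = cl l j} ∧ Path L ρ₀ Y ρ₀ ∧
      ∀ ρ : Fin r → α, L.IsBase (range ρ) → blk ∘ ρ = blk ∘ ρ₀ → Disjoint (range ρ) Y →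
        Path L ρ Y ρ₀ := by
  have hb0 : ∀ f : Fin r → ℕ, (∀ p, f p < 3 * n + 2) →
      L.IsBase (range fun p => cl (Sum.inl p) (f p)) := fun f hf =>
    (hreg (Sum.elim f (fun _ => 0)) (by
      rintro (q | q)
      · exact hf q
      · exact Nat.succ_pos _)).1
  refine ⟨fun p => cl (Sum.inl p) 0, {a | ∃ l i, i < SS r n e l ∧ a = cl l i}, ?_, ?_, ?_, ?_, ?_⟩
  · rintro x ⟨q, rfl⟩
    exact ⟨_, _, lt_of_lt_of_le zero_lt_two (two_le_SS r n e _), rfl⟩
  · exact hb0 (fun _ => 0) fun _ => Nat.succ_pos _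
  · rintro x ⟨l, i, hi, rfl⟩
    exact ⟨l, i, lt_of_lt_of_le hi (SS_le _ _ _ _), rfl⟩
  · refine net_path (c := fun _ => false) (π := 1) hne hinj hreg ?_ ?_
    · rw [netprod_false, one_mul]
    · intro p hp
      have h1 := hb0 (fun q => if (q : ℕ) < p then 1 else 0) fun q => by
        split_ifs <;> omega
      have h2 : mix (fun p => cl (Sum.inl p) 0)
          (fun q => cl (Sum.inl ((1 : Equiv.Perm (Fin r)) q)) 1) p =
          fun q => cl (Sum.inl q) (if (q : ℕ) < p then 1 else 0) := by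
        funext q
        simp only [mix, Equiv.Perm.coe_one, id_eq]
        split_ifs <;> rfl
      rw [h2]
      exact h1
  · intro ρ hρ hblk hdisj
    have hfin := S.fin
    have hC : L.IsBase (range fun p => cl (Sum.inl p) 1) :=
      hb0 (fun _ => 1) fun _ => by omega
    have hCd : Disjoint (range ρ) (range fun p => cl (Sum.inl p) 1) := by
      refine hdisj.mono_right ?_
      rintro x ⟨q, rfl⟩
      exact ⟨_, _, lt_of_lt_of_le one_lt_two (two_le_SS r n e _), rfl⟩
    obtain ⟨ρ₁, hi1, hr1, hs1, hb1⟩ := serial (S.inj (S.weak _ hρ)) hρ hC hCd blk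
      (fun W W' hW hW' i => by rw [S.base_block hW, S.base_block hW'])
    have hex : ∀ q, ∃ p, cl (Sum.inl p) 1 = ρ₁ q := fun q => by
      have : ρ₁ q ∈ range fun p => cl (Sum.inl p) 1 := by
        rw [← hr1]
        exact mem_range_self q
      exact this
    choose f hf using hex
    have hfi : Injective f := fun a b hab => hi1 (by rw [← hf, ← hf, hab])
    have hfb : Bijective f := Finite.injective_iff_bijective.1 hfi
    set π : Equiv.Perm (Fin r) := Equiv.ofBijective f hfb with hπ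
    have hπf : ∀ q, π q = f q := fun q => rfl
    have hρ1 : ρ₁ = fun q => cl (Sum.inl (π q)) 1 := by
      funext q
      rw [hπf, hf]
    have h01 : ∀ p, blk (cl (Sum.inl p) 1) = blk (cl (Sum.inl p) 0) := by
      intro p
      have hx : L.IsBase (range fun p => cl (Sum.inl p) 0) := hb0 (fun _ => 0) fun _ => by omega
      refine S.exch_blk hx (p := p) (c := cl (Sum.inl p) 1) ?_
      have h1 := hb0 (fun q => if q = p then 1 else 0) fun q => by split_ifs <;> omega
      have h2 : update (fun p => cl (Sum.inl p) 0) p (cl (Sum.inl p) 1) =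
          fun q => cl (Sum.inl q) (if q = p then 1 else 0) := by
        funext q
        by_cases hq : q = p
        · subst hq
          simp
        · rw [update_of_ne hq, if_neg hq]
      rw [h2]
      exact h1
    obtain ⟨c, hc⟩ := huniv π fun p => by
      have h1 := congrFun hb1 p
      have h2 := congrFun hblk p
      simp only [comp_apply] at h1 h2
      rw [hρ1] at h1
      simp only at h1
      rw [← h01, h1, h2]
    refine net_path hne hinj hreg hc ?_
    rw [← hρ1]
    exact hs1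

end Helper86.CO
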