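import Pool.Agent.Helper86.CO.Box
import Pool.Agent.Helper86.CO.Count
import Pool.Agent.Helper86.CO.Supp

/-! Block B11: clones for an irregular base. -/

namespace Helper86.CO

open Set Function

universe u

private theorem irr_clones_zero (S : ℕ) {α : Type u} {M L : Matroid α} {q : ℕ} {blk : α → Fin q}
    {k D D' : ℕ} (h : Sys M L blk 0 k D D') (W U : Set α) (hW : M.IsBase W) :
      ∃ (y : Fin 0 → α) (cl : Fin 0 → ℕ → α), Injective y ∧ range y = W ∧
        (∀ p j p' j', j < S → j' < S → cl p j = cl p' j' → p = p' ∧ j = j') ∧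
        (∀ p j, j < S → cl p j ∉ U) ∧
        (∀ j : Fin 0 → ℕ, (∀ p, j p < S) → L.IsBase (range fun p => cl p (j p))) ∧
        (∀ j : Fin 0 → ℕ, (∀ p, j p < S) → ∀ p',
          M.IsBase (range (update (fun p => cl p (j p)) p' (y p')))) := by
  have hfin : Finite α := h.fin
  have hW0 : W = ∅ := (Set.ncard_eq_zero (Set.toFinite _)).1 (h.base_ncard hW)
  refine ⟨fun p => p.elim0, fun p => p.elim0, fun p => p.elim0, ?_, fun p => p.elim0,
    fun p => p.elim0, fun j _ => ?_, fun j _ p => p.elim0⟩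
  · rw [hW0, range_eq_empty]
  · obtain ⟨B, hB⟩ := L.exists_isBase
    have hB0 : B = ∅ := (Set.ncard_eq_zero (Set.toFinite _)).1 (h.base_ncard (h.weak B hB))
    rw [range_eq_empty, ← hB0]
    exact hB

theorem irr_clones (r S : ℕ) :
    ∃ K : ℕ, ∀ {α : Type u} {M L : Matroid α} {q : ℕ} {blk : α → Fin q} {k D D' : ℕ},
      Sys M L blk r k D D' → K ≤ k → ∀ W U : Set α, M.IsBase W → W ⊆ U →
      2 * (D + U.ncard) ≤ k →
      ∃ (y : Fin r → α) (cl : Fin r → ℕ → α), Injective y ∧ range y = W ∧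
        (∀ p j p' j', j < S → j' < S → cl p j = cl p' j' → p = p' ∧ j = j') ∧
        (∀ p j, j < S → cl p j ∉ U) ∧
        (∀ j : Fin r → ℕ, (∀ p, j p < S) → L.IsBase (range fun p => cl p (j p))) ∧
        (∀ j : Fin r → ℕ, (∀ p, j p < S) → ∀ p',
          M.IsBase (range (update (fun p => cl p (j p)) p' (y p')))) := by
  classical
  obtain ⟨n₀, hbox⟩ := box.{u} (Fin r) S (2 ^ r * (r ^ r * r ^ r))
  refine ⟨n₀ + 1, ?_⟩
  intro α M L q blk k D D' h hk W U hW _ hU
  rcases Nat.eq_zero_or_pos r with hr | hr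
  · subst hr
    exact irr_clones_zero S h W U hW
  have hfin : Finite α := h.fin
  have := Fintype.ofFinite α
  have hkr : n₀ ≤ Nat.card α := by
    rw [h.card]
    calc n₀ ≤ k * 1 := by omega
      _ ≤ k * r := Nat.mul_le_mul_left _ hr
  -- the regular rows
  set R : Finset (Fin r → α) := Finset.univ.filter
    (fun x => L.IsBase (range x) ∧ ∀ p, x p ∉ U) with hR
  have hRmem : ∀ x, x ∈ R ↔ L.IsBase (range x) ∧ ∀ p, x p ∉ U := fun x => by simp [hR]
  have hcount : k ^ r ≤ 2 ^ r * R.card := by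
    have h1 := reg_count h U hU
    have h2 : {x : Fin r → α | L.IsBase (range x) ∧ ∀ p, x p ∉ U}.ncard = R.card := by
      rw [← Set.ncard_coe_finset]; congr 1; ext x; simp [hR]
    rwa [h2] at h1
  have hRpos : 0 < R.card := by
    rcases Nat.eq_zero_or_pos R.card with h0 | h0
    · rw [h0, Nat.mul_zero] at hcount
      have : 0 < k ^ r := pow_pos (by omega) _
      omega
    · exact h0
  -- the exchange bijections
  have hy : ∀ x ∈ R, ∃ y : Fin r → α, Injective y ∧ range y = W ∧
      ∀ p, M.IsBase (range (update x p (y p))) := fun x hx =>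
    exists_hall (h.inj (h.weak _ ((hRmem x).1 hx).1)) (h.weak _ ((hRmem x).1 hx).1) hW
  choose! Y hYi hYr hYb using hy
  set WF : Finset α := Finset.univ.filter (fun z => z ∈ W) with hWF
  have hWFc : WF.card = r := by
    rw [← h.base_ncard hW, ← Set.ncard_coe_finset]; congr 1; ext x; simp [hWF]
  set T : Finset (Fin r → α) := Fintype.piFinset (fun _ => WF) with hT
  have hTc : T.card = r ^ r := by
    rw [hT, Fintype.card_piFinset]
    simp [hWFc]
  have hmaps : ∀ x ∈ R, Y x ∈ T := by
    intro x hx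
    rw [hT, Fintype.mem_piFinset]
    intro p
    rw [hWF, Finset.mem_filter]
    refine ⟨Finset.mem_univ _, ?_⟩
    rw [← hYr x hx]
    exact mem_range_self p
  obtain ⟨y, hyT, hyc⟩ : ∃ y ∈ T, R.card ≤ r ^ r * (R.filter fun x => Y x = y).card := by
    by_contra hcon
    push Not at hcon
    obtain ⟨x0, hx0⟩ := Finset.card_pos.1 hRpos
    have h1 : R.card = ∑ y ∈ T, (R.filter fun x => Y x = y).card :=
      Finset.card_eq_sum_card_fiberwise fun x hx => hmaps x hx
    have h3 : ∑ y ∈ T, r ^ r * (R.filter fun x => Y x = y).card < ∑ _y ∈ T, R.card :=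
      Finset.sum_lt_sum_of_nonempty ⟨Y x0, hmaps x0 hx0⟩ fun y hy => hcon y hy
    rw [← Finset.mul_sum, ← h1, Finset.sum_const, smul_eq_mul, hTc] at h3
    exact lt_irrefl _ h3
  have hfib : 0 < (R.filter fun x => Y x = y).card := by
    rcases Nat.eq_zero_or_pos (R.filter fun x => Y x = y).card with h0 | h0
    · rw [h0, Nat.mul_zero] at hyc
      omega
    · exact h0
  obtain ⟨x1, hx1⟩ := Finset.card_pos.1 hfib
  obtain ⟨hx1R, hx1y⟩ := Finset.mem_filter.1 hx1
  -- the dense set of rows
  set H : Set (Fin r → α) := {x | L.IsBase (range x) ∧ (∀ p, x p ∉ U) ∧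
    ∀ p, M.IsBase (range (update x p (y p)))} with hH
  have hsub : ((R.filter fun x => Y x = y : Finset (Fin r → α)) : Set (Fin r → α)) ⊆ H := by
    intro x hx
    obtain ⟨hxR, hxy⟩ := Finset.mem_filter.1 (Finset.mem_coe.1 hx)
    have h1 := (hRmem x).1 hxR
    refine ⟨h1.1, h1.2, ?_⟩
    rw [← hxy]
    exact hYb x hxR
  have hHc : (R.filter fun x => Y x = y).card ≤ H.ncard := by
    rw [← Set.ncard_coe_finset]
    exact Set.ncard_le_ncard hsub (Set.toFinite _)
  obtain ⟨A, hA, hAH⟩ := hbox α hkr H (by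
    rw [h.card, Fintype.card_fin, mul_pow]
    calc k ^ r * r ^ r ≤ (2 ^ r * R.card) * r ^ r := Nat.mul_le_mul_right _ hcount
      _ ≤ (2 ^ r * (r ^ r * H.ncard)) * r ^ r :=
          Nat.mul_le_mul_right _ (Nat.mul_le_mul_left _
            (hyc.trans (Nat.mul_le_mul_left _ hHc)))
      _ = 2 ^ r * (r ^ r * r ^ r) * H.ncard := by ring)
  obtain ⟨a0⟩ : Nonempty α := ⟨y ⟨0, hr⟩⟩
  set cl : Fin r → ℕ → α := fun p j =>
    if hj : j < S then ((Finset.equivFinOfCardEq (hA p)).symm ⟨j, hj⟩ : α) else a0 with hcl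
  have hclA : ∀ p j, j < S → cl p j ∈ A p := by
    intro p j hj
    simp only [hcl, dif_pos hj]
    exact Finset.coe_mem _
  have hclH : ∀ g : Fin r → ℕ, (∀ p, g p < S) → (fun p => cl p (g p)) ∈ H := fun g hg =>
    hAH _ fun p => hclA p _ (hg p)
  refine ⟨y, cl, ?_, ?_, ?_, ?_, ?_, ?_⟩
  · rw [← hx1y]
    exact hYi x1 hx1R
  · rw [← hx1y]
    exact hYr x1 hx1R
  · intro p j p' j' hj hj' he
    by_cases hp : p = p'
    · subst hp
      refine ⟨rfl, ?_⟩
      simp only [hcl, dif_pos hj, dif_pos hj'] at he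
      have h1 := (Finset.equivFinOfCardEq (hA p)).symm.injective (Subtype.ext he)
      exact congrArg Fin.val h1
    · exfalso
      have hg : ∀ i, (update (update (fun _ : Fin r => j) p j) p' j') i < S := by
        intro i
        by_cases hi : i = p'
        · rw [hi, update_self]; exact hj'
        · rw [update_of_ne hi]
          by_cases hi2 : i = p
          · rw [hi2, update_self]; exact hj
          · rw [update_of_ne hi2]; exact hj
      have h1 := hclH _ hg
      have h2 := h.inj (h.weak _ h1.1)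
      refine hp (h2 ?_)
      simp only [update_self]
      rw [update_of_ne hp, update_self]
      exact he
  · intro p j hj
    exact (hclH (fun _ => j) fun _ => hj).2.1 p
  · intro j hj
    exact (hclH j hj).1
  · intro j hj p'
    exact (hclH j hj).2.2 p'

end Helper86.CO
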