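import Pool.Agent.Helper86.CO.Defs

/-! Block B7b: universal lists of swaps. -/

namespace Helper86.CO

open Set Function

theorem netprod_congr {r : ℕ} {e e' : ℕ → Fin r × Fin r} {c c' : ℕ → Bool} (n : ℕ)
    (he : ∀ j < n, e j = e' j) (hc : ∀ j < n, c j = c' j) : netprod e c n = netprod e' c' n := by
  induction n with
  | zero => rfl
  | succ n ih =>
    have h1 := ih (fun j hj => he j (by omega)) (fun j hj => hc j (by omega))
    simp only [netprod, h1, he n (by omega), hc n (by omega)]

theorem netprod_false {r : ℕ} (e : ℕ → Fin r × Fin r) (c : ℕ → Bool) (n : ℕ)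
    (hc : ∀ j < n, c j = false) : netprod e c n = 1 := by
  induction n with
  | zero => rfl
  | succ n ih =>
    have h1 := ih (fun j hj => hc j (by omega))
    simp only [netprod, h1, hc n (by omega)]
    simp

theorem netprod_add {r : ℕ} (e : ℕ → Fin r × Fin r) (c : ℕ → Bool) (n k : ℕ) :
    netprod e c (n + k) = netprod (fun j => e (n + j)) (fun j => c (n + j)) k * netprod e c n := by
  induction k with
  | zero => simp [netprod]
  | succ k ih =>
    rw [← add_assoc]
    simp only [netprod, ih, mul_assoc]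

/-- The permutation `P` is the product of a list of swaps in `T`. -/
def Real {r : ℕ} (T : Set (Fin r × Fin r)) (P : Equiv.Perm (Fin r)) : Prop :=
  ∃ (k : ℕ) (e : ℕ → Fin r × Fin r), (∀ j < k, e j ∈ T) ∧ netprod e (fun _ => true) k = P

theorem Real.mul {r : ℕ} {T : Set (Fin r × Fin r)} {P Q : Equiv.Perm (Fin r)} (hP : Real T P)
    (hQ : Real T Q) : Real T (P * Q) := by
  obtain ⟨k, e, he, rfl⟩ := hP
  obtain ⟨n, f, hf, rfl⟩ := hQ
  refine ⟨n + k, fun j => if j < n then f j else e (j - n), ?_, ?_⟩
  · intro j hj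
    by_cases h : j < n
    · simp only [if_pos h]; exact hf j h
    · simp only [if_neg h]; exact he _ (by omega)
  · rw [netprod_add]
    congr 1
    · refine netprod_congr k (fun j _ => ?_) (fun _ _ => rfl)
      have h : ¬ (n + j < n) := by omega
      simp only [if_neg h, Nat.add_sub_cancel_left]
    · exact netprod_congr n (fun j hj => by simp only [if_pos hj]) (fun _ _ => rfl)

theorem real_of_mem {r : ℕ} (hr : 0 < r) {T : Set (Fin r × Fin r)} {P : Equiv.Perm (Fin r)}
    (hP : P ∈ Subgroup.closure
      {f : Equiv.Perm (Fin r) | ∃ a b, a ≠ b ∧ (a, b) ∈ T ∧ f = Equiv.swap a b}) : Real T P := by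
  have h1 : P ∈ Submonoid.closure
      {f : Equiv.Perm (Fin r) | ∃ a b, a ≠ b ∧ (a, b) ∈ T ∧ f = Equiv.swap a b} := by
    rw [← Subgroup.closure_toSubmonoid_of_finite]
    exact hP
  refine Submonoid.closure_induction (motive := fun P _ => Real T P) ?_ ?_ ?_ h1
  · rintro _ ⟨a, b, _, hab, rfl⟩
    exact ⟨1, fun _ => (a, b), fun _ _ => hab, by simp [netprod]⟩
  · exact ⟨0, fun _ => (⟨0, hr⟩, ⟨0, hr⟩), fun j hj => absurd hj (Nat.not_lt_zero j), rfl⟩
  · intro x y _ _ hx hy
    exact hx.mul hy

theorem mem_of_reach {r : ℕ} {T : Set (Fin r × Fin r)} {π : Equiv.Perm (Fin r)}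
    (hπ : ∀ p, Relation.ReflTransGen (fun a b => (a, b) ∈ T) p (π p)) :
    π ∈ Subgroup.closure
      {f : Equiv.Perm (Fin r) | ∃ a b, a ≠ b ∧ (a, b) ∈ T ∧ f = Equiv.swap a b} := by
  rw [mem_closure_isSwap]
  · refine ⟨Set.toFinite _, fun p => ?_⟩
    have key : ∀ q, Relation.ReflTransGen (fun a b => (a, b) ∈ T) p q →
        q ∈ MulAction.orbit (Subgroup.closure
          {f : Equiv.Perm (Fin r) | ∃ a b, a ≠ b ∧ (a, b) ∈ T ∧ f = Equiv.swap a b}) p := by
      intro q hq
      induction hq with
      | refl => exact MulAction.mem_orbit_self p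
      | @tail b c _ hbc ih =>
        by_cases hne : b = c
        · rwa [← hne]
        · obtain ⟨g, hg⟩ := ih
          refine ⟨⟨Equiv.swap b c, Subgroup.subset_closure ⟨b, c, hne, hbc, rfl⟩⟩ * g, ?_⟩
          have hg' : g • p = b := hg
          change (⟨Equiv.swap b c, _⟩ * g : Subgroup.closure _) • p = c
          rw [mul_smul, hg']
          change Equiv.swap b c b = c
          exact Equiv.swap_apply_left b c
    exact key _ (hπ p)
  · rintro _ ⟨a, b, hne, _, rfl⟩
    exact ⟨a, b, hne, rfl⟩

/-- A universal list for finitely many permutations. -/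
theorem list_of_list {r : ℕ} (hr : 0 < r) (T : Set (Fin r × Fin r))
    (l : List (Equiv.Perm (Fin r))) (hl : ∀ P ∈ l, Real T P) :
    ∃ (n : ℕ) (e : ℕ → Fin r × Fin r), (∀ j < n, e j ∈ T) ∧
      ∀ P ∈ l, ∃ c : ℕ → Bool, netprod e c n = P := by
  induction l with
  | nil => exact ⟨0, fun _ => (⟨0, hr⟩, ⟨0, hr⟩), fun j hj => absurd hj (Nat.not_lt_zero j),
      fun P hP => absurd hP List.not_mem_nil⟩
  | cons Q l ih =>
    obtain ⟨n, e, he, H⟩ := ih fun P hP => hl P (List.mem_cons_of_mem _ hP)
    obtain ⟨k, f, hf, hQ⟩ := hl Q List.mem_cons_self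
    refine ⟨n + k, fun j => if j < n then e j else f (j - n), ?_, ?_⟩
    · intro j hj
      by_cases h : j < n
      · simp only [if_pos h]; exact he j h
      · simp only [if_neg h]; exact hf _ (by omega)
    · intro P hP
      rcases List.mem_cons.mp hP with rfl | hP
      · refine ⟨fun j => if j < n then false else true, ?_⟩
        rw [netprod_add, netprod_false (n := n) _ _ (fun j hj => by simp only [if_pos hj]), mul_one,
          ← hQ]
        refine netprod_congr k (fun j _ => ?_) (fun j _ => ?_)
        · have h : ¬ (n + j < n) := by omega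
          simp only [if_neg h, Nat.add_sub_cancel_left]
        · have h : ¬ (n + j < n) := by omega
          simp only [if_neg h]
      · obtain ⟨c, hc⟩ := H P hP
        refine ⟨fun j => if j < n then c j else false, ?_⟩
        rw [netprod_add, netprod_false (n := k) _ _ (fun j _ => ?_), one_mul, ← hc]
        · exact netprod_congr n (fun j hj => by simp only [if_pos hj])
            (fun j hj => by simp only [if_pos hj])
        · have h : ¬ (n + j < n) := by omega
          simp only [if_neg h]

/-- For every set `T` of pairs there is a list of swaps in `T` which can sort every permutation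
mapping every point into its own component. -/
theorem universal_list (r : ℕ) (hr : 0 < r) (T : Set (Fin r × Fin r)) :
    ∃ (n : ℕ) (e : ℕ → Fin r × Fin r), (∀ j < n, e j ∈ T) ∧
      ∀ π : Equiv.Perm (Fin r),
        (∀ p, Relation.ReflTransGen (fun a b => (a, b) ∈ T) p (π p)) →
        ∃ c : ℕ → Bool, netprod e c n * π = 1 := by
  classical
  set H := Subgroup.closure
      {f : Equiv.Perm (Fin r) | ∃ a b, a ≠ b ∧ (a, b) ∈ T ∧ f = Equiv.swap a b} with hH
  obtain ⟨n, e, he, h⟩ := list_of_list hr T
    ((Finset.univ.filter fun P : Equiv.Perm (Fin r) => P ∈ H).toList)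
    (fun P hP => real_of_mem hr (by simpa using hP))
  refine ⟨n, e, he, fun π hπ => ?_⟩
  obtain ⟨c, hc⟩ := h π⁻¹ (by simpa using mem_of_reach hπ)
  exact ⟨c, by rw [hc, inv_mul_cancel]⟩

end Helper86.CO
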