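import Pool.Agent.Helper86.CO.Box
import Pool.Agent.Helper86.CO.Count
import Pool.Agent.Helper86.CO.Conn
import Pool.Agent.Helper86.CO.Universal

/-! Block B13: clones for the swap network. -/

namespace Helper86.CO

open Set Function

universe u

/-- The connectors of the network, chosen one after the other. -/
private theorem conn_count {α : Type u} [Finite α] (L : Matroid α) {r n t N : ℕ}
    (e : ℕ → Fin r × Fin r) (x : Fin r → α) (U : Set α)
    (he : ∀ j < n, Linked L x t (e j).1 (e j).2) (hn : n ≤ N) :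
    (t - (U.ncard + r + N)) ^ n ≤ {c : Fin n → α | Injective c ∧ (∀ i, c i ∉ U) ∧
      (∀ i, c i ∉ range x) ∧ ∀ i : Fin n, L.IsBase (range (update x (e i).1 (c i))) ∧
        L.IsBase (range (update x (e i).2 (c i)))}.ncard := by
  refine count_ext (fun j c => Injective c ∧ (∀ i, c i ∉ U) ∧
      (∀ i, c i ∉ range x) ∧ ∀ i : Fin j, L.IsBase (range (update x (e i).1 (c i))) ∧
        L.IsBase (range (update x (e i).2 (c i)))) n _ ?_ ?_
  · intro f
    exact ⟨fun i => i.elim0, fun i => i.elim0, fun i => i.elim0, fun i => i.elim0⟩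
  · intro j hj f hf
    obtain ⟨hinj, hU, hx, hbase⟩ := hf
    have hlink := (he j hj).2
    set A : Set α := {c | L.IsBase (range (update x (e j).1 c)) ∧
      L.IsBase (range (update x (e j).2 c))} with hA
    have hsub : A \ (U ∪ range x ∪ range f) ⊆
        {a | Injective (Fin.snoc f a : Fin (j + 1) → α) ∧
          (∀ i, (Fin.snoc f a : Fin (j + 1) → α) i ∉ U) ∧
          (∀ i, (Fin.snoc f a : Fin (j + 1) → α) i ∉ range x) ∧
          ∀ i : Fin (j + 1),
            L.IsBase (range (update x (e i).1 ((Fin.snoc f a : Fin (j + 1) → α) i))) ∧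
            L.IsBase (range (update x (e i).2 ((Fin.snoc f a : Fin (j + 1) → α) i)))} := by
      rintro a ⟨haA, haU⟩
      have ha1 : a ∉ U := fun h => haU (Or.inl (Or.inl h))
      have ha2 : a ∉ range x := fun h => haU (Or.inl (Or.inr h))
      have ha3 : a ∉ range f := fun h => haU (Or.inr h)
      refine ⟨?_, ?_, ?_, ?_⟩
      · rw [Fin.snoc_injective_iff]
        exact ⟨hinj, ha3⟩
      · intro i
        refine Fin.lastCases ?_ (fun i => ?_) i
        · rwa [Fin.snoc_last]
        · rw [Fin.snoc_castSucc]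
          exact hU i
      · intro i
        refine Fin.lastCases ?_ (fun i => ?_) i
        · rwa [Fin.snoc_last]
        · rw [Fin.snoc_castSucc]
          exact hx i
      · intro i
        refine Fin.lastCases ?_ (fun i => ?_) i
        · rw [Fin.snoc_last]
          exact haA
        · rw [Fin.snoc_castSucc]
          exact hbase i
    refine le_trans ?_ (Set.ncard_le_ncard hsub (Set.toFinite _))
    refine le_trans ?_ (Set.le_ncard_sdiff (U ∪ range x ∪ range f) A (Set.toFinite _))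
    have h1 : (range x).ncard ≤ r := by
      rw [← Set.image_univ]
      refine (Set.ncard_image_le (Set.toFinite _)).trans ?_
      rw [Set.ncard_univ, Nat.card_eq_fintype_card, Fintype.card_fin]
    have h2 : (range f).ncard ≤ j := by
      rw [← Set.image_univ]
      refine (Set.ncard_image_le (Set.toFinite _)).trans ?_
      rw [Set.ncard_univ, Nat.card_eq_fintype_card, Fintype.card_fin]
    have h3 := Set.ncard_union_le (U ∪ range x) (range f)
    have h4 := Set.ncard_union_le U (range x)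
    omega

private theorem fiber_count {ι κ : Type} {α : Type u} [Finite α] [Fintype ι] [Fintype κ]
    (X : Set (ι → α)) (F : (ι → α) → Set (κ → α)) (m : ℕ) (h : ∀ x ∈ X, m ≤ (F x).ncard)
    (H : Set (ι ⊕ κ → α)) (hH : ∀ x ∈ X, ∀ c ∈ F x, Sum.elim x c ∈ H) :
    X.ncard * m ≤ H.ncard := by
  classical
  have : Fintype α := Fintype.ofFinite α
  have hX := Set.toFinite X
  have hF : ∀ x, (F x).Finite := fun x => Set.toFinite _
  have hHf := Set.toFinite H
  rw [Set.ncard_eq_toFinset_card X hX, Set.ncard_eq_toFinset_card H hHf]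
  have h1 : hX.toFinset.card * m ≤ (hX.toFinset.sigma fun x => (hF x).toFinset).card := by
    rw [Finset.card_sigma, ← smul_eq_mul]
    refine Finset.card_nsmul_le_sum _ _ _ fun x hx => ?_
    rw [← Set.ncard_eq_toFinset_card (F x) (hF x)]
    exact h x ((Set.Finite.mem_toFinset hX).1 hx)
  refine h1.trans ?_
  refine Finset.card_le_card_of_injOn (fun p => Sum.elim p.1 p.2) ?_ ?_
  · rintro ⟨x, c⟩ hp
    simp only [Finset.coe_sigma, Set.mem_sigma_iff, Finset.mem_coe, Set.Finite.mem_toFinset] at hp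
    simp only [Finset.mem_coe, Set.Finite.mem_toFinset]
    exact hH x hp.1 c hp.2
  · rintro ⟨x, c⟩ _ ⟨x', c'⟩ _ hxc
    simp only at hxc
    have e1 : x = x' := by
      funext i
      simpa using congrFun hxc (Sum.inl i)
    have e2 : c = c' := by
      funext i
      simpa using congrFun hxc (Sum.inr i)
    subst e1 e2
    rfl

private theorem pigeon {α : Type u} [Finite α] {r : ℕ} (X : Set (Fin r → α))
    (T : (Fin r → α) → Set (Fin r × Fin r)) :
    ∃ T₀, X.ncard ≤ 2 ^ (r * r) * {x | x ∈ X ∧ T x = T₀}.ncard := by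
  classical
  have : Fintype α := Fintype.ofFinite α
  have hX := Set.toFinite X
  have hcard : (Finset.univ : Finset (Set (Fin r × Fin r))).card = 2 ^ (r * r) := by
    rw [Finset.card_univ, Fintype.card_set, Fintype.card_prod, Fintype.card_fin]
  have hsum : X.ncard = ∑ T₀ : Set (Fin r × Fin r), {x | x ∈ X ∧ T x = T₀}.ncard := by
    rw [Set.ncard_eq_toFinset_card X hX,
      Finset.card_eq_sum_card_fiberwise (f := T) (t := Finset.univ)
        (fun x _ => Finset.mem_coe.2 (Finset.mem_univ _))]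
    refine Finset.sum_congr rfl fun T₀ _ => ?_
    rw [Set.ncard_eq_toFinset_card _ (Set.toFinite _)]
    congr 1
    ext x
    rw [Finset.mem_filter, Set.Finite.mem_toFinset, Set.Finite.mem_toFinset]
    rfl
  obtain ⟨T₀, -, hT₀⟩ := Finset.exists_le_of_sum_le
    (s := (Finset.univ : Finset (Set (Fin r × Fin r)))) (f := fun _ => X.ncard)
    (g := fun T₀ => 2 ^ (r * r) * {x | x ∈ X ∧ T x = T₀}.ncard) ⟨∅, Finset.mem_univ _⟩ (by
      rw [Finset.sum_const, hcard, ← Finset.mul_sum, ← hsum, smul_eq_mul])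
  exact ⟨T₀, hT₀⟩

theorem net_clones (r : ℕ) (hr : 0 < r) (b : ℕ) :
    ∃ K N : ℕ, ∀ {α : Type u} {M L : Matroid α} {q : ℕ} {blk : α → Fin q} {k D D' : ℕ},
      Sys M L blk r k D D' → K ≤ k → k ≤ b * D' → ∀ U : Set α, 2 * (D + U.ncard) ≤ k →
      6 * D ≤ D' → 4 * r * r * (U.ncard + r + N) ≤ D' →
      ∃ n ≤ N, ∃ (e : ℕ → Fin r × Fin r) (cl : Fin r ⊕ Fin n → ℕ → α),
        (∀ j < n, (e j).1 ≠ (e j).2) ∧
        (∀ l j l' j', j < 3 * n + 2 → j' < 3 * n + 2 → cl l j = cl l' j' → l = l' ∧ j = j') ∧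
        (∀ l j, j < 3 * n + 2 → cl l j ∉ U) ∧
        (∀ j : Fin r ⊕ Fin n → ℕ, (∀ l, j l < 3 * n + 2) →
          L.IsBase (range fun p => cl (Sum.inl p) (j (Sum.inl p))) ∧
          ∀ i : Fin n,
            L.IsBase (range (update (fun p => cl (Sum.inl p) (j (Sum.inl p))) (e i).1
              (cl (Sum.inr i) (j (Sum.inr i))))) ∧
            L.IsBase (range (update (fun p => cl (Sum.inl p) (j (Sum.inl p))) (e i).2
              (cl (Sum.inr i) (j (Sum.inr i)))))) ∧
        (∀ π : Equiv.Perm (Fin r),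
          (∀ p, blk (cl (Sum.inl (π p)) 0) = blk (cl (Sum.inl p) 0)) →
          ∃ c : ℕ → Bool, netprod e c n * π = 1) := by
  classical
  choose nT eT heT huT using universal_list r hr
  choose n₀ hn₀ using fun T : Set (Fin r × Fin r) =>
    box.{u} (Fin r ⊕ Fin (nT T)) (3 * nT T + 2)
      (2 ^ r * 2 ^ (r * r) * (4 * b * r * r) ^ (nT T) * r ^ (r + nT T))
  refine ⟨Finset.univ.sup n₀, Finset.univ.sup nT, ?_⟩
  intro α M L q blk k D D' S hK hkb U hU hD hD'
  set N := (Finset.univ : Finset (Set (Fin r × Fin r))).sup nT with hN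
  have hfin : Finite α := S.fin
  have hnN : ∀ T, nT T ≤ N := fun T => Finset.le_sup (f := nT) (Finset.mem_univ T)
  have hrr : 0 < r * r := Nat.mul_pos hr hr
  set t := D' / (r * r) with ht
  set m := t - (U.ncard + r + N) with hm
  -- numbers
  have hrrt : r * r * t ≤ D' := Nat.mul_div_le D' (r * r)
  have hlt : D' < r * r * (t + 1) := by
    rw [ht]
    exact Nat.lt_mul_div_succ D' hrr
  have ht4 : 4 * (U.ncard + r + N) ≤ t := by
    rw [ht, Nat.le_div_iff_mul_le hrr]
    calc 4 * (U.ncard + r + N) * (r * r) = 4 * r * r * (U.ncard + r + N) := by ring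
      _ ≤ D' := hD'
  have hD'0 : 0 < D' := by
    have : 0 < 4 * r * r * (U.ncard + r + N) := by positivity
    omega
  have htm : t + 1 ≤ 4 * m := by omega
  have hkm : k ≤ 4 * b * r * r * m := by
    calc k ≤ b * D' := hkb
      _ ≤ b * (r * r * (t + 1)) := Nat.mul_le_mul_left _ hlt.le
      _ ≤ b * (r * r * (4 * m)) := Nat.mul_le_mul_left _ (Nat.mul_le_mul_left _ htm)
      _ = 4 * b * r * r * m := by ring
  have hconn : r * r * t + 3 * D < 2 * D' := by omega
  -- the regular rows and their sharing graphs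
  set X : Set (Fin r → α) := {x | L.IsBase (range x) ∧ ∀ p, x p ∉ U} with hX
  set T : (Fin r → α) → Set (Fin r × Fin r) := fun x => {a | Linked L x t a.1 a.2} with hT
  obtain ⟨T₀, hT₀⟩ := pigeon X T
  have hreg : k ^ r ≤ 2 ^ r * X.ncard := reg_count S U hU
  set n := nT T₀ with hn
  set e := eT T₀ with he
  set H : Set (Fin r ⊕ Fin n → α) := {f | (f ∘ Sum.inl ∈ X ∧ T (f ∘ Sum.inl) = T₀) ∧
    (Injective f ∧ ∀ l, f l ∉ U) ∧
    ∀ i : Fin n, L.IsBase (range (update (f ∘ Sum.inl) (e i).1 (f (Sum.inr i)))) ∧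
      L.IsBase (range (update (f ∘ Sum.inl) (e i).2 (f (Sum.inr i))))} with hH
  have hcount : {x | x ∈ X ∧ T x = T₀}.ncard * m ^ n ≤ H.ncard := by
    refine fiber_count {x | x ∈ X ∧ T x = T₀} (fun x => {c : Fin n → α | Injective c ∧
      (∀ i, c i ∉ U) ∧ (∀ i, c i ∉ range x) ∧
      ∀ i : Fin n, L.IsBase (range (update x (e i).1 (c i))) ∧
        L.IsBase (range (update x (e i).2 (c i)))}) (m ^ n) ?_ H ?_
    · rintro x ⟨-, hxT⟩
      refine conn_count L e x U (fun j hj => ?_) (hnN T₀)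
      have h1 : e j ∈ T x := by
        rw [hxT]
        exact heT T₀ j hj
      exact h1
    · rintro x ⟨hxX, hxT⟩ c ⟨hc1, hc2, hc3, hc4⟩
      refine ⟨⟨by rwa [Sum.elim_comp_inl], by rwa [Sum.elim_comp_inl]⟩, ⟨?_, ?_⟩, ?_⟩
      · refine Function.Injective.sumElim (S.inj (S.weak _ hxX.1)) hc1 fun p i hpi => ?_
        exact hc3 i ⟨p, hpi⟩
      · rintro (p | i)
        · exact hxX.2 p
        · exact hc2 i
      · intro i
        rw [Sum.elim_comp_inl]
        exact hc4 i
  have hdense : Nat.card α ^ Fintype.card (Fin r ⊕ Fin n) ≤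
      (2 ^ r * 2 ^ (r * r) * (4 * b * r * r) ^ n * r ^ (r + n)) * H.ncard := by
    rw [S.card, Fintype.card_sum, Fintype.card_fin, Fintype.card_fin, mul_pow, pow_add k]
    have h1 : k ^ r ≤ 2 ^ r * (2 ^ (r * r) * {x | x ∈ X ∧ T x = T₀}.ncard) :=
      hreg.trans (Nat.mul_le_mul_left _ hT₀)
    have h2 : k ^ n ≤ (4 * b * r * r * m) ^ n := Nat.pow_le_pow_left hkm n
    calc k ^ r * k ^ n * r ^ (r + n)
        ≤ (2 ^ r * (2 ^ (r * r) * {x | x ∈ X ∧ T x = T₀}.ncard)) * (4 * b * r * r * m) ^ n *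
          r ^ (r + n) := Nat.mul_le_mul_right _ (Nat.mul_le_mul h1 h2)
      _ = (2 ^ r * 2 ^ (r * r) * (4 * b * r * r) ^ n * r ^ (r + n)) *
          ({x | x ∈ X ∧ T x = T₀}.ncard * m ^ n) := by
          rw [mul_pow]
          ring
      _ ≤ _ := Nat.mul_le_mul_left _ hcount
  have hbig : n₀ T₀ ≤ Nat.card α := by
    rw [S.card]
    calc n₀ T₀ ≤ Finset.univ.sup n₀ := Finset.le_sup (f := n₀) (Finset.mem_univ T₀)
      _ ≤ k := hK
      _ ≤ k * r := Nat.le_mul_of_pos_right k hr
  obtain ⟨A, hA, hbox⟩ := hn₀ T₀ α hbig H hdense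
  -- the clones
  let cl : Fin r ⊕ Fin n → ℕ → α := fun l j =>
    (((A l).equivFinOfCardEq (hA l)).symm ⟨j % (3 * n + 2), Nat.mod_lt _ (by omega)⟩ : A l)
  have hcl : ∀ l j, cl l j ∈ A l := fun l j => Subtype.coe_prop _
  have hclH : ∀ j : Fin r ⊕ Fin n → ℕ, (fun l => cl l (j l)) ∈ H := fun j =>
    hbox _ fun l => hcl l (j l)
  refine ⟨n, hnN T₀, e, cl, ?_, ?_, ?_, ?_, ?_⟩
  · intro j hj
    have h1 := hclH fun _ => 0
    have h2 : e j ∈ T ((fun l => cl l 0) ∘ Sum.inl) := by
      rw [h1.1.2]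
      exact heT T₀ j hj
    exact h2.1
  · intro l j l' j' hj hj' hll
    have hl : l = l' := by
      by_contra hne
      have h1 := hclH fun a => if a = l then j else j'
      have h2 := h1.2.1.1 (a₁ := l) (a₂ := l') (by
        simp only [if_true, if_neg (Ne.symm hne)]
        exact hll)
      exact hne h2
    subst hl
    refine ⟨rfl, ?_⟩
    have h1 : (((A l).equivFinOfCardEq (hA l)).symm ⟨j % (3 * n + 2), Nat.mod_lt _ (by omega)⟩) =
        (((A l).equivFinOfCardEq (hA l)).symm ⟨j' % (3 * n + 2), Nat.mod_lt _ (by omega)⟩) :=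
      Subtype.ext hll
    have h2 := ((A l).equivFinOfCardEq (hA l)).symm.injective h1
    have h3 := congrArg Fin.val h2
    simp only at h3
    rwa [Nat.mod_eq_of_lt hj, Nat.mod_eq_of_lt hj'] at h3
  · intro l j _
    exact (hclH fun _ => j).2.1.2 l
  · intro j _
    have h1 := hclH j
    exact ⟨h1.1.1.1, fun i => h1.2.2 i⟩
  · intro π hπ
    refine huT T₀ π fun p => ?_
    have h1 := hclH fun _ => 0
    have h2 : T (fun p => cl (Sum.inl p) 0) = T₀ := h1.1.2
    have h3 : L.IsBase (range fun p => cl (Sum.inl p) 0) := h1.1.1.1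
    have h4 := linked_conn S hconn h3 (p := p) (p' := π p) (hπ p).symm
    have h6 : Linked L (fun p => cl (Sum.inl p) 0) t ≤ fun a c => (a, c) ∈ T₀ := by
      intro a c hac
      have h5 : (a, c) ∈ T (fun p => cl (Sum.inl p) 0) := hac
      rwa [h2] at h5
    exact Relation.ReflTransGen.mono h6 _ _ h4

end Helper86.CO
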