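import Pool.Agent.Helper86.CO.Cyclic
import Pool.Agent.Helper86.CO.Edmonds
import Pool.Agent.Helper86.CO.IrrClones
import Pool.Agent.Helper86.CO.NetClones
import Pool.Agent.Helper86.CO.Gad1
import Pool.Agent.Helper86.CO.Gad2
import Pool.Agent.Helper86.CO.ChainFlats
import Pool.Agent.Helper86.CO.ChainMatroid

/-! Assembly. -/

namespace Helper86.CO

open Set Function

universe u

/-! ### The system of a chain of flats -/

section Chain

variable {α : Type u}

theorem rk_eq_ncard [Finite α] {M : Matroid α} {I : Set α} (hI : M.Indep I) : rk M I = I.ncard := by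
  have h : (rk M I : ℕ∞) = I.ncard := by
    rw [coe_rk, hI.eRk_eq_encard, (toFinite I).cast_ncard_eq]
  exact_mod_cast h

theorem rk_mono [Finite α] (M : Matroid α) {X Y : Set α} (h : X ⊆ Y) : rk M X ≤ rk M Y := by
  have := M.eRk_mono h
  rw [← coe_rk, ← coe_rk] at this
  exact_mod_cast this

theorem rk_closure [Finite α] (M : Matroid α) (X : Set α) : rk M (M.closure X) = rk M X := by
  unfold rk
  rw [M.eRk_closure_eq]

theorem ncard_eq_sum [Finite α] {k : ℕ} {B : Fin k → Set α}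
    (hdisj : Pairwise (Disjoint on B)) (hcov : ⋃ i, B i = univ) (A : Set α) :
    A.ncard = ∑ i, (B i ∩ A).ncard := by
  classical
  have h1 : A = ⋃ i, (B i ∩ A) := by
    rw [← iUnion_inter, hcov, univ_inter]
  conv_lhs => rw [h1]
  rw [← finsum_eq_sum_of_fintype, Set.ncard_iUnion_of_finite (fun _ => toFinite _)]
  intro i j hij
  exact (hdisj hij).mono inter_subset_left inter_subset_left

theorem exists_sys [Finite α] {M : Matroid α} (hE : M.E = univ) {r k : ℕ} (hr : 0 < r)
    (hk : 0 < k) (hM : M.eRank = r) {B : Fin k → Set α} (hB : ∀ i, M.IsBase (B i))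
    (hdisj : Pairwise (Disjoint on B)) (hcov : ⋃ i, B i = univ) (Dm : ℕ → ℕ)
    (hmono : Monotone Dm) :
    ∃ j < r, ∃ (q : ℕ) (blk : α → Fin q) (L : Matroid α), Sys M L blk r k (Dm j) (Dm (j + 1)) ∧
      {i | ¬ L.IsBase (B i)}.ncard ≤ r * Dm j := by
  classical
  obtain ⟨j, hj, q, hq, F, hF0, hFq, hFs, hFf, hFd, hgap⟩ :=
    chain_flats hE hr hk hM hB hdisj hcov Dm hmono
  obtain ⟨L, blk, hLE, hblk, hweak, hsum, hrk, hcrit⟩ := chain_matroid hE hF0 hFq hFs hFf
  -- every base meets a set in at most its rank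
  have hcap : ∀ i (A : Set α), (B i ∩ A).ncard ≤ rk M A := by
    intro i A
    have h1 : M.Indep (B i ∩ A) := (hB i).indep.subset inter_subset_left
    rw [← rk_eq_ncard h1]
    exact rk_mono M inter_subset_right
  have hle : ∀ A : Set α, A.ncard ≤ k * rk M A := by
    intro A
    rw [ncard_eq_sum hdisj hcov A]
    calc ∑ i, (B i ∩ A).ncard ≤ ∑ _i : Fin k, rk M A := Finset.sum_le_sum fun i _ => hcap i A
      _ = k * rk M A := by simp
  have hsub : ∀ i : Fin q, F i ⊆ F (i + 1) := fun i => (hFs i i.2).subset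
  have hEi : ∀ i : Fin q, (blk ⁻¹' {i}) ∪ F i = F (i + 1) := by
    intro i
    rw [hblk, sdiff_union_self, union_eq_left.2 (hsub i)]
  have hci : ∀ i : Fin q, (blk ⁻¹' {i}).ncard + (F i).ncard = (F (i + 1)).ncard := by
    intro i
    rw [hblk]
    exact ncard_sdiff_add_ncard_of_subset (hsub i)
  refine ⟨j, hj, q, blk, L, ⟨inferInstance, hE, hLE, hM, hweak, hsum, ?_, hmono (Nat.le_succ j),
    ?_, ?_⟩, ?_⟩
  · rw [← Set.ncard_univ, ncard_eq_sum hdisj hcov]
    have : ∀ i, (B i ∩ univ).ncard = r := by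
      intro i
      rw [inter_univ]
      have := (hB i).encard_eq_eRank
      rw [hM, ← (toFinite (B i)).cast_ncard_eq] at this
      exact_mod_cast this
    rw [Finset.sum_congr rfl fun i _ => this i]
    simp
  · intro i
    have h1 := hrk i (blk ⁻¹' {i}) Subset.rfl
    rw [hEi] at h1
    have h2 := hle (F i)
    have h3 := hFd (i + 1) i.2
    have h4 := hci i
    have h5 : k * rk L (blk ⁻¹' {i}) + k * rk M (F i) = k * rk M (F (i + 1)) := by
      rw [← mul_add, h1]
    omega
  · intro i A hA hne hlt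
    have h1 := hrk i A hA
    have h1' := hrk i (blk ⁻¹' {i}) Subset.rfl
    rw [hEi] at h1'
    have hAF : A ∪ F i ⊆ F (i + 1) := by
      rw [← hEi i]
      exact union_subset_union_left _ hA
    set G := M.closure (A ∪ F i) with hG
    have hGsub : A ∪ F i ⊆ G := M.subset_closure _ (by rw [hE]; exact subset_univ _)
    have hGF : G ⊆ F (i + 1) := by
      have := M.closure_subset_closure hAF
      rwa [(hFf (i + 1) i.2).closure] at this
    have hGrk : rk M G = rk M (A ∪ F i) := rk_closure M _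
    have hdis : Disjoint A (F i) := by
      rw [Set.disjoint_left]
      intro a ha ha'
      have := hA ha
      rw [hblk] at this
      exact this.2 ha'
    obtain ⟨a, ha⟩ := hne
    have h2 := hgap i i.2 G (M.isFlat_closure _)
      ⟨subset_union_right.trans hGsub, fun h => by
        exact (Set.disjoint_left.1 hdis ha) (h (hGsub (Or.inl ha)))⟩
      ⟨hGF, fun h => by
        have := rk_mono M h
        rw [hGrk] at this
        omega⟩
    have h3 : A.ncard + (F i).ncard ≤ G.ncard := by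
      rw [← ncard_union_eq hdis]
      exact ncard_le_ncard hGsub
    have h4 := hFd i i.2.le
    rw [hGrk, ← h1, mul_add] at h2
    omega
  · -- few irregular bases
    have hbad : {i | ¬ L.IsBase (B i)} ⊆
        ⋃ t ∈ Finset.Icc 1 q, {i | (B i ∩ F t).ncard < rk M (F t)} := by
      intro i hi
      by_contra hcon
      simp only [mem_iUnion, not_exists] at hcon
      refine hi (hcrit _ (hB i) fun t ht => ?_)
      rcases Nat.eq_zero_or_pos t with rfl | ht0
      · rw [hF0]
        simp [rk]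
      · have := hcon t (Finset.mem_Icc.2 ⟨ht0, ht⟩)
        simp only [mem_ofPred_eq, not_lt] at this
        exact le_antisymm (hcap i _) this
    have hone : ∀ t ∈ Finset.Icc 1 q, {i | (B i ∩ F t).ncard < rk M (F t)}.ncard ≤ Dm j := by
      intro t ht
      have hFt := hFd t (Finset.mem_Icc.1 ht).2
      have h1 : ∑ i, (B i ∩ F t).ncard + {i | (B i ∩ F t).ncard < rk M (F t)}.ncard
          ≤ k * rk M (F t) := by
        rw [ncard_eq_toFinset_card' {i | (B i ∩ F t).ncard < rk M (F t)}, Finset.card_eq_sum_ones]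
        have : ∑ i ∈ {i | (B i ∩ F t).ncard < rk M (F t)}.toFinset, 1
            = ∑ i : Fin k, if (B i ∩ F t).ncard < rk M (F t) then 1 else 0 := by
          rw [Finset.sum_ite, Finset.sum_const_zero, add_zero]
          refine Finset.sum_congr ?_ fun _ _ => rfl
          ext i
          simp
        rw [this, ← Finset.sum_add_distrib]
        calc ∑ i : Fin k, ((B i ∩ F t).ncard + if (B i ∩ F t).ncard < rk M (F t) then 1 else 0)
            ≤ ∑ _i : Fin k, rk M (F t) := by
              refine Finset.sum_le_sum fun i _ => ?_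
              have := hcap i (F t)
              split_ifs with h <;> omega
          _ = k * rk M (F t) := by simp
      rw [← ncard_eq_sum hdisj hcov] at h1
      omega
    calc {i | ¬ L.IsBase (B i)}.ncard
        ≤ (⋃ t ∈ Finset.Icc 1 q, {i | (B i ∩ F t).ncard < rk M (F t)}).ncard :=
          ncard_le_ncard hbad
      _ ≤ ∑ t ∈ Finset.Icc 1 q, {i | (B i ∩ F t).ncard < rk M (F t)}.ncard := by
          exact Finset.set_ncard_biUnion_le _ _
      _ ≤ ∑ t ∈ Finset.Icc 1 q, Dm j := Finset.sum_le_sum hone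
      _ = q * Dm j := by simp
      _ ≤ r * Dm j := Nat.mul_le_mul_right _ hq


end Chain

/-! ### Existence of the gadgets -/

theorem irr_exists (r : ℕ) (hr : 0 < r) :
    ∃ K : ℕ, ∀ {α : Type u} {M L : Matroid α} {q : ℕ} {blk : α → Fin q} {k D D' : ℕ},
      Sys M L blk r k D D' → K ≤ k → ∀ W U : Set α, M.IsBase W → W ⊆ U →
      2 * (D + U.ncard) ≤ k →
      ∃ X : Set α, Disjoint X U ∧ BU L (2 * r) X ∧
        ∀ ρ : Fin r → α, L.IsBase (range ρ) → Disjoint (range ρ) X →
          ∃ ρ' : Fin r → α, L.IsBase (range ρ') ∧ blk ∘ ρ' = blk ∘ ρ ∧ range ρ' ⊆ X ∧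
            Path M ρ (X ∪ W) ρ' := by
  obtain ⟨K, hK⟩ := irr_clones.{u} r (2 * r)
  refine ⟨K, fun {α M L q blk k D D'} S hKk W U hW hWU hU => ?_⟩
  obtain ⟨y, cl, hy, rfl, hinj, hclU, hreg, hirr⟩ := hK S hKk W U hW hWU hU
  have hyc : ∀ p j, j < 2 * r → cl p j ∉ range y := fun p j hj h => hclU p j hj (hWU h)
  refine ⟨{a | ∃ p j, j < 2 * r ∧ a = cl p j}, ?_, ?_, ?_⟩
  · rw [Set.disjoint_left]
    rintro _ ⟨p, j, hj, rfl⟩
    exact hclU p j hj
  · refine ⟨fun j => range fun p => cl p j, fun j => hreg (fun _ => j) (fun _ => j.2), ?_, ?_⟩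
    · intro i j hij
      simp only [onFun]
      rw [Set.disjoint_left]
      rintro _ ⟨p, rfl⟩ ⟨p', hp'⟩
      exact hij (Fin.ext (hinj _ _ _ _ j.2 i.2 hp').2.symm)
    · ext a
      simp only [mem_iUnion, mem_range, mem_ofPred_eq]
      constructor
      · rintro ⟨i, p, rfl⟩
        exact ⟨p, i, i.2, rfl⟩
      · rintro ⟨p, j, hj, rfl⟩
        exact ⟨⟨j, hj⟩, p, rfl⟩
  · intro ρ hb hd
    exact irr_gadget S hr hy hinj hyc hreg hirr hb hd

theorem net_exists (r : ℕ) (hr : 0 < r) (b : ℕ) :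
    ∃ K N : ℕ, ∀ {α : Type u} {M L : Matroid α} {q : ℕ} {blk : α → Fin q} {k D D' : ℕ},
      Sys M L blk r k D D' → K ≤ k → k ≤ b * D' → ∀ U : Set α, 2 * (D + U.ncard) ≤ k →
      6 * D ≤ D' → 4 * r * r * (U.ncard + r + N) ≤ D' →
      ∃ (ρ₀ : Fin r → α) (Y : Set α), Y.ncard ≤ N ∧ Disjoint Y U ∧ range ρ₀ ⊆ Y ∧
        L.IsBase (range ρ₀) ∧ Path L ρ₀ Y ρ₀ ∧
        ∀ ρ : Fin r → α, L.IsBase (range ρ) → blk ∘ ρ = blk ∘ ρ₀ → Disjoint (range ρ) Y →
          Path L ρ Y ρ₀ := by
  obtain ⟨K, N, hK⟩ := net_clones.{u} r hr b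
  refine ⟨K, max N ((r + N) * (3 * N + 2)), fun {α M L q blk k D D'} S hKk hkb U hU h6 h4 => ?_⟩
  have : 4 * r * r * (U.ncard + r + N) ≤ D' :=
    le_trans (Nat.mul_le_mul_left _ (by omega)) h4
  obtain ⟨n, hn, e, cl, hne, hinj, hclU, hreg, huniv⟩ := hK S hKk hkb U hU h6 this
  obtain ⟨ρ₀, Y, h1, h2, h3, h4, h5⟩ := net_gadget S hne hinj hreg huniv
  have hfin := S.fin
  refine ⟨ρ₀, Y, ?_, ?_, h1, h2, h4, h5⟩
  · refine le_trans ?_ (le_max_right _ _)
    have : Y ⊆ range (fun x : (Fin r ⊕ Fin n) × Fin (3 * n + 2) => cl x.1 x.2) := by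
      intro a ha
      obtain ⟨l, j, hj, rfl⟩ := h3 ha
      exact ⟨(l, ⟨j, hj⟩), rfl⟩
    calc Y.ncard ≤ (range (fun x : (Fin r ⊕ Fin n) × Fin (3 * n + 2) => cl x.1 x.2)).ncard :=
          ncard_le_ncard this (toFinite _)
      _ ≤ Nat.card ((Fin r ⊕ Fin n) × Fin (3 * n + 2)) := by
          rw [← image_univ, ← Set.ncard_univ]
          exact ncard_image_le (toFinite _)
      _ = (r + n) * (3 * n + 2) := by
          simp
      _ ≤ (r + N) * (3 * N + 2) := by
          gcongr
  · rw [Set.disjoint_left]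
    intro a ha
    obtain ⟨l, j, hj, rfl⟩ := h3 ha
    exact hclU l j hj

/-! ### Processing the irregular bases -/

section Process

variable {α : Type u} {M L : Matroid α} {q : ℕ} {blk : α → Fin q} {r k D D' : ℕ}

theorem Sys.BU_ncard (S : Sys M L blk r k D D') {X : Set α} {n : ℕ} (hX : BU L n X) :
    X.ncard = n * r := by
  have := S.fin
  obtain ⟨B, hB, hd, rfl⟩ := hX
  rw [Set.ncard_iUnion_of_finite (fun _ => toFinite _) hd, finsum_eq_sum_of_fintype,
    Finset.sum_congr rfl fun i _ => S.base_ncard (S.weak _ (hB i))]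
  simp

theorem process (S : Sys M L blk r k D D') {ι : Type*} [DecidableEq ι] (B : ι → Set α)
    (hdisj : Pairwise (Disjoint on B)) (U : Set α) (T : ℕ)
    (hex : ∀ W V : Set α, M.IsBase W → W ⊆ V → 2 * (D + V.ncard) ≤ k →
      ∃ X : Set α, Disjoint X V ∧ BU L (2 * r) X ∧
        ∀ ρ : Fin r → α, L.IsBase (range ρ) → Disjoint (range ρ) X →
          ∃ ρ' : Fin r → α, L.IsBase (range ρ') ∧ blk ∘ ρ' = blk ∘ ρ ∧ range ρ' ⊆ X ∧
            Path M ρ (X ∪ W) ρ')
    (hU : 2 * (D + (U.ncard + T * (2 * r * r))) ≤ k)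
    {ρ : Fin r → α} (hb : L.IsBase (range ρ)) (hρU : range ρ ⊆ U) (J : Finset ι)
    (hJB : ∀ j ∈ J, M.IsBase (B j)) (hJU : ∀ j ∈ J, B j ⊆ U) (hJT : J.card ≤ T) :
    ∃ (X : Set α) (ρ' : Fin r → α), Disjoint X U ∧ Bal L blk (2 * r * J.card) X ∧
      X.ncard = 2 * r * r * J.card ∧ L.IsBase (range ρ') ∧ blk ∘ ρ' = blk ∘ ρ ∧
      range ρ' ⊆ X ∪ range ρ ∧ Path M ρ (X ∪ ⋃ j ∈ J, B j) ρ' := by
  have hfin := S.fin
  induction J using Finset.induction_on with
  | empty =>
    refine ⟨∅, ρ, disjoint_bot_left, ?_, by simp, hb, rfl, subset_union_right, ?_⟩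
    · intro i
      simp
    · have : (∅ ∪ ⋃ j ∈ (∅ : Finset ι), B j : Set α) = ∅ := by simp
      rw [this]
      exact Path.nil
  | insert j J hjJ ih =>
    rw [Finset.card_insert_of_notMem hjJ] at hJT
    obtain ⟨X, ρ₁, hXU, hXb, hXc, hb₁, hblk₁, hρ₁, hP₁⟩ := ih
      (fun i hi => hJB i (Finset.mem_insert_of_mem hi))
      (fun i hi => hJU i (Finset.mem_insert_of_mem hi)) (by omega)
    have hjU := hJU j (Finset.mem_insert_self _ _)
    have hVc : (U ∪ X).ncard ≤ U.ncard + T * (2 * r * r) := by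
      refine le_trans (ncard_union_le _ _) ?_
      rw [hXc, mul_comm]
      gcongr
      omega
    obtain ⟨X', hX'V, hX'B, hX'P⟩ := hex (B j) (U ∪ X) (hJB j (Finset.mem_insert_self _ _))
      (hjU.trans subset_union_left) (by omega)
    have hX'U : Disjoint X' U := hX'V.mono_right subset_union_left
    have hX'X : Disjoint X' X := hX'V.mono_right subset_union_right
    obtain ⟨ρ₂, hb₂, hblk₂, hρ₂, hP₂⟩ := hX'P ρ₁ hb₁
      (hX'V.symm.mono_left (hρ₁.trans (union_subset subset_union_right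
        (hρU.trans subset_union_left))))
    refine ⟨X ∪ X', ρ₂, ?_, ?_, ?_, hb₂, hblk₂.trans hblk₁, ?_, ?_⟩
    · exact disjoint_union_left.2 ⟨hXU, hX'U⟩
    · rw [Finset.card_insert_of_notMem hjJ, mul_add, mul_one]
      exact S.bal_union hXb (S.bal_BU hX'B) hX'X.symm
    · rw [ncard_union_eq hX'X.symm, hXc, S.BU_ncard hX'B, Finset.card_insert_of_notMem hjJ]
      ring
    · exact hρ₂.trans (subset_union_right.trans subset_union_left)
    · have h := hP₁.trans hP₂ ?_
      · have he : (X ∪ ⋃ i ∈ J, B i) ∪ (X' ∪ B j) = (X ∪ X') ∪ ⋃ i ∈ insert j J, B i := by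
          rw [Finset.set_biUnion_insert]
          ext a
          simp only [mem_union]
          tauto
        rwa [he] at h
      · rw [disjoint_union_left, disjoint_union_right, disjoint_union_right]
        refine ⟨⟨hX'X.symm, hXU.mono_right hjU⟩, ?_, ?_⟩
        · rw [Set.disjoint_left]
          intro a ha ha'
          simp only [mem_iUnion] at ha
          obtain ⟨i, hi, hai⟩ := ha
          exact Set.disjoint_left.1 hX'U ha' (hJU i (Finset.mem_insert_of_mem hi) hai)
        · rw [Set.disjoint_left]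
          intro a ha ha'
          simp only [mem_iUnion] at ha
          obtain ⟨i, hi, hai⟩ := ha
          have hij : i ≠ j := fun h => hjJ (h ▸ hi)
          exact Set.disjoint_left.1 (hdisj hij) hai ha'

end Process

/-! ### The closed path for a system -/

/-- The size of the gap. -/
def gapA (r : ℕ) : ℕ :=
  4 * r * r * (r * r + 1) + (2 * r + 1) * r * r + 2 * r * r + 4 * r * r * r +
    (2 * r + 1) * r + r + 12

theorem sys_path (r : ℕ) (hr : 0 < r) (b : ℕ) :
    ∃ K : ℕ, ∀ {α : Type u} {M L : Matroid α} {q : ℕ} {blk : α → Fin q} {k D D' : ℕ},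
      Sys M L blk r k D D' → K ≤ k → K ≤ D → k ≤ b * D' → gapA r * D ≤ D' → gapA r * D' ≤ k →
      ∀ B : Fin k → Set α, (∀ i, M.IsBase (B i)) → Pairwise (Disjoint on B) →
      ⋃ i, B i = univ → {i | ¬ L.IsBase (B i)}.ncard ≤ r * D →
      ∃ ρ : Fin r → α, Path M ρ univ ρ := by
  classical
  obtain ⟨K₁, hK₁⟩ := irr_exists.{u} r hr
  obtain ⟨K₂, N, hK₂⟩ := net_exists.{u} r hr b
  refine ⟨K₁ + K₂ + N + r + 1, fun {α M L q blk k D D'} S hKk hKD hkb hDD' hD'k B hB hdisj hcov
    hirr => ?_⟩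
  have hfin := S.fin
  have hAD : ∀ c, c ≤ gapA r → c * D ≤ D' := fun c hc =>
    le_trans (Nat.mul_le_mul_right D hc) hDD'
  have hAk : ∀ c, c ≤ gapA r → c * D ≤ k := fun c hc =>
    (hAD c hc).trans (le_trans (by
      calc D' = 1 * D' := (one_mul _).symm
        _ ≤ gapA r * D' := Nat.mul_le_mul_right _ (by unfold gapA; omega)) hD'k)
  set J : Finset (Fin k) := Finset.univ.filter fun i => ¬ L.IsBase (B i) with hJ
  have hJc : J.card ≤ r * D := by
    rw [← ncard_coe_finset]
    refine le_trans (le_of_eq ?_) hirr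
    congr 1
    ext i
    simp [hJ]
  set U₀ : Set α := ⋃ j ∈ J, B j with hU₀
  have hBr : ∀ i, (B i).ncard = r := fun i => S.base_ncard (hB i)
  have hU₀c : U₀.ncard ≤ r * r * D := by
    calc U₀.ncard ≤ ∑ j ∈ J, (B j).ncard := Finset.set_ncard_biUnion_le _ _
      _ = J.card * r := by rw [Finset.sum_congr rfl fun i _ => hBr i]; simp
      _ ≤ (r * D) * r := Nat.mul_le_mul_right _ hJc
      _ = r * r * D := by ring
  have hn1 : 2 * (D + U₀.ncard) ≤ k := by
    have := hAk (2 + 2 * r * r) (by unfold gapA; ring_nf; omega)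
    calc 2 * (D + U₀.ncard) ≤ 2 * (D + r * r * D) := by gcongr
      _ = (2 + 2 * r * r) * D := by ring
      _ ≤ k := this
  have hn2 : 4 * r * r * (U₀.ncard + r + N) ≤ D' := by
    have := hAD (4 * r * r * (r * r + 1)) (by unfold gapA; ring_nf; omega)
    calc 4 * r * r * (U₀.ncard + r + N) ≤ 4 * r * r * (r * r * D + D) := by
          gcongr 4 * r * r * ?_
          omega
      _ = 4 * r * r * (r * r + 1) * D := by ring
      _ ≤ D' := this
  obtain ⟨ρ₀, Y, hYN, hYU, hρY, hb₀, hPY, hnet⟩ := hK₂ S (by omega) hkb U₀ hn1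
    (hAD 6 (by unfold gapA; omega)) hn2
  obtain ⟨nY, hnY, hYr⟩ := S.bal_path hPY
  have hnYN : nY ≤ N := by
    calc nY = nY * 1 := (mul_one _).symm
      _ ≤ nY * r := Nat.mul_le_mul_left _ hr
      _ ≤ N := by omega
  have hn3 : 2 * (D + ((U₀ ∪ Y).ncard + r * D * (2 * r * r))) ≤ k := by
    have := hAk (4 + 2 * r * r + 4 * r * r * r) (by unfold gapA; ring_nf; omega)
    have h2 : (U₀ ∪ Y).ncard ≤ r * r * D + D := by
      refine le_trans (ncard_union_le _ _) ?_
      omega
    calc 2 * (D + ((U₀ ∪ Y).ncard + r * D * (2 * r * r)))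
        ≤ 2 * (D + ((r * r * D + D) + r * D * (2 * r * r))) := by gcongr
      _ = (4 + 2 * r * r + 4 * r * r * r) * D := by ring
      _ ≤ k := this
  obtain ⟨X, ρ₁, hXU, hXb, hXc, hb₁, hblk₁, hρ₁, hP₁⟩ := process S B hdisj (U₀ ∪ Y) (r * D)
    (fun W V hW hWV hV => hK₁ S (by omega) W V hW hWV hV) hn3 hb₀ (hρY.trans subset_union_right) J
    (fun j _ => hB j)
    (fun j hj a ha => Or.inl (mem_iUnion₂.2 ⟨j, hj, ha⟩)) hJc
  have hXU₀ : Disjoint X U₀ := hXU.mono_right subset_union_left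
  have hXY : Disjoint X Y := hXU.mono_right subset_union_right
  -- what is left
  have hused : J.card + nY + 2 * r * J.card ≤ ((2 * r + 1) * r + 1) * D := by
    calc J.card + nY + 2 * r * J.card = (2 * r + 1) * J.card + nY := by ring
      _ ≤ (2 * r + 1) * (r * D) + D := by
          gcongr
          omega
      _ = ((2 * r + 1) * r + 1) * D := by ring
  have hDpos : 0 < D := by omega
  have hlt : J.card + nY + 2 * r * J.card < k := by
    have := hAk ((2 * r + 1) * r + 1 + 1) (by unfold gapA; ring_nf; omega)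
    have h3 : ((2 * r + 1) * r + 1 + 1) * D = ((2 * r + 1) * r + 1) * D + D := by ring
    omega
  have hV₀ : Bal L blk (k - J.card) (univ \ U₀) := by
    intro i
    rw [ncard_eq_sum hdisj hcov]
    have : ∀ j, (B j ∩ ((univ \ U₀) ∩ blk ⁻¹' {i})).ncard
        = if j ∈ J then 0 else rk L (blk ⁻¹' {i}) := by
      intro j
      split_ifs with h
      · have : B j ∩ ((univ \ U₀) ∩ blk ⁻¹' {i}) = ∅ := by
          rw [eq_empty_iff_forall_notMem]
          rintro a ⟨ha, ⟨_, ha'⟩, _⟩
          exact ha' (mem_iUnion₂.2 ⟨j, h, ha⟩)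
        rw [this, ncard_empty]
      · have hj : L.IsBase (B j) := by
          by_contra hcon
          exact h (by simp [hJ, hcon])
        rw [← S.base_block hj i]
        congr 1
        ext a
        simp only [mem_inter_iff, mem_sdiff, mem_univ, true_and]
        constructor
        · rintro ⟨h1, _, h3⟩
          exact ⟨h1, h3⟩
        · rintro ⟨h1, h3⟩
          refine ⟨h1, ?_, h3⟩
          intro h4
          obtain ⟨j', hj', haj'⟩ := mem_iUnion₂.1 h4
          have hne : j ≠ j' := fun hh => h (hh ▸ hj')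
          exact Set.disjoint_left.1 (hdisj hne) h1 haj'
    rw [Finset.sum_congr rfl fun j _ => this j, Finset.sum_ite, Finset.sum_const_zero, zero_add,
      Finset.sum_const, smul_eq_mul]
    congr 1
    have : (Finset.univ.filter fun j => j ∉ J) = Jᶜ := by
      ext j
      simp
    rw [this, Finset.card_compl, Fintype.card_fin]
  set R : Set α := (univ \ U₀) \ (Y ∪ X) with hR
  set n := k - (J.card + nY + 2 * r * J.card) with hn
  have hRbal : Bal L blk n R := by
    refine S.bal_diff (n := nY + 2 * r * J.card) ?_ (S.bal_union hnY hXb hXY.symm) ?_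
    · convert hV₀ using 1
      omega
    · intro a ha
      refine ⟨mem_univ _, fun h => ?_⟩
      rcases ha with ha | ha
      · exact Set.disjoint_left.1 hYU ha h
      · exact Set.disjoint_left.1 hXU₀ ha h
  have hRB : BU L n R := by
    refine rest S (by omega) hRbal ?_
    have hkn : k - n = J.card + nY + 2 * r * J.card := by omega
    rw [hkn]
    have := hAD ((2 * r + 1) * r * r + r + 1) (by unfold gapA; ring_nf; omega)
    calc r * (J.card + nY + 2 * r * J.card) + D ≤ r * (((2 * r + 1) * r + 1) * D) + D := by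
          gcongr
      _ = ((2 * r + 1) * r * r + r + 1) * D := by ring
      _ ≤ D' := this
  obtain ⟨ρ₂, hb₂, hblk₂, hρ₂, hP₂⟩ := reg_chain S hb₁ (by omega : 0 < n) hRB (by
    rw [Set.disjoint_left]
    intro a ha ha'
    rcases hρ₁ ha with h | h
    · exact ha'.2 (Or.inr h)
    · exact ha'.2 (Or.inl (hρY h)))
  have hP₃ := hnet ρ₂ hb₂ (hblk₂.trans hblk₁) (by
    rw [Set.disjoint_left]
    intro a ha ha'
    exact (hρ₂ ha).2 (Or.inl ha'))
  have hA := (hP₁.trans (hP₂.mono S.weak) ?_).trans (hP₃.mono S.weak) ?_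
  · refine ⟨ρ₀, ?_⟩
    have he : X ∪ ⋃ j ∈ J, B j = X ∪ U₀ := rfl
    have : (X ∪ ⋃ j ∈ J, B j) ∪ R ∪ Y = univ := by
      rw [he, eq_univ_iff_forall]
      intro a
      simp only [mem_union, hR, mem_sdiff, mem_univ, true_and]
      tauto
    rwa [this] at hA
  · change Disjoint (X ∪ U₀) R
    rw [disjoint_union_left]
    constructor
    · rw [Set.disjoint_left]
      intro a ha ha'
      exact ha'.2 (Or.inr ha)
    · rw [Set.disjoint_left]
      intro a ha ha'
      exact ha'.1.2 ha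
  · change Disjoint (X ∪ U₀ ∪ R) Y
    rw [disjoint_union_left, disjoint_union_left]
    refine ⟨⟨hXY, hYU.symm⟩, ?_⟩
    rw [Set.disjoint_left]
    intro a ha ha'
    exact ha.2 (Or.inl ha')

/-! ### All matroids with many bases -/

theorem large_univ (r : ℕ) (hr : 0 < r) :
    ∃ K : ℕ, ∀ {α : Type u} [Finite α] (M : Matroid α), M.E = univ → M.eRank = r →
      ∀ k : ℕ, K ≤ k → ∀ B : Fin k → Set α, (∀ i, M.IsBase (B i)) → Pairwise (Disjoint on B) →
      ⋃ i, B i = univ → ∃ ρ : Fin r → α, Path M ρ univ ρ := by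
  set A := gapA r with hA
  have hA1 : 1 ≤ A := by rw [hA]; unfold gapA; omega
  set b₀ := A ^ (r + 1) with hb₀
  have hb₀1 : 1 ≤ b₀ := Nat.one_le_pow _ _ hA1
  obtain ⟨K, hK⟩ := sys_path.{u} r hr (2 * b₀)
  refine ⟨b₀ * (K + 1), fun {α} _ M hE hM k hk B hB hdisj hcov => ?_⟩
  set m := k / b₀ with hm
  have hmK : K + 1 ≤ m := (Nat.le_div_iff_mul_le hb₀1).2 (by rw [mul_comm]; exact hk)
  have hmk : b₀ * m ≤ k := Nat.mul_div_le k b₀
  have hkm : k < b₀ * (m + 1) := by
    have := Nat.lt_mul_div_succ k hb₀1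
    exact this
  have hmono : Monotone fun j => A ^ j * m := fun i j hij =>
    Nat.mul_le_mul_right _ (Nat.pow_le_pow_right hA1 hij)
  have hk0 : 0 < k := by
    have : m ≤ b₀ * m := Nat.le_mul_of_pos_left _ hb₀1
    omega
  obtain ⟨j, hj, q, blk, L, S, hirr⟩ := exists_sys hE hr hk0 hM hB hdisj hcov
    (fun j => A ^ j * m) hmono
  have hmj : ∀ i, m ≤ A ^ i * m := fun i => Nat.le_mul_of_pos_left _ (Nat.one_le_pow _ _ hA1)
  refine hK S ?_ ?_ ?_ ?_ ?_ B hB hdisj hcov hirr
  · have : m ≤ b₀ * m := Nat.le_mul_of_pos_left _ hb₀1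
    omega
  · have := hmj j
    show K ≤ A ^ j * m
    omega
  · show k ≤ 2 * b₀ * (A ^ (j + 1) * m)
    calc k ≤ b₀ * (m + 1) := hkm.le
      _ ≤ b₀ * (2 * m) := by gcongr; omega
      _ = 2 * b₀ * m := by ring
      _ ≤ 2 * b₀ * (A ^ (j + 1) * m) := by
          gcongr
          exact hmj _
  · show A * (A ^ j * m) ≤ A ^ (j + 1) * m
    rw [pow_succ]
    apply le_of_eq
    ring
  · show A * (A ^ (j + 1) * m) ≤ k
    calc A * (A ^ (j + 1) * m) = A ^ (j + 2) * m := by ring
      _ ≤ A ^ (r + 1) * m :=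
          Nat.mul_le_mul_right _ (Nat.pow_le_pow_right hA1 (by omega))
      _ ≤ k := hmk

end Helper86.CO
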